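import Mathlib

set_option autoImplicit false
open MvPolynomial

namespace Pool.Agent.H371R3.GQ

section
variable {k : Type} [Field k]

lemma finrank_hom (t : ℕ) :
    Module.finrank k (homogeneousSubmodule (Fin 3) k t) = (t + 2).choose 2 := by
  classical
  rw [homogeneousSubmodule_eq_finsupp_supported,
    (AddMonoidAlgebra.supportedEquivFinsupp (R := k) (S := k)
      {d : Fin 3 →₀ ℕ | d.degree = t}).finrank_eq]
  have hset : {d : Fin 3 →₀ ℕ | d.degree = t} =
      ((Finset.univ : Finset (Fin 3)).finsuppAntidiag t : Set (Fin 3 →₀ ℕ)) := by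
    ext d
    simp [Finset.mem_finsuppAntidiag, Finsupp.degree_eq_sum]
  rw [hset, Module.finrank_finsupp_self]
  simp only [Finset.coe_sort_coe, Fintype.card_coe]
  rw [Finset.card_finsuppAntidiag_nat_eq_choose]
  simp only [Finset.card_univ, Fintype.card_fin]
  rw [show 3 + t - 1 = t + 2 by omega]
  exact (Nat.choose_symm_of_eq_add (by omega)).symm

instance fin_hom (t : ℕ) : Module.Finite k (homogeneousSubmodule (Fin 3) k t) :=
  Module.Finite.iff_fg.2 (homogeneousSubmodule_fg (Fin 3) k t)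

theorem eval_smul_hom {R : Type} [CommRing R] {n : ℕ} {G : MvPolynomial (Fin n) R} {e : ℕ}
    (hG : G.IsHomogeneous e) (t : R) (x : Fin n → R) : eval (t • x) G = t ^ e * eval x G := by
  rw [eval_eq', eval_eq', Finset.mul_sum]
  refine Finset.sum_congr rfl fun α hα => ?_
  have hdeg : α.degree = e := by
    by_contra h
    exact (mem_support_iff.1 hα) (hG.coeff_eq_zero h)
  rw [Finsupp.degree_eq_sum] at hdeg
  simp only [Pi.smul_apply, smul_eq_mul, mul_pow]
  rw [Finset.prod_mul_distrib, Finset.prod_pow_eq_pow_sum, hdeg]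
  ring

/-- linear form -/
noncomputable def lf (η : Fin 3 → k) : MvPolynomial (Fin 3) k := ∑ i, C (η i) * X i

theorem lf_hom (η : Fin 3 → k) : (lf η).IsHomogeneous 1 := by
  unfold lf
  apply IsHomogeneous.sum
  intro i _
  have := (isHomogeneous_C (Fin 3) (η i)).mul (isHomogeneous_X k i)
  simpa using this

theorem lf_eval (η v : Fin 3 → k) : eval v (lf η) = ∑ i, η i * v i := by
  unfold lf
  simp [map_sum]

theorem lf_sep (a b : Fin 3 → k) (h : LinearIndependent k ![a, b]) :
    ∃ η : Fin 3 → k, ∑ i, η i * b i = 0 ∧ ∑ i, η i * a i ≠ 0 := by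
  have h1 : a ∉ Submodule.span k {b} := by
    intro hc
    rw [Submodule.mem_span_singleton] at hc
    obtain ⟨t, ht⟩ := hc
    rw [LinearIndependent.pair_iff] at h
    have := h (-1) t (by rw [ht]; simp)
    simp at this
  obtain ⟨f, hf1, hf2⟩ := Submodule.exists_dual_map_eq_bot_of_notMem h1 inferInstance
  have hfb : f b = 0 := by
    have h2 : f b ∈ (Submodule.span k {b}).map f :=
      Submodule.mem_map_of_mem (Submodule.mem_span_singleton_self b)
    rw [hf2] at h2
    exact (Submodule.mem_bot k).mp h2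
  have hfx : ∀ v : Fin 3 → k, ∑ i, f (Pi.single i 1) * v i = f v := by
    intro v
    conv_rhs => rw [pi_eq_sum_univ' v]
    rw [map_sum]
    refine Finset.sum_congr rfl fun i _ => ?_
    rw [map_smul, smul_eq_mul, mul_comm]
  exact ⟨fun i => f (Pi.single i 1), by rw [hfx]; exact hfb, by rw [hfx]; exact hf1⟩

/-- separating forms -/
theorem exists_sep {ι : Type} [Fintype ι] [DecidableEq ι] (v : ι → Fin 3 → k)
    (hv : ∀ i j, i ≠ j → LinearIndependent k ![v i, v j]) (h0 : ∀ i, v i ≠ 0) (t : ℕ)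
    (ht : Fintype.card ι ≤ t) (i : ι) :
    ∃ f : MvPolynomial (Fin 3) k, f.IsHomogeneous t ∧ eval (v i) f = 1 ∧
      ∀ j, j ≠ i → eval (v j) f = 0 := by
  have hex : ∀ l, ∃ η : Fin 3 → k, l ≠ i → ∑ j, η j * v l j = 0 ∧ ∑ j, η j * v i j ≠ 0 := by
    intro l
    by_cases hl : l = i
    · exact ⟨0, fun h => absurd hl h⟩
    · obtain ⟨η, h1, h2⟩ := lf_sep (v i) (v l) (hv i l (Ne.symm hl))
      exact ⟨η, fun _ => ⟨h1, h2⟩⟩
  choose η hη using hex
  obtain ⟨i0, hi0⟩ := Function.ne_iff.mp (h0 i)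
  have hcard : (Finset.univ.erase i).card = Fintype.card ι - 1 := by
    rw [Finset.card_erase_of_mem (Finset.mem_univ i), Finset.card_univ]
  have hpos : 0 < Fintype.card ι := Fintype.card_pos_iff.mpr ⟨i⟩
  set f : MvPolynomial (Fin 3) k := (∏ l ∈ Finset.univ.erase i, lf (η l)) *
    (X i0) ^ (t - (Fintype.card ι - 1)) with hf
  have hfh : f.IsHomogeneous t := by
    have h1 : (∏ l ∈ Finset.univ.erase i, lf (η l)).IsHomogeneous
        (∑ l ∈ Finset.univ.erase i, 1) :=
      IsHomogeneous.prod _ _ _ fun l _ => lf_hom (η l)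
    have h2 := (isHomogeneous_X k i0 : (X i0 : MvPolynomial (Fin 3) k).IsHomogeneous 1).pow
      (t - (Fintype.card ι - 1))
    have h3 := h1.mul h2
    rw [Finset.sum_const, hcard, smul_eq_mul, mul_one, one_mul] at h3
    have h4 : Fintype.card ι - 1 + (t - (Fintype.card ι - 1)) = t := by omega
    rw [h4] at h3
    exact h3
  have hne : eval (v i) f ≠ 0 := by
    rw [hf, map_mul, map_prod, map_pow, eval_X]
    refine mul_ne_zero (Finset.prod_ne_zero_iff.mpr fun l hl => ?_) (pow_ne_zero _ hi0)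
    rw [lf_eval]
    exact (hη l (Finset.ne_of_mem_erase hl)).2
  refine ⟨C (eval (v i) f)⁻¹ * f, hfh.C_mul _, ?_, ?_⟩
  · rw [map_mul, eval_C, inv_mul_cancel₀ hne]
  · intro j hj
    have hz : eval (v j) (∏ l ∈ Finset.univ.erase i, lf (η l)) = 0 := by
      rw [map_prod]
      apply Finset.prod_eq_zero (Finset.mem_erase.mpr ⟨hj, Finset.mem_univ j⟩)
      rw [lf_eval]
      exact (hη j hj).1
    have hfz : eval (v j) f = 0 := by rw [hf, map_mul, hz, zero_mul]
    rw [map_mul, hfz, mul_zero]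

lemma two_choose (x : ℕ) : 2 * (x + 2).choose 2 = (x + 2) * (x + 1) := by
  rw [Nat.choose_two_right]
  have h : (x + 2) * (x + 2 - 1) = (x + 2) * (x + 1) := by congr 1
  rw [h]
  have : 2 ∣ (x + 2) * (x + 1) := by
    have := (Nat.even_mul_succ_self (x + 1)).two_dvd
    rwa [mul_comm] at this
  omega

lemma choose_id (m n s : ℕ) :
    (m + n + s + 2).choose 2 + (s + 2).choose 2 =
      (n + s + 2).choose 2 + (m + s + 2).choose 2 + m * n := by
  have h1 := two_choose (m + n + s)
  have h2 := two_choose s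
  have h3 := two_choose (n + s)
  have h4 := two_choose (m + s)
  have : 2 * ((m + n + s + 2).choose 2 + (s + 2).choose 2) =
      2 * ((n + s + 2).choose 2 + (m + s + 2).choose 2 + m * n) := by
    rw [mul_add, mul_add, mul_add, h1, h2, h3, h4]
    ring
  omega

/-- the map `(X, Y) ↦ X F + Y G` on forms -/
noncomputable def comb (F G : MvPolynomial (Fin 3) k) (a b : ℕ) :
    (homogeneousSubmodule (Fin 3) k a × homogeneousSubmodule (Fin 3) k b) →ₗ[k]
      MvPolynomial (Fin 3) k :=
  (LinearMap.mulRight k F ∘ₗ (homogeneousSubmodule (Fin 3) k a).subtype).coprod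
    (LinearMap.mulRight k G ∘ₗ (homogeneousSubmodule (Fin 3) k b).subtype)

lemma comb_apply (F G : MvPolynomial (Fin 3) k) (a b : ℕ)
    (x : homogeneousSubmodule (Fin 3) k a × homogeneousSubmodule (Fin 3) k b) :
    comb F G a b x = (x.1 : MvPolynomial (Fin 3) k) * F + (x.2 : MvPolynomial (Fin 3) k) * G := by
  simp [comb, LinearMap.coprod_apply]

lemma hom_of_mul {F G : MvPolynomial (Fin 3) k} {a b : ℕ} (hF : F.IsHomogeneous a)
    (hF0 : F ≠ 0) (h : (G * F).IsHomogeneous (b + a)) : G.IsHomogeneous b := by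
  have h1 : homogeneousComponent b G * F = G * F := by
    have h2 : homogeneousComponent (b + a) (G * F) = G * F := by
      rw [homogeneousComponent_of_mem ((mem_homogeneousSubmodule _ _).mpr h), if_pos rfl]
    rw [← h2]
    conv_rhs => rw [← sum_homogeneousComponent G, Finset.sum_mul, map_sum]
    have h3 : ∀ i ∈ Finset.range (G.totalDegree + 1),
        homogeneousComponent (b + a) (homogeneousComponent i G * F) =
          if i = b then homogeneousComponent b G * F else 0 := by
      intro i _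
      have h3 : (homogeneousComponent i G * F).IsHomogeneous (i + a) :=
        (homogeneousComponent_isHomogeneous i G).mul hF
      rw [homogeneousComponent_of_mem ((mem_homogeneousSubmodule _ _).mpr h3)]
      by_cases h4 : i = b
      · rw [if_pos h4, if_pos (by omega), h4]
      · rw [if_neg h4, if_neg (by omega)]
    rw [Finset.sum_congr rfl h3, Finset.sum_ite_eq']
    split_ifs with h5
    · rfl
    · rw [homogeneousComponent_eq_zero, zero_mul]
      simp only [Finset.mem_range, not_lt] at h5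
      omega
  have h2 := mul_right_cancel₀ hF0 h1
  rw [← h2]
  exact homogeneousComponent_isHomogeneous b G

/-- evaluation of forms at points -/
noncomputable def evm {ι : Type} (v : ι → Fin 3 → k) (t : ℕ) :
    homogeneousSubmodule (Fin 3) k t →ₗ[k] (ι → k) :=
  LinearMap.pi (fun i => (MvPolynomial.aeval (v i)).toLinearMap.comp
    (homogeneousSubmodule (Fin 3) k t).subtype)

lemma evm_apply {ι : Type} (v : ι → Fin 3 → k) (t : ℕ) (f : homogeneousSubmodule (Fin 3) k t)
    (i : ι) : evm v t f i = eval (v i) (f : MvPolynomial (Fin 3) k) := by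
  change (MvPolynomial.aeval (v i)) (f : MvPolynomial (Fin 3) k) = _
  rw [MvPolynomial.aeval_eq_eval]

lemma mem_ker_evm {ι : Type} (v : ι → Fin 3 → k) (t : ℕ)
    (f : homogeneousSubmodule (Fin 3) k t) :
    f ∈ LinearMap.ker (evm v t) ↔ ∀ i, eval (v i) (f : MvPolynomial (Fin 3) k) = 0 := by
  rw [LinearMap.mem_ker]
  constructor
  · intro h i
    rw [← evm_apply v t, h, Pi.zero_apply]
  · intro h
    funext i
    rw [evm_apply, h, Pi.zero_apply]

theorem evm_surj {ι : Type} [Fintype ι] (v : ι → Fin 3 → k)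
    (hv : ∀ i j, i ≠ j → LinearIndependent k ![v i, v j]) (h0 : ∀ i, v i ≠ 0) (t : ℕ)
    (ht : Fintype.card ι ≤ t) : LinearMap.range (evm v t) = ⊤ := by
  classical
  rw [LinearMap.range_eq_top]
  intro c
  choose f hf1 hf2 hf3 using exists_sep v hv h0 t ht
  have hmem : ∀ i, f i ∈ homogeneousSubmodule (Fin 3) k t := fun i =>
    (mem_homogeneousSubmodule _ _).mpr (hf1 i)
  refine ⟨∑ i, c i • (⟨f i, hmem i⟩ : homogeneousSubmodule (Fin 3) k t), ?_⟩
  funext j
  rw [map_sum, Finset.sum_apply]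
  have h1 : ∀ i, (evm v t) (c i • (⟨f i, hmem i⟩ : homogeneousSubmodule (Fin 3) k t)) j =
      c i * eval (v j) (f i) := by
    intro i
    rw [map_smul, Pi.smul_apply, evm_apply, smul_eq_mul]
  simp only [h1]
  rw [Finset.sum_eq_single j]
  · rw [hf2, mul_one]
  · intro i _ hij
    rw [hf3 i j (Ne.symm hij), mul_zero]
  · simp

theorem finrank_ker_evm {ι : Type} [Fintype ι] (v : ι → Fin 3 → k)
    (hv : ∀ i j, i ≠ j → LinearIndependent k ![v i, v j]) (h0 : ∀ i, v i ≠ 0) (t : ℕ)
    (ht : Fintype.card ι ≤ t) :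
    Fintype.card ι + Module.finrank k (LinearMap.ker (evm v t)) = (t + 2).choose 2 := by
  have h1 := LinearMap.finrank_range_add_finrank_ker (evm v t)
  rw [evm_surj v hv h0 t ht, finrank_top, Module.finrank_fintype_fun_eq_card, finrank_hom] at h1
  exact h1

theorem finrank_ker_comb {F G : MvPolynomial (Fin 3) k} {m n : ℕ} (hF : F.IsHomogeneous m)
    (hG : G.IsHomogeneous n) (hG0 : G ≠ 0) (hcop : IsRelPrime F G) (s : ℕ) :
    Module.finrank k (LinearMap.ker (comb F G (n + s) (m + s))) = (s + 2).choose 2 := by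
  rw [← finrank_hom (k := k) s]
  let Ψ : homogeneousSubmodule (Fin 3) k s →ₗ[k]
      (homogeneousSubmodule (Fin 3) k (n + s) × homogeneousSubmodule (Fin 3) k (m + s)) :=
    LinearMap.prod
      (LinearMap.codRestrict _ (LinearMap.mulLeft k G ∘ₗ Submodule.subtype _) (fun x => by
        exact hG.mul ((mem_homogeneousSubmodule _ _).mp x.2)))
      (LinearMap.codRestrict _ (LinearMap.mulLeft k (-F) ∘ₗ Submodule.subtype _) (fun x => by
        exact hF.neg.mul ((mem_homogeneousSubmodule _ _).mp x.2)))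
  have hΨ1 : ∀ x, ((Ψ x).1 : MvPolynomial (Fin 3) k) = G * x := fun x => rfl
  have hΨ2 : ∀ x, ((Ψ x).2 : MvPolynomial (Fin 3) k) = -F * x := fun x => rfl
  have hinj : Function.Injective Ψ := by
    intro x y hxy
    have h1 : ((Ψ x).1 : MvPolynomial (Fin 3) k) = (Ψ y).1 := by rw [hxy]
    rw [hΨ1, hΨ1] at h1
    exact Subtype.ext (mul_left_cancel₀ hG0 h1)
  have hker : LinearMap.ker (comb F G (n + s) (m + s)) = LinearMap.range Ψ := by
    apply le_antisymm
    · rintro ⟨⟨x, hx⟩, ⟨y, hy⟩⟩ hxy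
      rw [LinearMap.mem_ker, comb_apply] at hxy
      simp only at hxy
      have hdvd : G ∣ x := by
        have : G ∣ x * F := ⟨-y, by linear_combination hxy⟩
        exact hcop.symm.dvd_of_dvd_mul_right this
      obtain ⟨c, hc⟩ := hdvd
      have hch : c.IsHomogeneous s := by
        apply hom_of_mul hG hG0
        rw [mul_comm, ← hc, add_comm]
        exact hx
      refine ⟨⟨c, hch⟩, ?_⟩
      have hy' : y = -F * c := by
        have : G * (y + F * c) = 0 := by
          rw [hc] at hxy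
          linear_combination hxy
        have := (mul_eq_zero.mp this).resolve_left hG0
        linear_combination this
      refine Prod.ext (Subtype.ext ?_) (Subtype.ext ?_)
      · change G * c = x
        exact hc.symm
      · change -F * c = y
        exact hy'.symm
    · rintro _ ⟨x, rfl⟩
      rw [LinearMap.mem_ker, comb_apply, hΨ1, hΨ2]
      ring
  rw [hker, LinearMap.finrank_range_of_inj hinj]

theorem finrank_range_comb {F G : MvPolynomial (Fin 3) k} {m n : ℕ} (hF : F.IsHomogeneous m)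
    (hG : G.IsHomogeneous n) (hG0 : G ≠ 0) (hcop : IsRelPrime F G) (s : ℕ) :
    Module.finrank k (LinearMap.range (comb F G (n + s) (m + s))) + m * n =
      (m + n + s + 2).choose 2 := by
  have h2 := LinearMap.finrank_range_add_finrank_ker (comb F G (n + s) (m + s))
  rw [Module.finrank_prod, finrank_hom, finrank_hom, finrank_ker_comb hF hG hG0 hcop] at h2
  have h7 := choose_id m n s
  omega

theorem comb_le {ι : Type} (v : ι → Fin 3 → k)
    {F G : MvPolynomial (Fin 3) k} {m n : ℕ} (hF : F.IsHomogeneous m) (hG : G.IsHomogeneous n)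
    (hFv : ∀ i, eval (v i) F = 0) (hGv : ∀ i, eval (v i) G = 0) (s : ℕ) :
    LinearMap.range (comb F G (n + s) (m + s)) ≤
      (LinearMap.ker (evm v (m + n + s))).map (homogeneousSubmodule (Fin 3) k _).subtype := by
  rintro _ ⟨⟨⟨x, hx⟩, ⟨y, hy⟩⟩, rfl⟩
  rw [comb_apply]
  have e1 : (x * F).IsHomogeneous (m + n + s) := by
    have := IsHomogeneous.mul ((mem_homogeneousSubmodule _ _).mp hx) hF
    rwa [show n + s + m = m + n + s by ring] at this
  have e2 : (y * G).IsHomogeneous (m + n + s) := by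
    have := IsHomogeneous.mul ((mem_homogeneousSubmodule _ _).mp hy) hG
    rwa [show m + s + n = m + n + s by ring] at this
  refine ⟨⟨x * F + y * G, (mem_homogeneousSubmodule _ _).mpr (e1.add e2)⟩, ?_, rfl⟩
  rw [SetLike.mem_coe, mem_ker_evm]
  intro i
  simp only [map_add, map_mul, hFv, hGv, mul_zero, add_zero]

/-- Bezout for forms in three variables. -/
theorem bezout {ι : Type} [Fintype ι] (v : ι → Fin 3 → k)
    (hv : ∀ i j, i ≠ j → LinearIndependent k ![v i, v j]) (h0 : ∀ i, v i ≠ 0)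
    {F G : MvPolynomial (Fin 3) k} {m n : ℕ} (hF : F.IsHomogeneous m) (hG : G.IsHomogeneous n)
    (hG0 : G ≠ 0) (hcop : IsRelPrime F G)
    (hFv : ∀ i, eval (v i) F = 0) (hGv : ∀ i, eval (v i) G = 0) :
    Fintype.card ι ≤ m * n := by
  have h1 := finrank_ker_evm v hv h0 (m + n + Fintype.card ι) (by omega)
  have h2 := finrank_range_comb hF hG hG0 hcop (Fintype.card ι)
  have h3 := Submodule.finrank_mono (comb_le v hF hG hFv hGv (Fintype.card ι))
  rw [Submodule.finrank_map_subtype_eq] at h3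
  omega

/-- the case of equality in Bezout -/
theorem bezout_eq {ι : Type} [Fintype ι] (v : ι → Fin 3 → k)
    (hv : ∀ i j, i ≠ j → LinearIndependent k ![v i, v j]) (h0 : ∀ i, v i ≠ 0)
    {F G : MvPolynomial (Fin 3) k} {m n : ℕ} (hF : F.IsHomogeneous m) (hG : G.IsHomogeneous n)
    (hG0 : G ≠ 0) (hcop : IsRelPrime F G)
    (hFv : ∀ i, eval (v i) F = 0) (hGv : ∀ i, eval (v i) G = 0)
    (hcard : Fintype.card ι = m * n) (t : ℕ) (ht : m + n + Fintype.card ι ≤ t)
    (H : MvPolynomial (Fin 3) k) (hH : H.IsHomogeneous t) (hHv : ∀ i, eval (v i) H = 0) :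
    ∃ X Y, H = X * F + Y * G := by
  obtain ⟨s, rfl⟩ : ∃ s, t = m + n + s := ⟨t - (m + n), by omega⟩
  have h1 := finrank_ker_evm v hv h0 (m + n + s) (by omega)
  have h2 := finrank_range_comb hF hG hG0 hcop s
  have h3 := comb_le v hF hG hFv hGv s
  have h4 : LinearMap.range (comb F G (n + s) (m + s)) =
      (LinearMap.ker (evm v (m + n + s))).map (homogeneousSubmodule (Fin 3) k _).subtype := by
    apply Submodule.eq_of_le_of_finrank_le h3
    rw [Submodule.finrank_map_subtype_eq]
    omega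
  have h9 : H ∈ (LinearMap.ker (evm v (m + n + s))).map
      (homogeneousSubmodule (Fin 3) k _).subtype := by
    refine ⟨⟨H, hH⟩, ?_, rfl⟩
    rw [SetLike.mem_coe, mem_ker_evm]
    exact hHv
  rw [← h4] at h9
  obtain ⟨x, hx⟩ := h9
  rw [comb_apply] at hx
  exact ⟨_, _, hx.symm⟩

/-- the number of points of a complete intersection -/
theorem card_ge {ι : Type} [Fintype ι] (v : ι → Fin 3 → k)
    (hv : ∀ i j, i ≠ j → LinearIndependent k ![v i, v j]) (h0 : ∀ i, v i ≠ 0)
    {F G : MvPolynomial (Fin 3) k} {m n : ℕ} (hF : F.IsHomogeneous m) (hG : G.IsHomogeneous n)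
    (hG0 : G ≠ 0) (hcop : IsRelPrime F G)
    (hall : ∀ t, ∀ H : MvPolynomial (Fin 3) k, H.IsHomogeneous (m + n + t) →
      (∀ i, eval (v i) H = 0) →
      ∃ X Y, X.IsHomogeneous (n + t) ∧ Y.IsHomogeneous (m + t) ∧ H = X * F + Y * G) :
    m * n ≤ Fintype.card ι := by
  have h1 := finrank_ker_evm v hv h0 (m + n + Fintype.card ι) (by omega)
  have h2 := finrank_range_comb hF hG hG0 hcop (Fintype.card ι)
  have h3 : (LinearMap.ker (evm v (m + n + Fintype.card ι))).map
      (homogeneousSubmodule (Fin 3) k _).subtype ≤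
      LinearMap.range (comb F G (n + Fintype.card ι) (m + Fintype.card ι)) := by
    rintro _ ⟨⟨H, hH⟩, hH2, rfl⟩
    rw [SetLike.mem_coe, mem_ker_evm] at hH2
    obtain ⟨X, Y, hX, hY, hXY⟩ := hall _ H hH hH2
    refine ⟨(⟨X, hX⟩, ⟨Y, hY⟩), ?_⟩
    rw [comb_apply]
    exact hXY.symm
  have h4 := Submodule.finrank_mono h3
  rw [Submodule.finrank_map_subtype_eq] at h4
  omega

/-- no form of positive degree divides all the forms vanishing at finitely many points -/
theorem no_common {ι : Type} [Fintype ι] (v : ι → Fin 3 → k)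
    (hv : ∀ i j, i ≠ j → LinearIndependent k ![v i, v j]) (h0 : ∀ i, v i ≠ 0)
    {δ : MvPolynomial (Fin 3) k} {e : ℕ} (hδ : δ.IsHomogeneous e) (hδ0 : δ ≠ 0) (he : 1 ≤ e)
    (hall : ∀ t, ∀ H : MvPolynomial (Fin 3) k, H.IsHomogeneous t →
      (∀ i, eval (v i) H = 0) → δ ∣ H) : False := by
  obtain ⟨t, ht1, ht2⟩ : ∃ t, Fintype.card ι ≤ t ∧ e ≤ t := ⟨Fintype.card ι + e, by omega, by omega⟩
  obtain ⟨s, rfl⟩ : ∃ s, t = s + e := ⟨t - e, by omega⟩
  have h1 := finrank_ker_evm v hv h0 (s + e) ht1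
  have h3 : (LinearMap.ker (evm v (s + e))).map
      (homogeneousSubmodule (Fin 3) k _).subtype ≤
      (homogeneousSubmodule (Fin 3) k s).map (LinearMap.mulRight k δ) := by
    rintro _ ⟨⟨H, hH⟩, hH2, rfl⟩
    rw [SetLike.mem_coe, mem_ker_evm] at hH2
    obtain ⟨c, hc⟩ := hall _ H hH hH2
    refine ⟨c, ?_, ?_⟩
    · apply hom_of_mul hδ hδ0
      rw [mul_comm, ← hc]
      exact hH
    · change c * δ = H
      rw [hc, mul_comm]
  have h4 := Submodule.finrank_mono h3
  rw [Submodule.finrank_map_subtype_eq] at h4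
  have h5 := Submodule.finrank_map_le (LinearMap.mulRight k δ) (homogeneousSubmodule (Fin 3) k s)
  rw [finrank_hom] at h5
  have h6 := two_choose (s + e)
  have h7 := two_choose s
  have h8 : (s + 2 + 1) * (s + 1 + 1) ≤ (s + e + 2) * (s + e + 1) :=
    Nat.mul_le_mul (by omega) (by omega)
  nlinarith

end

end Pool.Agent.H371R3.GQ
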