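import Pool.Agent.H371R3.GQ.A1

set_option autoImplicit false
set_option linter.unusedSectionVars false
open MvPolynomial

namespace Pool.Agent.H371R3.GQ

section hc
variable {R : Type} [CommRing R] {σ : Type}

theorem hcomp_mul (p F : MvPolynomial σ R) (a m : ℕ) (hF : F.IsHomogeneous m) :
    homogeneousComponent (a + m) (p * F) = homogeneousComponent a p * F := by
  conv_lhs => rw [← sum_homogeneousComponent p]
  rw [Finset.sum_mul, map_sum]
  have h : ∀ i, homogeneousComponent (a + m) (homogeneousComponent i p * F) =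
      if a = i then homogeneousComponent i p * F else 0 := by
    intro i
    have h1 : (homogeneousComponent i p * F).IsHomogeneous (i + m) :=
      (homogeneousComponent_isHomogeneous i p).mul hF
    rw [homogeneousComponent_of_mem h1]
    by_cases hi : a = i
    · simp [hi]
    · rw [if_neg hi, if_neg (by omega)]
  simp only [h]
  rw [Finset.sum_ite_eq]
  split_ifs with ha
  · rfl
  · rw [homogeneousComponent_eq_zero, zero_mul]
    rw [Finset.mem_range] at ha
    omega

theorem hcomp_mul_lt (p F : MvPolynomial σ R) (a m : ℕ) (hF : F.IsHomogeneous m) (h : a < m) :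
    homogeneousComponent a (p * F) = 0 := by
  conv_lhs => rw [← sum_homogeneousComponent p]
  rw [Finset.sum_mul, map_sum]
  apply Finset.sum_eq_zero
  intro i _
  have h1 : (homogeneousComponent i p * F).IsHomogeneous (i + m) :=
    (homogeneousComponent_isHomogeneous i p).mul hF
  rw [homogeneousComponent_of_mem h1, if_neg (by omega)]

/-- the coefficient of a homogeneous combination may be taken homogeneous -/
theorem hcomp_one (p F : MvPolynomial σ R) (h m : ℕ) (hF : F.IsHomogeneous m) :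
    ∃ q : MvPolynomial σ R, q.IsHomogeneous (h - m) ∧ (h < m → q = 0) ∧
      homogeneousComponent h (p * F) = q * F := by
  by_cases hlt : h < m
  · exact ⟨0, isHomogeneous_zero _ _ _, fun _ => rfl, by rw [hcomp_mul_lt p F h m hF hlt, zero_mul]⟩
  · refine ⟨homogeneousComponent (h - m) p, homogeneousComponent_isHomogeneous _ _,
      fun hh => absurd hh hlt, ?_⟩
    rw [← hcomp_mul p F (h - m) m hF]
    congr 2
    omega

theorem hcomp_two {H X Y F G : MvPolynomial σ R} {h m n : ℕ} (hH : H.IsHomogeneous h)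
    (hF : F.IsHomogeneous m) (hG : G.IsHomogeneous n) (hXY : H = X * F + Y * G) :
    ∃ X' Y' : MvPolynomial σ R, X'.IsHomogeneous (h - m) ∧ (h < m → X' = 0) ∧
      Y'.IsHomogeneous (h - n) ∧ (h < n → Y' = 0) ∧ H = X' * F + Y' * G := by
  obtain ⟨X', h1, h2, h3⟩ := hcomp_one X F h m hF
  obtain ⟨Y', h4, h5, h6⟩ := hcomp_one Y G h n hG
  refine ⟨X', Y', h1, h2, h4, h5, ?_⟩
  rw [← h3, ← h6, ← map_add, ← hXY, homogeneousComponent_of_mem ((mem_homogeneousSubmodule _ _).mpr hH),
    if_pos rfl]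

/-- restriction to `w = 0` -/
noncomputable def pi0 : MvPolynomial (Fin 3) R →+* MvPolynomial (Fin 3) R :=
  eval₂Hom C ![0, X 1, X 2]

@[simp] lemma pi0_C (r : R) : pi0 (C r : MvPolynomial (Fin 3) R) = C r := by simp [pi0]
@[simp] lemma pi0_X0 : pi0 (X 0 : MvPolynomial (Fin 3) R) = 0 := by simp [pi0]
@[simp] lemma pi0_X1 : pi0 (X 1 : MvPolynomial (Fin 3) R) = X 1 := by simp [pi0]
@[simp] lemma pi0_X2 : pi0 (X 2 : MvPolynomial (Fin 3) R) = X 2 := by simp [pi0]

lemma pi0_sub (p : MvPolynomial (Fin 3) R) : X 0 ∣ p - pi0 p := by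
  induction p using MvPolynomial.induction_on with
  | C a => simp
  | add p q hp hq =>
    rw [map_add, show p + q - (pi0 p + pi0 q) = (p - pi0 p) + (q - pi0 q) by ring]
    exact dvd_add hp hq
  | mul_X p i hp =>
    rw [map_mul, show p * X i - pi0 p * pi0 (X i) = (p - pi0 p) * X i + pi0 p * (X i - pi0 (X i))
      by ring]
    refine dvd_add (Dvd.dvd.mul_right hp _) (Dvd.dvd.mul_left ?_ _)
    fin_cases i <;> simp

lemma pi0_idem (p : MvPolynomial (Fin 3) R) : pi0 (pi0 p) = pi0 p := by
  obtain ⟨c, hc⟩ := pi0_sub p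
  have : pi0 (p - pi0 p) = 0 := by rw [hc, map_mul, pi0_X0, zero_mul]
  rw [map_sub] at this
  exact (sub_eq_zero.mp this).symm

lemma dvd_of_pi0 {p : MvPolynomial (Fin 3) R} (h : pi0 p = 0) : X 0 ∣ p := by
  have := pi0_sub p
  rwa [h, sub_zero] at this

end hc

section
variable {k : Type} [Field k]

lemma sum_comp_eval {H : MvPolynomial (Fin 3) k} (v : Fin 3 → k) (τ : k) :
    eval (τ • v) H = ∑ t ∈ Finset.range (H.totalDegree + 1),
      τ ^ t * eval v (homogeneousComponent t H) := by
  conv_lhs => rw [← sum_homogeneousComponent H]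
  rw [map_sum]
  exact Finset.sum_congr rfl fun t _ =>
    eval_smul_hom (homogeneousComponent_isHomogeneous t H) τ v

theorem comp_van [Infinite k] {H : MvPolynomial (Fin 3) k} (v : Fin 3 → k)
    (h : ∀ τ : k, τ ≠ 0 → eval (τ • v) H = 0) (t : ℕ) :
    eval v (homogeneousComponent t H) = 0 := by
  by_cases ht : t ∈ Finset.range (H.totalDegree + 1)
  · set P : Polynomial k := ∑ t ∈ Finset.range (H.totalDegree + 1),
      Polynomial.C (eval v (homogeneousComponent t H)) * Polynomial.X ^ t with hP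
    have hP0 : P = 0 := by
      apply Polynomial.eq_zero_of_infinite_isRoot
      apply Set.Infinite.mono (s := {0}ᶜ)
      · intro τ hτ
        rw [Set.mem_compl_iff, Set.mem_singleton_iff] at hτ
        change P.eval τ = 0
        rw [hP, Polynomial.eval_finsetSum, ← h τ hτ, sum_comp_eval]
        refine Finset.sum_congr rfl fun t _ => ?_
        rw [Polynomial.eval_mul, Polynomial.eval_C, Polynomial.eval_pow, Polynomial.eval_X, mul_comm]
      · exact (Set.finite_singleton (0 : k)).infinite_compl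
    have h2 : P.coeff t = eval v (homogeneousComponent t H) := by
      rw [hP, Polynomial.finsetSum_coeff]
      simp only [Polynomial.coeff_C_mul_X_pow]
      rw [Finset.sum_ite_eq, if_pos ht]
    rw [← h2, hP0, Polynomial.coeff_zero]
  · rw [homogeneousComponent_eq_zero, map_zero]
    rw [Finset.mem_range] at ht
    omega

variable [Infinite k] {ι : Type} [Fintype ι]

/-- the data of a complete intersection of points in the plane, off the line `w = 0` -/
structure CI (v : ι → Fin 3 → k) (F G : MvPolynomial (Fin 3) k) (m n : ℕ) : Prop where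
  hv : ∀ i j, i ≠ j → LinearIndependent k ![v i, v j]
  hw : ∀ i, v i 0 ≠ 0
  hF : F.IsHomogeneous m
  hG : G.IsHomogeneous n
  hF0 : F ≠ 0
  hG0 : G ≠ 0
  hcop : IsRelPrime F G
  hFv : ∀ i, eval (v i) F = 0
  hGv : ∀ i, eval (v i) G = 0
  hcard : Fintype.card ι = m * n

variable {v : ι → Fin 3 → k} {F G : MvPolynomial (Fin 3) k} {m n : ℕ}

theorem CI.h0 (h : CI v F G m n) (i : ι) : v i ≠ 0 := fun hz => h.hw i (by rw [hz]; rfl)

theorem CI.large (h : CI v F G m n) {H : MvPolynomial (Fin 3) k}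
    (hH : ∀ i, ∀ τ : k, τ ≠ 0 → eval (τ • v i) H = 0) (j : Fin 3) :
    ∃ X Y, (X : MvPolynomial (Fin 3) k) * F + Y * G =
      (MvPolynomial.X j) ^ (m + n + Fintype.card ι) * H := by
  set N := m + n + Fintype.card ι with hN
  have h1 : ∀ t, ∃ X Y : MvPolynomial (Fin 3) k,
      (MvPolynomial.X j) ^ N * homogeneousComponent t H = X * F + Y * G := by
    intro t
    apply bezout_eq v h.hv h.h0 h.hF h.hG h.hG0 h.hcop h.hFv h.hGv h.hcard (N + t) (by omega)
    · have := (isHomogeneous_X k j : (MvPolynomial.X j : MvPolynomial (Fin 3) k).IsHomogeneous 1).pow N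
      rw [one_mul] at this
      exact this.mul (homogeneousComponent_isHomogeneous t H)
    · intro i
      rw [map_mul, comp_van (v i) (hH i) t, mul_zero]
  choose X Y hXY using h1
  refine ⟨∑ t ∈ Finset.range (H.totalDegree + 1), X t, ∑ t ∈ Finset.range (H.totalDegree + 1), Y t, ?_⟩
  conv_rhs => rw [← sum_homogeneousComponent H]
  rw [Finset.mul_sum, Finset.sum_mul, Finset.sum_mul, ← Finset.sum_add_distrib]
  exact Finset.sum_congr rfl fun t _ => (hXY t).symm

/-- the two forms restricted to `w = 0` have no common factor, in the form of a statement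
about syzygies -/
theorem CI.syz (h : CI v F G m n) {X Y : MvPolynomial (Fin 3) k}
    (hXY : pi0 X * pi0 F + pi0 Y * pi0 G = 0) :
    ∃ c : MvPolynomial (Fin 3) k, pi0 c = c ∧ pi0 X = c * pi0 G ∧ pi0 Y = - (c * pi0 F) := by
  have h1 : pi0 (X * F + Y * G) = 0 := by rw [map_add, map_mul, map_mul, hXY]
  obtain ⟨H, hH⟩ := dvd_of_pi0 h1
  have hHv : ∀ i, ∀ τ : k, τ ≠ 0 → eval (τ • v i) H = 0 := by
    intro i τ hτ
    have h2 := congrArg (eval (τ • v i)) hH
    rw [map_add, map_mul, map_mul, map_mul, eval_smul_hom h.hF, eval_smul_hom h.hG, h.hFv, h.hGv,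
      eval_X, Pi.smul_apply, smul_eq_mul] at h2
    simp only [mul_zero, add_zero] at h2
    rcases mul_eq_zero.mp h2.symm with h3 | h3
    · exact absurd h3 (mul_ne_zero hτ (h.hw i))
    · exact h3
  have key : ∀ j : Fin 3, ∃ c : MvPolynomial (Fin 3) k,
      pi0 (MvPolynomial.X j) ^ (m + n + Fintype.card ι) * pi0 X = pi0 c * pi0 G ∧
      pi0 (MvPolynomial.X j) ^ (m + n + Fintype.card ι) * pi0 Y = - (pi0 c * pi0 F) := by
    intro j
    obtain ⟨X', Y', hX'⟩ := h.large hHv j
    set N := m + n + Fintype.card ι with hN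
    have h3 : (MvPolynomial.X j ^ N * X - MvPolynomial.X 0 * X') * F =
        - (MvPolynomial.X j ^ N * Y - MvPolynomial.X 0 * Y') * G := by
      linear_combination (MvPolynomial.X j ^ N) * hH - (MvPolynomial.X 0) * hX'
    have h4 : G ∣ (MvPolynomial.X j ^ N * X - MvPolynomial.X 0 * X') := by
      apply h.hcop.symm.dvd_of_dvd_mul_right
      exact ⟨_, by rw [h3, mul_comm]⟩
    obtain ⟨c, hc⟩ := h4
    have h5 : MvPolynomial.X j ^ N * Y - MvPolynomial.X 0 * Y' = - (c * F) := by
      apply mul_right_cancel₀ h.hG0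
      rw [hc] at h3
      linear_combination h3
    refine ⟨c, ?_, ?_⟩
    · have := congrArg pi0 hc
      rw [map_sub, map_mul, map_mul, map_mul, pi0_X0, zero_mul, sub_zero, map_pow] at this
      rw [this, mul_comm]
    · have := congrArg pi0 h5
      rw [map_sub, map_mul, map_mul, map_neg, map_mul, pi0_X0, zero_mul, sub_zero, map_pow] at this
      exact this
  obtain ⟨c1, h11, h12⟩ := key 1
  obtain ⟨c2, h21, h22⟩ := key 2
  set N := m + n + Fintype.card ι with hN
  rw [pi0_X1] at h11 h12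
  rw [pi0_X2] at h21 h22
  have hX1 : (MvPolynomial.X 1 : MvPolynomial (Fin 3) k) ≠ 0 := X_ne_zero 1
  have h6 : MvPolynomial.X 2 ^ N * pi0 c1 = MvPolynomial.X 1 ^ N * pi0 c2 := by
    by_contra hne
    have hne' := sub_ne_zero.mpr hne
    have e1 : (MvPolynomial.X 2 ^ N * pi0 c1 - MvPolynomial.X 1 ^ N * pi0 c2) * pi0 G = 0 := by
      linear_combination - (MvPolynomial.X 2 ^ N) * h11 + (MvPolynomial.X 1 ^ N) * h21
    have e2 : (MvPolynomial.X 2 ^ N * pi0 c1 - MvPolynomial.X 1 ^ N * pi0 c2) * pi0 F = 0 := by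
      linear_combination (MvPolynomial.X 2 ^ N) * h12 - (MvPolynomial.X 1 ^ N) * h22
    have e3 := dvd_of_pi0 ((mul_eq_zero.mp e1).resolve_left hne')
    have e4 := dvd_of_pi0 ((mul_eq_zero.mp e2).resolve_left hne')
    have e5 : IsUnit (MvPolynomial.X 0 : MvPolynomial (Fin 3) k) := h.hcop e4 e3
    exact (X_prime (R := k) (i := (0 : Fin 3))).not_isUnit e5
  have h7 : (MvPolynomial.X 1 : MvPolynomial (Fin 3) k) ^ N ∣ pi0 c1 := by
    have hrel : IsRelPrime (MvPolynomial.X 1 : MvPolynomial (Fin 3) k) (MvPolynomial.X 2) := by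
      have hp := (X_prime (R := k) (i := (1 : Fin 3)))
      rw [hp.irreducible.isRelPrime_iff_not_dvd]
      rw [MvPolynomial.X_dvd_X]
      simp
    have hrel2 := (hrel.pow_left (m := N)).pow_right (n := N)
    apply hrel2.dvd_of_dvd_mul_left
    exact ⟨pi0 c2, h6⟩
  obtain ⟨d, hd⟩ := h7
  have hNe : (MvPolynomial.X 1 : MvPolynomial (Fin 3) k) ^ N ≠ 0 := pow_ne_zero _ hX1
  have e1 : pi0 X = d * pi0 G := by
    apply mul_left_cancel₀ hNe
    rw [h11, hd, mul_assoc]
  have e2 : pi0 Y = - (d * pi0 F) := by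
    apply mul_left_cancel₀ hNe
    rw [h12, hd]
    ring
  refine ⟨pi0 d, pi0_idem d, ?_, ?_⟩
  · have := congrArg pi0 e1
    rwa [pi0_idem, map_mul, pi0_idem] at this
  · have := congrArg pi0 e2
    rwa [pi0_idem, map_neg, map_mul, pi0_idem] at this

/-- the vanishing ideal -/
theorem CI.mem (h : CI v F G m n) {H : MvPolynomial (Fin 3) k}
    (hH : ∀ i, ∀ τ : k, τ ≠ 0 → eval (τ • v i) H = 0) :
    ∃ X Y : MvPolynomial (Fin 3) k, H = X * F + Y * G := by
  have key : ∀ N : ℕ, ∀ X Y : MvPolynomial (Fin 3) k,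
      X * F + Y * G = (MvPolynomial.X 0) ^ N * H → ∃ X Y : MvPolynomial (Fin 3) k,
      H = X * F + Y * G := by
    intro N
    induction N with
    | zero => intro X Y hXY; exact ⟨X, Y, by rw [hXY, pow_zero, one_mul]⟩
    | succ N ih =>
      intro X Y hXY
      have h1 : pi0 X * pi0 F + pi0 Y * pi0 G = 0 := by
        rw [← map_mul, ← map_mul, ← map_add, hXY, map_mul, map_pow, pi0_X0]
        simp
      obtain ⟨c, hc, h2, h3⟩ := h.syz h1
      obtain ⟨X', hX'⟩ := dvd_of_pi0 (p := X - c * G) (by rw [map_sub, map_mul, hc, h2, sub_self])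
      obtain ⟨Y', hY'⟩ := dvd_of_pi0 (p := Y + c * F)
        (by rw [map_add, map_mul, hc, h3, neg_add_cancel])
      apply ih X' Y'
      apply mul_left_cancel₀ (X_ne_zero (R := k) (0 : Fin 3))
      have : MvPolynomial.X 0 * (MvPolynomial.X 0 ^ N * H) = (MvPolynomial.X 0) ^ (N + 1) * H := by
        rw [pow_succ]; ring
      rw [this, ← hXY]
      linear_combination - F * hX' - G * hY'
  obtain ⟨X, Y, hXY⟩ := h.large hH 0
  exact key _ X Y hXY

theorem CI.mem_hom (h : CI v F G m n) {H : MvPolynomial (Fin 3) k} {e : ℕ}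
    (hH : H.IsHomogeneous e) (hHv : ∀ i, eval (v i) H = 0) :
    ∃ X Y : MvPolynomial (Fin 3) k, X.IsHomogeneous (e - m) ∧ (e < m → X = 0) ∧
      Y.IsHomogeneous (e - n) ∧ (e < n → Y = 0) ∧ H = X * F + Y * G := by
  obtain ⟨X, Y, hXY⟩ := h.mem (H := H) (fun i τ _ => by rw [eval_smul_hom hH, hHv, mul_zero])
  exact hcomp_two hH h.hF h.hG hXY

end

end Pool.Agent.H371R3.GQ
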