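import Pool.Agent.H371R3.GQ.A2

set_option autoImplicit false
set_option linter.unusedSectionVars false
set_option linter.unusedSimpArgs false
open MvPolynomial

namespace Pool.Agent.H371R3.GQ

section factor
variable {R : Type} [CommRing R] [IsDomain R] {σ : Type}

theorem hom_of_mul' {F G : MvPolynomial σ R} {a b : ℕ} (hF : F.IsHomogeneous a)
    (hF0 : F ≠ 0) (h : (G * F).IsHomogeneous (b + a)) : G.IsHomogeneous b := by
  have h1 : homogeneousComponent b G * F = G * F := by
    rw [← hcomp_mul G F b a hF, homogeneousComponent_of_mem ((mem_homogeneousSubmodule _ _).mpr h),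
      if_pos rfl]
  have h2 := mul_right_cancel₀ hF0 h1
  rw [← h2]
  exact homogeneousComponent_isHomogeneous b G

/-- the scaling map -/
noncomputable def scal : MvPolynomial σ R →ₐ[R] Polynomial (MvPolynomial σ R) :=
  aeval fun i => Polynomial.C (X i) * Polynomial.X

lemma scal_hom {f : MvPolynomial σ R} {n : ℕ} (hf : f.IsHomogeneous n) :
    scal f = Polynomial.C f * Polynomial.X ^ n := by
  conv_lhs => rw [f.as_sum]
  conv_rhs => rw [f.as_sum]
  rw [map_sum, map_sum, Finset.sum_mul]
  apply Finset.sum_congr rfl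
  intro d hd
  have hdeg : d.degree = n := by
    by_contra h
    exact (mem_support_iff.1 hd) (hf.coeff_eq_zero h)
  rw [scal, aeval_monomial, Finsupp.prod, ← hdeg, Finsupp.degree]
  rw [monomial_eq, Finsupp.prod]
  simp only [mul_pow, Finset.prod_mul_distrib, map_mul, map_prod, map_pow]
  rw [Finset.prod_pow_eq_pow_sum, ← mul_assoc]
  rfl

lemma coeff_scal (f : MvPolynomial σ R) (n : ℕ) : (scal f).coeff n = homogeneousComponent n f := by
  conv_lhs => rw [← sum_homogeneousComponent f]
  rw [map_sum, Polynomial.finsetSum_coeff]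
  have h1 : ∀ i, (scal (homogeneousComponent i f)).coeff n =
      if n = i then homogeneousComponent i f else 0 := by
    intro i
    rw [scal_hom (homogeneousComponent_isHomogeneous i f), Polynomial.coeff_C_mul_X_pow]
  simp_rw [h1]
  rw [Finset.sum_ite_eq]
  split_ifs with h
  · rfl
  · rw [homogeneousComponent_eq_zero]
    rw [Finset.mem_range] at h
    omega

lemma scal_ne_zero {f : MvPolynomial σ R} (hf : f ≠ 0) : scal f ≠ 0 := by
  intro h
  apply hf
  rw [← sum_homogeneousComponent f]
  apply Finset.sum_eq_zero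
  intro i _
  rw [← coeff_scal, h, Polynomial.coeff_zero]

lemma isHomogeneous_of_scal {f : MvPolynomial σ R}
    (h : (scal f).natDegree = (scal f).natTrailingDegree) :
    f.IsHomogeneous (scal f).natDegree := by
  have h1 : ∀ n, n ≠ (scal f).natDegree → homogeneousComponent n f = 0 := by
    intro n hn
    rw [← coeff_scal]
    rcases lt_or_gt_of_ne hn with h2 | h2
    · rw [h] at h2
      exact Polynomial.coeff_eq_zero_of_lt_natTrailingDegree h2
    · exact Polynomial.coeff_eq_zero_of_natDegree_lt h2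
  have h2 : f = homogeneousComponent (scal f).natDegree f := by
    conv_lhs => rw [← sum_homogeneousComponent f]
    by_cases h3 : (scal f).natDegree ∈ Finset.range (f.totalDegree + 1)
    · rw [Finset.sum_eq_single_of_mem _ h3]
      intro n _ hn
      exact h1 n hn
    · rw [Finset.sum_eq_zero, homogeneousComponent_eq_zero]
      · rw [Finset.mem_range] at h3
        omega
      · intro n hn
        apply h1
        rintro rfl
        exact h3 hn
  conv_lhs => rw [h2]
  exact homogeneousComponent_isHomogeneous _ f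

/-- factors of homogeneous polynomials are homogeneous -/
lemma isHomogeneous_of_mul {n : ℕ} {f g : MvPolynomial σ R} (h0 : f * g ≠ 0)
    (h : (f * g).IsHomogeneous n) :
    ∃ a b, f.IsHomogeneous a ∧ g.IsHomogeneous b ∧ a + b = n := by
  have hf : f ≠ 0 := left_ne_zero_of_mul h0
  have hg : g ≠ 0 := right_ne_zero_of_mul h0
  have h1 := scal_hom h
  rw [map_mul] at h1
  have h2 : (scal f * scal g).natDegree = n := by
    rw [h1, Polynomial.natDegree_C_mul_X_pow _ _ h0]
  have h3 : (scal f * scal g).natTrailingDegree = n := by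
    rw [h1, Polynomial.C_mul_X_pow_eq_monomial, Polynomial.natTrailingDegree_monomial h0]
  rw [Polynomial.natDegree_mul (scal_ne_zero hf) (scal_ne_zero hg)] at h2
  rw [Polynomial.natTrailingDegree_mul (scal_ne_zero hf) (scal_ne_zero hg)] at h3
  have h4 := Polynomial.natTrailingDegree_le_natDegree (scal f)
  have h5 := Polynomial.natTrailingDegree_le_natDegree (scal g)
  exact ⟨_, _, isHomogeneous_of_scal (by omega), isHomogeneous_of_scal (by omega), h2⟩

end factor

section theta
variable {R : Type} [CommRing R]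

lemma coeff_theta (i : Fin 3) (F : MvPolynomial (Fin 3) R) (m : Fin 3 →₀ ℕ) :
    coeff m (X i * pderiv i F) = (m i : R) * coeff m F := by
  induction F using MvPolynomial.induction_on' with
  | monomial s a =>
    rw [pderiv_monomial]
    by_cases hs : s i = 0
    · rw [hs]
      simp only [Nat.cast_zero, mul_zero, map_zero, coeff_zero]
      rw [coeff_monomial]
      split_ifs with h
      · rw [← h, hs]; simp
      · simp
    · have h1 : (X i : MvPolynomial (Fin 3) R) * monomial (s - Finsupp.single i 1) (a * (s i : R)) =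
          monomial s (a * (s i : R)) := by
        have h2 : Finsupp.single i 1 + (s - Finsupp.single i 1) = s := by
          ext j
          by_cases hj : j = i
          · subst hj; simp; omega
          · simp [Finsupp.single_apply, Ne.symm hj]
        rw [X, monomial_mul, one_mul, h2]
      rw [h1, coeff_monomial, coeff_monomial]
      split_ifs with h
      · rw [← h, mul_comm]
      · simp
  | add p q hp hq => rw [map_add, mul_add, coeff_add, coeff_add, hp, hq, mul_add]

lemma coeff_D2_succ (i : Fin 3) (F : MvPolynomial (Fin 3) R) (m : Fin 3 →₀ ℕ) :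
    coeff (m + Finsupp.single i 1) (X i ^ 2 * pderiv i F) = (m i : R) * coeff m F := by
  rw [show X i ^ 2 * pderiv i F = (X i * pderiv i F) * X i by ring, coeff_mul_X, coeff_theta]

lemma coeff_D2_zero (i : Fin 3) (F : MvPolynomial (Fin 3) R) (m : Fin 3 →₀ ℕ) (hm : m i = 0) :
    coeff m (X i ^ 2 * pderiv i F) = 0 := by
  rw [show X i ^ 2 * pderiv i F = (X i * pderiv i F) * X i by ring, coeff_mul_X', if_neg]
  simp [hm]

/-- Euler's identity -/
lemma euler {F : MvPolynomial (Fin 3) R} {e : ℕ} (hF : F.IsHomogeneous e) :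
    X 0 * pderiv 0 F + X 1 * pderiv 1 F + X 2 * pderiv 2 F = (e : MvPolynomial (Fin 3) R) * F := by
  ext m
  rw [coeff_add, coeff_add, coeff_theta, coeff_theta, coeff_theta,
    show ((e : MvPolynomial (Fin 3) R)) = C (e : R) by simp, coeff_C_mul]
  by_cases hm : coeff m F = 0
  · rw [hm]; ring
  · have h1 : m.degree = e := by
      by_contra h
      exact hm (hF.coeff_eq_zero h)
    rw [Finsupp.degree_eq_sum, Fin.sum_univ_three] at h1
    rw [← h1]
    push_cast
    ring

lemma X_dvd_of {i : Fin 3} {p : MvPolynomial (Fin 3) R} (h : ∀ m, m i = 0 → coeff m p = 0) :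
    X i ∣ p := by
  rw [X_dvd_iff_modMonomial_eq_zero]
  ext m
  rw [coeff_zero]
  by_cases hm : Finsupp.single i 1 ≤ m
  · exact coeff_modMonomial_of_le _ hm
  · rw [coeff_modMonomial_of_not_le _ hm]
    apply h
    rw [Finsupp.single_le_iff] at hm
    omega

lemma lin_eq {L : MvPolynomial (Fin 3) R} (hL : L.IsHomogeneous 1) :
    L = ∑ j, C (coeff (Finsupp.single j 1) L) * X j := by
  ext m
  rw [coeff_sum]
  by_cases hm : m.degree = 1
  · obtain ⟨j, hj⟩ : ∃ j, m = Finsupp.single j 1 := by
      rw [Finsupp.degree_eq_sum, Fin.sum_univ_three] at hm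
      rcases (by omega : (m 0 = 1 ∧ m 1 = 0 ∧ m 2 = 0) ∨ (m 0 = 0 ∧ m 1 = 1 ∧ m 2 = 0) ∨
        (m 0 = 0 ∧ m 1 = 0 ∧ m 2 = 1)) with h | h | h
      · refine ⟨0, Finsupp.ext fun j => ?_⟩
        fin_cases j <;> simp [h]
      · refine ⟨1, Finsupp.ext fun j => ?_⟩
        fin_cases j <;> simp [h]
      · refine ⟨2, Finsupp.ext fun j => ?_⟩
        fin_cases j <;> simp [h]
    rw [hj]
    rw [Finset.sum_eq_single j]
    · rw [coeff_C_mul, X, coeff_monomial, if_pos rfl, mul_one]
    · intro i _ hij
      rw [coeff_C_mul, X, coeff_monomial, if_neg, mul_zero]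
      intro h
      exact hij (Finsupp.single_left_injective one_ne_zero h)
    · simp
  · rw [hL.coeff_eq_zero hm]
    symm
    apply Finset.sum_eq_zero
    intro i _
    rw [coeff_C_mul, X, coeff_monomial, if_neg, mul_zero]
    intro h
    apply hm
    rw [← h, Finsupp.degree_single]

/-- coefficients of the product with a linear form -/
lemma coeff_lin_mul {L : MvPolynomial (Fin 3) R} (hL : L.IsHomogeneous 1)
    (F : MvPolynomial (Fin 3) R) (m : Fin 3 →₀ ℕ) :
    coeff m (L * F) = ∑ j, if j ∈ m.support then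
      coeff (Finsupp.single j 1) L * coeff (m - Finsupp.single j 1) F else 0 := by
  conv_lhs => rw [lin_eq hL]
  rw [Finset.sum_mul, coeff_sum]
  refine Finset.sum_congr rfl fun j _ => ?_
  rw [mul_assoc, coeff_C_mul, coeff_X_mul']
  split_ifs <;> simp

end theta

section Tlemma
variable {R : Type} [CommRing R] [IsDomain R] [CharZero R]

/-- leading behaviour in the variable `i` -/
theorem T1 (i : Fin 3) (hi : i ≠ 0) {M N L : MvPolynomial (Fin 3) R} (hL : L.IsHomogeneous 1)
    (hN : ∀ m, coeff m M = 0 → coeff m N = 0)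
    (h : X 0 * N + X i ^ 2 * pderiv i M = L * M) (m : Fin 3 →₀ ℕ) (hm : coeff m M ≠ 0)
    (hmax : ∀ m', coeff m' M ≠ 0 → m' i ≤ m i) : coeff (Finsupp.single i 1) L = (m i : R) := by
  have h1 := congrArg (coeff (m + Finsupp.single i 1)) h
  have hz : ∀ m' : Fin 3 →₀ ℕ, m i < m' i → coeff m' M = 0 := by
    intro m' hm'
    by_contra hne
    have := hmax m' hne
    omega
  rw [coeff_add, coeff_D2_succ, coeff_X_mul', coeff_lin_mul hL] at h1
  have h2 : (if (0 : Fin 3) ∈ (m + Finsupp.single i 1).support then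
      coeff (m + Finsupp.single i 1 - Finsupp.single 0 1) N else 0) = 0 := by
    split_ifs with h3
    · apply hN
      apply hz
      simp [Finsupp.single_apply, Ne.symm hi]
    · rfl
  rw [h2, zero_add] at h1
  rw [Finset.sum_eq_single i] at h1
  · rw [if_pos (by simp), add_tsub_cancel_right] at h1
    exact (mul_right_cancel₀ hm h1).symm
  · intro j _ hj
    split_ifs with h3
    · rw [hz, mul_zero]
      simp [Finsupp.single_apply, hj]
    · rfl
  · simp

/-- behaviour of the part of `w`-degree zero -/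
theorem T2 (i j : Fin 3) (hi : i ≠ 0) (hj : j ≠ 0) (hij : i ≠ j) {M N L : MvPolynomial (Fin 3) R}
    (hL : L.IsHomogeneous 1)
    (h : X 0 * N + X i ^ 2 * pderiv i M = L * M)
    (hex : ∃ m, m 0 = 0 ∧ coeff m M ≠ 0) :
    coeff (Finsupp.single j 1) L = 0 ∧
    ∀ m, m 0 = 0 → coeff m M ≠ 0 → coeff (Finsupp.single i 1) L = (m i : R) := by
  classical
  have huniv : ∀ l : Fin 3, l = 0 ∨ l = i ∨ l = j := by
    intro l
    fin_cases i <;> fin_cases j <;> fin_cases l <;> simp_all
  have hlj : coeff (Finsupp.single j 1) L = 0 := by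
    obtain ⟨m, ⟨hm0, hm⟩, hmin⟩ := WellFounded.has_min (measure (fun m : Fin 3 →₀ ℕ => m i)).wf
      {m : Fin 3 →₀ ℕ | m 0 = 0 ∧ coeff m M ≠ 0} hex
    have hz : ∀ m' : Fin 3 →₀ ℕ, m' 0 = 0 → m' i < m i → coeff m' M = 0 := by
      intro m' h0 hm'
      by_contra hne
      exact hmin m' ⟨h0, hne⟩ hm'
    have h1 := congrArg (coeff (m + Finsupp.single j 1)) h
    rw [coeff_add, coeff_X_mul', coeff_lin_mul hL] at h1
    rw [if_neg (by simp [hm0, Finsupp.single_apply, hj]), zero_add] at h1
    have h2 : coeff (m + Finsupp.single j 1) (X i ^ 2 * pderiv i M) = 0 := by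
      by_cases hmi : m i = 0
      · apply coeff_D2_zero
        simp [hmi, Finsupp.single_apply, hij, Ne.symm hij]
      · have h3 : m + Finsupp.single j 1 = (m + Finsupp.single j 1 - Finsupp.single i 1) +
            Finsupp.single i 1 := by
          ext l
          by_cases hl : l = i
          · subst hl; simp [Finsupp.single_apply, Ne.symm hij]; omega
          · simp [Finsupp.single_apply, Ne.symm hl]
        rw [h3, coeff_D2_succ, hz, mul_zero]
        · simp [hm0, Finsupp.single_apply, hj]
        · simp [Finsupp.single_apply, Ne.symm hij]; omega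
    rw [h2, Finset.sum_eq_single j] at h1
    · rw [if_pos (by simp), add_tsub_cancel_right] at h1
      exact (mul_eq_zero.mp h1.symm).resolve_right hm
    · intro l _ hl
      split_ifs with h3
      · rcases huniv l with h4 | h4 | h4
        · subst h4
          exfalso
          simp [hm0, Finsupp.single_apply, hj] at h3
        · subst h4
          rw [hz, mul_zero]
          · simp [hm0, Finsupp.single_apply, hj]
          · simp [Finsupp.single_apply, Ne.symm hij] at h3 ⊢; omega
        · exact absurd h4 hl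
      · rfl
    · simp
  refine ⟨hlj, ?_⟩
  intro m hm0 hm
  have h1 := congrArg (coeff (m + Finsupp.single i 1)) h
  rw [coeff_add, coeff_X_mul', coeff_D2_succ, coeff_lin_mul hL] at h1
  rw [if_neg (by simp [hm0, Finsupp.single_apply, hi]), zero_add] at h1
  rw [Finset.sum_eq_single i] at h1
  · rw [if_pos (by simp), add_tsub_cancel_right] at h1
    exact (mul_right_cancel₀ hm h1).symm
  · intro l _ hl
    rcases huniv l with h4 | h4 | h4
    · subst h4
      rw [if_neg (by simp [hm0, Finsupp.single_apply, hi])]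
    · exact absurd h4 hl
    · subst h4
      rw [hlj]; simp
  · simp

/-- a form which divides both its derivatives -/
theorem T3 {M N₁ N₂ L₁ L₂ : MvPolynomial (Fin 3) R} {e : ℕ} (hM : M.IsHomogeneous e)
    (hL₁ : L₁.IsHomogeneous 1) (hL₂ : L₂.IsHomogeneous 1)
    (hN₁ : ∀ m, coeff m M = 0 → coeff m N₁ = 0) (hN₂ : ∀ m, coeff m M = 0 → coeff m N₂ = 0)
    (h₁ : X 0 * N₁ + X 1 ^ 2 * pderiv 1 M = L₁ * M)
    (h₂ : X 0 * N₂ + X 2 ^ 2 * pderiv 2 M = L₂ * M) (hX : ¬ X 0 ∣ M) :
    ∃ c d : ℕ, c + d = e ∧ (∀ m, coeff m M ≠ 0 → m 1 ≤ c ∧ m 2 ≤ d) ∧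
      ∀ m, m 0 = 0 → coeff m M ≠ 0 → m 1 = c ∧ m 2 = d := by
  classical
  have hex : ∃ m, m 0 = 0 ∧ coeff m M ≠ 0 := by
    by_contra hne
    push Not at hne
    exact hX (X_dvd_of fun m hm => hne m hm)
  have hex2 := hex
  obtain ⟨m0, hm0, hm0'⟩ := hex2
  have hsupp : M.support.Nonempty := ⟨m0, mem_support_iff.mpr hm0'⟩
  obtain ⟨a1, ha1, hmax1⟩ := Finset.exists_max_image M.support (fun m => m 1) hsupp
  obtain ⟨a2, ha2, hmax2⟩ := Finset.exists_max_image M.support (fun m => m 2) hsupp
  have k1 := T1 1 (by decide) hL₁ hN₁ h₁ a1 (mem_support_iff.mp ha1)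
    (fun m' hm' => hmax1 m' (mem_support_iff.mpr hm'))
  have k2 := T1 2 (by decide) hL₂ hN₂ h₂ a2 (mem_support_iff.mp ha2)
    (fun m' hm' => hmax2 m' (mem_support_iff.mpr hm'))
  have j1 := (T2 1 2 (by decide) (by decide) (by decide) hL₁ h₁ hex).2
  have j2 := (T2 2 1 (by decide) (by decide) (by decide) hL₂ h₂ hex).2
  have key : ∀ m, m 0 = 0 → coeff m M ≠ 0 → m 1 = a1 1 ∧ m 2 = a2 2 := by
    intro m hm hm'
    have e1 := j1 m hm hm'
    have e2 := j2 m hm hm'
    rw [k1] at e1
    rw [k2] at e2
    exact ⟨by exact_mod_cast e1.symm, by exact_mod_cast e2.symm⟩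
  refine ⟨a1 1, a2 2, ?_, ?_, key⟩
  · have h1 := key m0 hm0 hm0'
    have h2 : m0.degree = e := by
      by_contra h
      exact hm0' (hM.coeff_eq_zero h)
    rw [Finsupp.degree_eq_sum, Fin.sum_univ_three] at h2
    omega
  · intro m hm
    exact ⟨hmax1 m (mem_support_iff.mpr hm), hmax2 m (mem_support_iff.mpr hm)⟩

end Tlemma

end Pool.Agent.H371R3.GQ
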