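import Pool.Agent.H371R3.GQ.B1

set_option autoImplicit false
set_option linter.unusedSectionVars false
set_option linter.unusedSimpArgs false
open MvPolynomial

namespace Pool.Agent.H371R3.GQ

/-- polynomials in the coordinates `p, q` of the centre of projection -/
abbrev Bx := MvPolynomial (Fin 2) ℂ
/-- forms in the plane with coefficients in `Bx` -/
abbrev Ax := MvPolynomial (Fin 3) Bx
/-- the field `ℂ(p, q)` -/
abbrev Kx := FractionRing Bx

/-- the projection of the point `z` of the quadric -/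
noncomputable def wk (z : Fin 2 → ℂ) : Fin 3 → Bx :=
  ![(C (z 0) - X 0) * (C (z 1) - X 1), C (z 1) - X 1, C (z 0) - X 0]

/-- coefficientwise derivative -/
noncomputable def cf (σ : Fin 2) (F : Ax) : Ax :=
  ∑ m ∈ F.support, monomial m (pderiv σ (coeff m F))

lemma coeff_cf (σ : Fin 2) (F : Ax) (m : Fin 3 →₀ ℕ) :
    coeff m (cf σ F) = pderiv σ (coeff m F) := by
  classical
  rw [cf, coeff_sum]
  simp only [coeff_monomial]
  rw [Finset.sum_ite_eq']
  split_ifs with h
  · rfl
  · rw [notMem_support_iff.mp h, map_zero]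

lemma cf_add (σ : Fin 2) (F G : Ax) : cf σ (F + G) = cf σ F + cf σ G := by
  ext1 m
  rw [coeff_add, coeff_cf, coeff_cf, coeff_cf, coeff_add, map_add]

lemma cf_C (σ : Fin 2) (b : Bx) : cf σ (C b) = C (pderiv σ b) := by
  classical
  ext1 m
  rw [coeff_cf, coeff_C, coeff_C]
  split_ifs
  · rfl
  · rw [map_zero]

lemma cf_mul_X (σ : Fin 2) (F : Ax) (i : Fin 3) : cf σ (F * X i) = cf σ F * X i := by
  classical
  ext1 m
  rw [coeff_cf, coeff_mul_X', coeff_mul_X', coeff_cf]
  split_ifs
  · rfl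
  · rw [map_zero]

lemma cf_hom (σ : Fin 2) {F : Ax} {e : ℕ} (hF : F.IsHomogeneous e) :
    (cf σ F).IsHomogeneous e := by
  intro m hm
  apply hF
  intro h
  apply hm
  rw [coeff_cf, h, map_zero]

/-- the derivation -/
noncomputable def Dx (σ : Fin 2) (F : Ax) : Ax :=
  X 0 * cf σ F + X σ.succ ^ 2 * pderiv σ.succ F

lemma Dx_hom (σ : Fin 2) {F : Ax} {e : ℕ} (hF : F.IsHomogeneous e) :
    (Dx σ F).IsHomogeneous (e + 1) := by
  have h1 : (X 0 * cf σ F).IsHomogeneous (1 + e) := (isHomogeneous_X Bx 0).mul (cf_hom σ hF)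
  have h2 : (X σ.succ ^ 2 * pderiv σ.succ F).IsHomogeneous (e + 1) := by
    intro m hm
    have h3 : ∃ m', m = m' + Finsupp.single σ.succ 1 := by
      by_cases h4 : m σ.succ = 0
      · exact absurd (coeff_D2_zero _ _ _ h4) hm
      · exact ⟨m - Finsupp.single σ.succ 1, by
          ext j
          by_cases hj : j = σ.succ
          · subst hj; simp; omega
          · simp [Finsupp.single_apply, Ne.symm hj]⟩
    obtain ⟨m', rfl⟩ := h3
    rw [coeff_D2_succ] at hm
    have h5 : coeff m' F ≠ 0 := right_ne_zero_of_mul hm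
    have h6 := hF h5
    rw [map_add, h6]
    simp [Finsupp.weight, Finsupp.linearCombination_single]
  rw [add_comm] at h1
  exact h1.add h2

lemma wk_deriv_other (z : Fin 2 → ℂ) (σ τ : Fin 2) (h : σ ≠ τ) :
    pderiv σ (wk z σ.succ) = 0 ∧ pderiv σ (wk z τ.succ) = -1 ∧
      pderiv σ (wk z 0) = - wk z σ.succ ∧ wk z 0 = wk z σ.succ * wk z τ.succ := by
  have h01 : (pderiv (0 : Fin 2)) (X 1 : Bx) = 0 := pderiv_X_of_ne (by decide)
  have h10 : (pderiv (1 : Fin 2)) (X 0 : Bx) = 0 := pderiv_X_of_ne (by decide)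
  fin_cases σ <;> fin_cases τ
  · exact absurd rfl h
  · refine ⟨?_, ?_, ?_, ?_⟩
    · change pderiv 0 (C (z 1) - X 1 : Bx) = 0
      rw [map_sub, pderiv_C, h01, sub_zero]
    · change pderiv 0 (C (z 0) - X 0 : Bx) = -1
      rw [map_sub, pderiv_C, pderiv_X_self, zero_sub]
    · change pderiv 0 ((C (z 0) - X 0) * (C (z 1) - X 1) : Bx) = - (C (z 1) - X 1)
      rw [Derivation.leibniz, map_sub, map_sub, pderiv_C, pderiv_C, h01, pderiv_X_self]
      simp only [smul_eq_mul]; ring
    · change ((C (z 0) - X 0) * (C (z 1) - X 1) : Bx) = (C (z 1) - X 1) * (C (z 0) - X 0)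
      ring
  · refine ⟨?_, ?_, ?_, ?_⟩
    · change pderiv 1 (C (z 0) - X 0 : Bx) = 0
      rw [map_sub, pderiv_C, h10, sub_zero]
    · change pderiv 1 (C (z 1) - X 1 : Bx) = -1
      rw [map_sub, pderiv_C, pderiv_X_self, zero_sub]
    · change pderiv 1 ((C (z 0) - X 0) * (C (z 1) - X 1) : Bx) = - (C (z 0) - X 0)
      rw [Derivation.leibniz, map_sub, map_sub, pderiv_C, pderiv_C, h10, pderiv_X_self]
      simp only [smul_eq_mul]; ring
    · change ((C (z 0) - X 0) * (C (z 1) - X 1) : Bx) = (C (z 0) - X 0) * (C (z 1) - X 1)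
      ring
  · exact absurd rfl h

lemma chain (z : Fin 2 → ℂ) (σ : Fin 2) (F : Ax) :
    pderiv σ (eval (wk z) F) = eval (wk z) (cf σ F) +
      ∑ i, eval (wk z) (pderiv i F) * pderiv σ (wk z i) := by
  induction F using MvPolynomial.induction_on with
  | C b =>
    simp [cf_C]
  | add p q hp hq =>
    simp only [map_add, cf_add, hp, hq, add_mul, Finset.sum_add_distrib]
    ring
  | mul_X p j hp =>
    rw [map_mul, eval_X, Derivation.leibniz, hp, cf_mul_X, map_mul, eval_X]
    simp only [smul_eq_mul, Derivation.leibniz, map_add, map_mul, eval_X, add_mul,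
      Finset.sum_add_distrib]
    have h1 : ∑ i, eval (wk z) p * eval (wk z) (pderiv i (X j)) * pderiv σ (wk z i) =
        eval (wk z) p * pderiv σ (wk z j) := by
      rw [Finset.sum_eq_single j]
      · rw [pderiv_X_self, map_one, mul_one]
      · intro i _ hij
        rw [pderiv_X_of_ne (Ne.symm hij), map_zero, mul_zero, zero_mul]
      · simp
    rw [h1, mul_add, Finset.mul_sum]
    have h2 : ∀ i, wk z j * (eval (wk z) (pderiv i p) * pderiv σ (wk z i)) =
        wk z j * eval (wk z) (pderiv i p) * pderiv σ (wk z i) := fun i => by ring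
    simp only [h2]
    ring

/-- the derivation preserves vanishing -/
theorem Dx_van (z : Fin 2 → ℂ) (σ : Fin 2) {F : Ax} {e : ℕ} (hF : F.IsHomogeneous e)
    (h : eval (wk z) F = 0) : eval (wk z) (Dx σ F) = 0 := by
  obtain ⟨τ, hτ⟩ : ∃ τ : Fin 2, σ ≠ τ := by fin_cases σ; exacts [⟨1, by decide⟩, ⟨0, by decide⟩]
  obtain ⟨h1, h2, h3, h4⟩ := wk_deriv_other z σ τ hτ
  have hc := chain z σ F
  have he := congrArg (eval (wk z)) (euler hF)
  rw [h, map_zero] at hc
  rw [map_mul, h, mul_zero] at he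
  simp only [map_add, map_mul, eval_X] at he
  have hsum : ∀ f : Fin 3 → Bx, ∑ i, f i = f 0 + f σ.succ + f τ.succ := by
    intro f
    rw [Fin.sum_univ_three]
    fin_cases σ <;> fin_cases τ
    · exact absurd rfl hτ
    · rfl
    · change f 0 + f 1 + f 2 = f 0 + f 2 + f 1
      ring
    · exact absurd rfl hτ
  have he2 : wk z 0 * eval (wk z) (pderiv 0 F) + wk z σ.succ * eval (wk z) (pderiv σ.succ F) +
      wk z τ.succ * eval (wk z) (pderiv τ.succ F) = 0 := by
    have := hsum (fun i => wk z i * eval (wk z) (pderiv i F))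
    rw [Fin.sum_univ_three] at this
    rw [← this]
    exact he
  rw [hsum, h1, h2, h3] at hc
  rw [Dx, map_add, map_mul, map_mul, map_pow, eval_X, eval_X]
  linear_combination (-wk z 0) * hc + wk z σ.succ * he2 +
    (eval (wk z) (pderiv τ.succ F)) * h4

end Pool.Agent.H371R3.GQ
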