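import Pool.Agent.H371R3.GQ.B2

set_option autoImplicit false
set_option linter.unusedSectionVars false
set_option linter.unusedSimpArgs false
open MvPolynomial

namespace Pool.Agent.H371R3.GQ

noncomputable def ph : Ax →+* MvPolynomial (Fin 3) Kx := MvPolynomial.map (algebraMap Bx Kx)

lemma alg_inj : Function.Injective (algebraMap Bx Kx) := IsFractionRing.injective Bx Kx

lemma ph_inj : Function.Injective ph := map_injective _ alg_inj

lemma ph_C (b : Bx) : ph (C b) = C (algebraMap Bx Kx b) := map_C _ _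

lemma ph_X (i : Fin 3) : ph (X i) = X i := map_X _ _

lemma coeff_ph (m : Fin 3 →₀ ℕ) (F : Ax) : coeff m (ph F) = algebraMap Bx Kx (coeff m F) :=
  coeff_map _ _ _

lemma ph_hom {F : Ax} {e : ℕ} (hF : F.IsHomogeneous e) : (ph F).IsHomogeneous e := hF.map _

lemma hom_of_ph {F : Ax} {e : ℕ} (hF : (ph F).IsHomogeneous e) : F.IsHomogeneous e :=
  IsHomogeneous.of_map alg_inj hF

/-- the projected point over the field `ℂ(p, q)` -/
noncomputable def wK (z : Fin 2 → ℂ) : Fin 3 → Kx := fun i => algebraMap Bx Kx (wk z i)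

lemma eval_ph (z : Fin 2 → ℂ) (F : Ax) :
    eval (wK z) (ph F) = algebraMap Bx Kx (eval (wk z) F) := by
  have h : (eval (wK z)).comp ph = (algebraMap Bx Kx).comp (eval (wk z)) := by
    apply MvPolynomial.ringHom_ext
    · intro b
      simp [ph_C]
    · intro i
      simp [ph_X, wK]
  exact RingHom.congr_fun h F

lemma sub_X_ne (c : ℂ) (i : Fin 2) : (C c - X i : Bx) ≠ 0 := by
  intro h
  have := congrArg (coeff (Finsupp.single i 1)) h
  rw [coeff_sub, coeff_X, coeff_C, if_neg, coeff_zero] at this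
  · simp at this
  · intro h2
    have := congrArg (fun f => f i) h2
    simp at this

lemma wk_ne (z : Fin 2 → ℂ) (i : Fin 3) : wk z i ≠ 0 := by
  fin_cases i
  · exact mul_ne_zero (sub_X_ne _ _) (sub_X_ne _ _)
  · exact sub_X_ne _ _
  · exact sub_X_ne _ _

lemma wK_ne (z : Fin 2 → ℂ) (i : Fin 3) : wK z i ≠ 0 := by
  intro h
  apply wk_ne z i
  apply alg_inj
  rw [map_zero]; exact h

lemma wK_indep (z z' : Fin 2 → ℂ) (h : z ≠ z') : LinearIndependent Kx ![wK z, wK z'] := by
  rw [LinearIndependent.pair_iff]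
  intro s t hst
  have h1 := congrFun hst 1
  have h2 := congrFun hst 2
  simp only [Pi.add_apply, Pi.smul_apply, smul_eq_mul, Pi.zero_apply] at h1 h2
  have hdet : wk z 1 * wk z' 2 - wk z' 1 * wk z 2 ≠ 0 := by
    intro hd
    apply h
    change (C (z 1) - X 1 : Bx) * (C (z' 0) - X 0) - (C (z' 1) - X 1) * (C (z 0) - X 0) = 0 at hd
    have k1 : ∀ p q : ℂ, (z 1 - q) * (z' 0 - p) - (z' 1 - q) * (z 0 - p) = 0 := by
      intro p q
      have := congrArg (eval ![p, q]) hd
      simpa using this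
    have e1 := k1 0 0
    have e2 := k1 1 0
    have e3 := k1 0 1
    funext i
    fin_cases i
    · change z 0 = z' 0
      linear_combination e3 - e1
    · change z 1 = z' 1
      linear_combination e1 - e2
  have hd2 : algebraMap Bx Kx (wk z 1 * wk z' 2 - wk z' 1 * wk z 2) ≠ 0 := by
    intro h0
    exact hdet (alg_inj (by rw [h0, map_zero]))
  rw [map_sub, map_mul, map_mul] at hd2
  have hs : s = 0 := by
    have : s * (wK z 1 * wK z' 2 - wK z' 1 * wK z 2) = 0 := by
      linear_combination (wK z' 2) * h1 - (wK z' 1) * h2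
    exact (mul_eq_zero.mp this).resolve_right hd2
  rw [hs, zero_mul, zero_add] at h1
  exact ⟨hs, (mul_eq_zero.mp h1).resolve_right (wK_ne _ _)⟩

/-- clearing denominators -/
theorem clear (δ : MvPolynomial (Fin 3) Kx) :
    ∃ (s : Bx) (δ' : Ax), s ≠ 0 ∧ ph δ' = C (algebraMap Bx Kx s) * δ := by
  induction δ using MvPolynomial.induction_on with
  | C a =>
    obtain ⟨n, d, hd, hnd⟩ := IsFractionRing.div_surjective (A := Bx) a
    refine ⟨d, C n, nonZeroDivisors.ne_zero hd, ?_⟩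
    rw [ph_C, ← hnd, ← C_mul]
    congr 1
    have : algebraMap Bx Kx d ≠ 0 := by
      intro h0
      exact nonZeroDivisors.ne_zero hd (alg_inj (by rw [h0, map_zero]))
    field_simp
  | add p q hp hq =>
    obtain ⟨s, p', hs, hp'⟩ := hp
    obtain ⟨t, q', ht, hq'⟩ := hq
    refine ⟨s * t, C t * p' + C s * q', mul_ne_zero hs ht, ?_⟩
    rw [map_add, map_mul, map_mul, hp', hq', ph_C, ph_C, map_mul, C_mul]
    ring
  | mul_X p i hp =>
    obtain ⟨s, p', hs, hp'⟩ := hp
    refine ⟨s, p' * X i, hs, ?_⟩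
    rw [map_mul, hp', ph_X, mul_assoc]

lemma const_of_dvd_C {π : Ax} {b : Bx} (hb : b ≠ 0) (h : π ∣ C b) : ∃ c, π = C c := by
  obtain ⟨x, hx⟩ := h
  have hx0 : π * x ≠ 0 := by
    rw [← hx]
    simpa using hb
  have h1 := congrArg totalDegree hx
  rw [totalDegree_C, totalDegree_mul_of_isDomain (left_ne_zero_of_mul hx0)
    (right_ne_zero_of_mul hx0)] at h1
  have h2 : π.totalDegree = 0 := by omega
  exact ⟨_, totalDegree_eq_zero_iff_eq_C.mp h2⟩

lemma const_of_primes (δ : Ax) (h0 : δ ≠ 0) (h : ∀ π, Prime π → π ∣ δ → ∃ c, π = C c) :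
    ∃ c, δ = C c := by
  induction δ using UniqueFactorizationMonoid.induction_on_prime with
  | h₁ => exact absurd rfl h0
  | h₂ x hx =>
    have := hx.dvd (a := (1 : Ax))
    exact const_of_dvd_C (b := 1) one_ne_zero (by rw [C_1]; exact this)
  | h₃ x π hx hπ ih =>
    obtain ⟨c, hc⟩ := ih hx (fun π' h1 h2 => h π' h1 (Dvd.dvd.mul_left h2 π))
    obtain ⟨d, hd⟩ := h π hπ (dvd_mul_right π x)
    exact ⟨d * c, by rw [hc, hd, C_mul]⟩

/-- coprime forms stay coprime over the fraction field -/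
theorem relPrime_ph {F G : Ax} (hF : F ≠ 0) (hG : G ≠ 0) (h : IsRelPrime F G) :
    IsRelPrime (ph F) (ph G) := by
  intro δ hδF hδG
  have hF' : ph F ≠ 0 := fun h0 => hF (ph_inj (by rw [h0, map_zero]))
  have hδ0 : δ ≠ 0 := by
    rintro rfl
    exact hF' (zero_dvd_iff.mp hδF)
  obtain ⟨s, δ', hs, hδ'⟩ := clear δ
  have hs' : (C (algebraMap Bx Kx s) : MvPolynomial (Fin 3) Kx) ≠ 0 := by
    intro h0
    exact hs (alg_inj (by rw [map_zero]; exact C_eq_zero.mp h0))
  have hδ'0 : δ' ≠ 0 := by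
    rintro rfl
    rw [map_zero] at hδ'
    exact mul_ne_zero hs' hδ0 hδ'.symm
  have key : ∀ H : Ax, H ≠ 0 → δ ∣ ph H → ∀ π, Prime π → π ∣ δ' → (¬ ∃ c, π = C c) → π ∣ H := by
    intro H hH hd π hπ hπδ hnc
    obtain ⟨x, hx⟩ := hd
    obtain ⟨t, x', ht, hx'⟩ := clear x
    have h1 : C (s * t) * H = δ' * x' := by
      apply ph_inj
      rw [map_mul ph (C (s * t)) H, map_mul ph δ' x', hδ', hx', hx, ph_C,
        map_mul (algebraMap Bx Kx) s t, C_mul]
      ring
    have h2 : π ∣ C (s * t) * H := by rw [h1]; exact Dvd.dvd.mul_right hπδ _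
    rcases hπ.dvd_or_dvd h2 with h3 | h3
    · exact absurd (const_of_dvd_C (mul_ne_zero hs ht) h3) hnc
    · exact h3
  obtain ⟨c, hc⟩ := const_of_primes δ' hδ'0 (by
    intro π hπ hπδ
    by_contra hnc
    have := h (key F hF hδF π hπ hπδ hnc) (key G hG hδG π hπ hπδ hnc)
    exact hπ.not_isUnit this)
  have hc0 : c ≠ 0 := by
    rintro rfl
    exact hδ'0 (by rw [hc, C_0])
  have hu : IsUnit (ph δ') := by
    rw [hc, ph_C]
    apply IsUnit.map
    rw [isUnit_iff_ne_zero]
    intro h0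
    exact hc0 (alg_inj (by rw [h0, map_zero]))
  rw [hδ'] at hu
  exact isUnit_of_mul_isUnit_right hu

/-- Bezout for the projected points -/
theorem bezout_A {ι : Type} [Fintype ι] (z : ι → Fin 2 → ℂ) (hz : Function.Injective z)
    {F G : Ax} {m n : ℕ} (hF : F.IsHomogeneous m) (hG : G.IsHomogeneous n) (hF0 : F ≠ 0)
    (hG0 : G ≠ 0) (hcop : IsRelPrime F G)
    (hFv : ∀ i, eval (wk (z i)) F = 0) (hGv : ∀ i, eval (wk (z i)) G = 0) :
    Fintype.card ι ≤ m * n := by
  apply bezout (fun i => wK (z i)) (fun i j hij => wK_indep _ _ (fun h => hij (hz h)))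
    (fun i h => wK_ne (z i) 0 (by rw [h]; rfl)) (ph_hom hF) (ph_hom hG)
    (fun h0 => hG0 (ph_inj (by rw [h0, map_zero]))) (relPrime_ph hF0 hG0 hcop)
  · intro i; rw [eval_ph, hFv, map_zero]
  · intro i; rw [eval_ph, hGv, map_zero]

end Pool.Agent.H371R3.GQ
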