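import Pool.Agent.H371R3.GQ.B3

set_option autoImplicit false
set_option linter.unusedSectionVars false
set_option linter.unusedSimpArgs false
open MvPolynomial

namespace Pool.Agent.H371R3.GQ

open Classical in
/-- number of indices with a property -/
noncomputable def cnt {ι : Type} [Fintype ι] (p : ι → Prop) : ℕ := (Finset.univ.filter p).card

lemma cnt_mono {ι : Type} [Fintype ι] {p q : ι → Prop} (h : ∀ k, p k → q k) : cnt p ≤ cnt q := by
  classical
  unfold cnt
  exact Finset.card_le_card (Finset.monotone_filter_right _ (fun k _ hk => h k hk))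

lemma cnt_or {ι : Type} [Fintype ι] {p q r : ι → Prop} (h : ∀ k, p k → q k ∨ r k) :
    cnt p ≤ cnt q + cnt r := by
  classical
  unfold cnt
  refine (Finset.card_le_card ?_).trans (Finset.card_union_le _ _)
  intro k hk
  simp only [Finset.mem_filter, Finset.mem_univ, true_and, Finset.mem_union] at hk ⊢
  exact h k hk

lemma cnt_zero {ι : Type} [Fintype ι] {p : ι → Prop} (h : ∀ k, ¬ p k) : cnt p = 0 := by
  classical
  unfold cnt
  rw [Finset.card_eq_zero, Finset.filter_eq_empty_iff]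
  intro k _
  exact h k

lemma cnt_all {ι : Type} [Fintype ι] {p : ι → Prop} (h : ∀ k, p k) : cnt p = Fintype.card ι := by
  classical
  unfold cnt
  rw [Finset.filter_true_of_mem (fun k _ => h k), Finset.card_univ]

lemma cnt_sub {ι : Type} [Fintype ι] {p : ι → Prop} [Fintype {k // p k}] :
    Fintype.card {k // p k} = cnt p := by
  classical
  unfold cnt
  rw [← Fintype.card_subtype]

/-- Bezout bound against curves on the quadric -/
def BB {ι : Type} [Fintype ι] (z : ι → Fin 2 → ℂ) (b : ℕ) : Prop :=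
  ∀ Φ : Bx, Φ ≠ 0 → ∀ c d : ℕ, degreeOf 0 Φ ≤ c → degreeOf 1 Φ ≤ d →
    cnt (fun k => eval (z k) Φ = 0) ≤ b * (c + d)

theorem exists_eval_ne {n : ℕ} (f : MvPolynomial (Fin n) ℂ) (hf : f ≠ 0) :
    ∃ P : Fin n → ℂ, eval P f ≠ 0 := by
  by_contra h
  push Not at h
  exact hf (MvPolynomial.funext (fun P => by rw [h P, map_zero]))

theorem spec {ι : Type} [Fintype ι] (z : ι → Fin 2 → ℂ) {M : Ax} {c d e : ℕ}
    (hM : M.IsHomogeneous e) (hM0 : M ≠ 0) (hcd : c + d = e)
    (hsupp : ∀ m, coeff m M ≠ 0 → m 1 ≤ c ∧ m 2 ≤ d) :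
    ∃ Φ : Bx, Φ ≠ 0 ∧ degreeOf 0 Φ ≤ c ∧ degreeOf 1 Φ ≤ d ∧
      ∀ k, eval (wk (z k)) M = 0 → eval (z k) Φ = 0 := by
  classical
  obtain ⟨m0, hm0⟩ := ne_zero_iff.mp hM0
  have hprod : (coeff m0 M) * ∏ k, wk (z k) 0 ≠ 0 :=
    mul_ne_zero hm0 (Finset.prod_ne_zero_iff.mpr fun k _ => wk_ne _ _)
  obtain ⟨P, hP⟩ := exists_eval_ne _ hprod
  rw [map_mul, map_prod] at hP
  have hP1 : eval P (coeff m0 M) ≠ 0 := left_ne_zero_of_mul hP
  have hP2 : ∀ k, eval P (wk (z k) 0) ≠ 0 := fun k =>
    Finset.prod_ne_zero_iff.mp (right_ne_zero_of_mul hP) k (Finset.mem_univ k)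
  have hdeg : ∀ m, coeff m M ≠ 0 → m 0 + m 1 + m 2 = e := by
    intro m hm
    have h1 : m.degree = e := by
      by_contra h
      exact hm (hM.coeff_eq_zero h)
    rw [Finsupp.degree_eq_sum, Fin.sum_univ_three] at h1
    exact h1
  set Φ : Bx := ∑ m ∈ M.support, C (eval P (coeff m M)) *
    ((X 0 - C (P 0)) ^ (c - m 1) * (X 1 - C (P 1)) ^ (d - m 2)) with hΦ
  refine ⟨Φ, ?_, ?_, ?_, ?_⟩
  · intro h0
    have h1 : aeval (fun i => (X i + C (P i) : Bx)) Φ = 0 := by rw [h0, map_zero]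
    have h2 : aeval (fun i => (X i + C (P i) : Bx)) Φ = ∑ m ∈ M.support,
        monomial (Finsupp.single 0 (c - m 1) + Finsupp.single 1 (d - m 2))
          (eval P (coeff m M)) := by
      rw [hΦ, map_sum]
      refine Finset.sum_congr rfl fun m _ => ?_
      rw [map_mul, map_mul, map_pow, map_pow, map_sub, map_sub, aeval_X, aeval_X]
      have hC : ∀ r : ℂ, aeval (fun i => (X i + C (P i) : Bx)) (C r : Bx) = C r := by
        intro r; rw [aeval_C]; rfl
      rw [hC, hC, hC, add_sub_cancel_right, add_sub_cancel_right, monomial_eq]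
      congr 1
      rw [Finsupp.prod_fintype _ _ (fun i => pow_zero _), Fin.prod_univ_two]
      simp
    rw [h2] at h1
    have h3 := congrArg (coeff (Finsupp.single 0 (c - m0 1) + Finsupp.single 1 (d - m0 2))) h1
    rw [coeff_sum, coeff_zero, Finset.sum_eq_single m0] at h3
    · rw [coeff_monomial, if_pos rfl] at h3
      exact hP1 h3
    · intro m hm hmm
      rw [coeff_monomial, if_neg]
      intro heq
      apply hmm
      have e0 := congrArg (fun f => f 0) heq
      have e1 := congrArg (fun f => f 1) heq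
      simp at e0 e1
      have k1 := hsupp m (mem_support_iff.mp hm)
      have k2 := hsupp m0 hm0
      have k3 := hdeg m (mem_support_iff.mp hm)
      have k4 := hdeg m0 hm0
      ext i
      fin_cases i
      · change m 0 = m0 0
        omega
      · change m 1 = m0 1
        omega
      · change m 2 = m0 2
        omega
    · intro h
      exact absurd (mem_support_iff.mpr hm0) h
  · refine (degreeOf_sum_le _ _ _).trans (Finset.sup_le fun m _ => ?_)
    refine (degreeOf_mul_le _ _ _).trans ?_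
    rw [degreeOf_C, zero_add]
    refine (degreeOf_mul_le _ _ _).trans ?_
    have h1 : degreeOf 0 (((X 0 - C (P 0) : Bx)) ^ (c - m 1)) ≤ c - m 1 := by
      refine (degreeOf_pow_le _ _ _).trans ?_
      have : degreeOf 0 (X 0 - C (P 0) : Bx) ≤ 1 := by
        refine (degreeOf_sub_le _ _ _).trans ?_
        rw [degreeOf_C, degreeOf_X]; simp
      calc _ ≤ (c - m 1) * 1 := Nat.mul_le_mul le_rfl this
        _ = _ := mul_one _
    have h2 : degreeOf 0 (((X 1 - C (P 1) : Bx)) ^ (d - m 2)) = 0 := by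
      have h3 : degreeOf 0 (((X 1 - C (P 1) : Bx)) ^ (d - m 2)) ≤ 0 := by
        refine (degreeOf_pow_le _ _ _).trans ?_
        have : degreeOf 0 (X 1 - C (P 1) : Bx) ≤ 0 := by
          refine (degreeOf_sub_le _ _ _).trans ?_
          rw [degreeOf_C, degreeOf_X]; simp
        calc _ ≤ (d - m 2) * 0 := Nat.mul_le_mul le_rfl this
          _ = _ := mul_zero _
      omega
    omega
  · refine (degreeOf_sum_le _ _ _).trans (Finset.sup_le fun m _ => ?_)
    refine (degreeOf_mul_le _ _ _).trans ?_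
    rw [degreeOf_C, zero_add]
    refine (degreeOf_mul_le _ _ _).trans ?_
    have h1 : degreeOf 1 (((X 1 - C (P 1) : Bx)) ^ (d - m 2)) ≤ d - m 2 := by
      refine (degreeOf_pow_le _ _ _).trans ?_
      have : degreeOf 1 (X 1 - C (P 1) : Bx) ≤ 1 := by
        refine (degreeOf_sub_le _ _ _).trans ?_
        rw [degreeOf_C, degreeOf_X]; simp
      calc _ ≤ (d - m 2) * 1 := Nat.mul_le_mul le_rfl this
        _ = _ := mul_one _
    have h2 : degreeOf 1 (((X 0 - C (P 0) : Bx)) ^ (c - m 1)) = 0 := by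
      have h3 : degreeOf 1 (((X 0 - C (P 0) : Bx)) ^ (c - m 1)) ≤ 0 := by
        refine (degreeOf_pow_le _ _ _).trans ?_
        have : degreeOf 1 (X 0 - C (P 0) : Bx) ≤ 0 := by
          refine (degreeOf_sub_le _ _ _).trans ?_
          rw [degreeOf_C, degreeOf_X]; simp
        calc _ ≤ (c - m 1) * 0 := Nat.mul_le_mul le_rfl this
          _ = _ := mul_zero _
      omega
    omega
  · intro k hk
    set s := z k 0 - P 0 with hs
    set t := z k 1 - P 1 with ht
    have hw0 : eval P (wk (z k) 0) = s * t := by simp [wk, hs, ht]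
    have hw1 : eval P (wk (z k) 1) = t := by simp [wk, ht]
    have hw2 : eval P (wk (z k) 2) = s := by simp [wk, hs]
    have hst := hP2 k
    rw [hw0] at hst
    have h1 : eval P (eval (wk (z k)) M) = 0 := by rw [hk, map_zero]
    rw [eval_eq' (wk (z k)) M, map_sum] at h1
    have h2 : s ^ d * t ^ c * eval (z k) Φ = 0 := by
      rw [← h1, hΦ, map_sum, Finset.mul_sum]
      refine Finset.sum_congr rfl fun m hm => ?_
      simp only [map_mul, map_prod, Fin.prod_univ_three, map_pow, map_sub, eval_X, eval_C,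
        hw0, hw1, hw2, ← hs, ← ht]
      have k1 := hsupp m (mem_support_iff.mp hm)
      have k2 := hdeg m (mem_support_iff.mp hm)
      have e1 : s ^ d * s ^ (c - m 1) = s ^ (m 0) * s ^ (m 2) := by
        rw [← pow_add, ← pow_add]; congr 1; omega
      have e2 : t ^ c * t ^ (d - m 2) = t ^ (m 0) * t ^ (m 1) := by
        rw [← pow_add, ← pow_add]; congr 1; omega
      rw [mul_pow]
      calc _ = eval P (coeff m M) * ((s ^ d * s ^ (c - m 1)) * (t ^ c * t ^ (d - m 2))) := by ring
        _ = _ := by rw [e1, e2]; ring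
    have h3 : s ^ d * t ^ c ≠ 0 :=
      mul_ne_zero (pow_ne_zero _ (left_ne_zero_of_mul hst)) (pow_ne_zero _ (right_ne_zero_of_mul hst))
    exact (mul_eq_zero.mp h2).resolve_left h3

lemma cnt_unit {ι : Type} [Fintype ι] (z : ι → Fin 2 → ℂ) {F : Ax} (hF : F.IsHomogeneous 0)
    (hF0 : F ≠ 0) : cnt (fun k => eval (wk (z k)) F = 0) = 0 := by
  apply cnt_zero
  intro k hk
  obtain ⟨c, hc⟩ : ∃ c, F = C c :=
    ⟨_, totalDegree_eq_zero_iff_eq_C.mp (hF.totalDegree hF0)⟩
  rw [hc, eval_C] at hk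
  exact hF0 (by rw [hc, hk, C_0])

/-- the bound for prime forms -/
theorem bound_prime {ι : Type} [Fintype ι] (z : ι → Fin 2 → ℂ) (hz : Function.Injective z) {b : ℕ}
    (hB : BB z b) {M : Ax} (hM : Prime M) {e : ℕ} (hMh : M.IsHomogeneous e) (he : e + 1 ≤ b) :
    cnt (fun k => eval (wk (z k)) M = 0) ≤ b * e := by
  classical
  have hM0 := hM.ne_zero
  by_cases hX : X 0 ∣ M
  · rw [cnt_zero]
    · exact Nat.zero_le _
    · intro k hk
      obtain ⟨x, hx⟩ := hX
      have h1 := hM.irreducible.isUnit_or_isUnit hx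
      have h2 : IsUnit x := h1.resolve_left (X_prime (R := Bx) (i := (0 : Fin 3))).not_isUnit
      have h3 := congrArg (eval (wk (z k))) hx
      rw [hk, map_mul, eval_X] at h3
      have h4 := h2.map (eval (wk (z k)))
      exact mul_ne_zero (wk_ne _ _) h4.ne_zero h3.symm
  by_cases hD : ∀ σ, M ∣ Dx σ M
  · -- divides both derivatives
    have hL : ∀ σ, ∃ L : Ax, L.IsHomogeneous 1 ∧
        X 0 * cf σ M + X σ.succ ^ 2 * pderiv σ.succ M = L * M := by
      intro σ
      obtain ⟨L, hL⟩ := hD σ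
      refine ⟨L, ?_, ?_⟩
      · apply hom_of_mul' hMh hM0
        rw [mul_comm, ← hL, add_comm]
        exact Dx_hom σ hMh
      · change Dx σ M = L * M
        rw [hL, mul_comm]
    obtain ⟨L₁, hL₁, h₁⟩ := hL 0
    obtain ⟨L₂, hL₂, h₂⟩ := hL 1
    obtain ⟨c, d, hcd, hsupp, -⟩ := T3 hMh hL₁ hL₂
      (fun m hm => by rw [coeff_cf, hm, map_zero]) (fun m hm => by rw [coeff_cf, hm, map_zero])
      h₁ h₂ hX
    obtain ⟨Φ, hΦ0, hΦ1, hΦ2, hΦ3⟩ := spec z hMh hM0 hcd hsupp
    have := hB Φ hΦ0 c d hΦ1 hΦ2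
    rw [hcd] at this
    exact (cnt_mono hΦ3).trans this
  · push Not at hD
    obtain ⟨σ, hσ⟩ := hD
    have hrel : IsRelPrime M (Dx σ M) := (hM.irreducible.isRelPrime_iff_not_dvd).mpr hσ
    have hD0 : Dx σ M ≠ 0 := by
      intro h0
      exact hσ (by rw [h0]; exact dvd_zero _)
    have := bezout_A (ι := {k // eval (wk (z k)) M = 0}) (fun k => z k.1)
      (fun i j hij => Subtype.ext (hz hij)) hMh (Dx_hom σ hMh) hM0 hD0 hrel
      (fun i => i.2) (fun i => Dx_van _ _ hMh i.2)
    rw [cnt_sub] at this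
    calc _ ≤ e * (e + 1) := this
      _ ≤ b * e := by rw [mul_comm]; exact Nat.mul_le_mul he le_rfl

theorem bound_all {ι : Type} [Fintype ι] (z : ι → Fin 2 → ℂ) (hz : Function.Injective z) {b : ℕ}
    (hB : BB z b) (F : Ax) (hF0 : F ≠ 0) : ∀ e, F.IsHomogeneous e → e + 1 ≤ b →
    cnt (fun k => eval (wk (z k)) F = 0) ≤ b * e := by
  induction F using UniqueFactorizationMonoid.induction_on_prime with
  | h₁ => exact absurd rfl hF0
  | h₂ x hx =>
    intro e he _
    rw [cnt_zero]
    · exact Nat.zero_le _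
    · intro k hk
      have h4 := hx.map (eval (wk (z k)))
      exact h4.ne_zero hk
  | h₃ x π hx hπ ih =>
    intro e he heb
    obtain ⟨e1, e2, h1, h2, h3⟩ := isHomogeneous_of_mul hF0 he
    have k1 := bound_prime z hz hB hπ h1 (by omega)
    have k2 := ih hx e2 h2 (by omega)
    have k3 : cnt (fun k => eval (wk (z k)) (π * x) = 0) ≤
        cnt (fun k => eval (wk (z k)) π = 0) + cnt (fun k => eval (wk (z k)) x = 0) := by
      apply cnt_or
      intro k hk
      rw [map_mul] at hk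
      exact mul_eq_zero.mp hk
    rw [← h3, mul_add]
    omega

/-- the passage to coprime forms -/
theorem coprime_forms {ι : Type} [Fintype ι] (z : ι → Fin 2 → ℂ) (hz : Function.Injective z)
    {a b : ℕ} (hab : a ≤ b) (hB : BB z b) (hcard : Fintype.card ι = a * b) {F G : Ax}
    (hF : F.IsHomogeneous a) (hG : G.IsHomogeneous b) (hF0 : F ≠ 0)
    (hFG : ∀ s : Bx, s ≠ 0 → ¬ F ∣ C s * G)
    (hFv : ∀ i, eval (wk (z i)) F = 0) (hGv : ∀ i, eval (wk (z i)) G = 0) :
    ∃ F' G' : Ax, F'.IsHomogeneous a ∧ G'.IsHomogeneous b ∧ F' ≠ 0 ∧ G' ≠ 0 ∧ IsRelPrime F' G' ∧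
      (∀ i, eval (wk (z i)) F' = 0) ∧ (∀ i, eval (wk (z i)) G' = 0) := by
  classical
  have hG0 : G ≠ 0 := by
    rintro rfl
    exact hFG 1 one_ne_zero (by rw [mul_zero]; exact dvd_zero _)
  obtain ⟨F', G', δ, hrel, h1, h2⟩ := UniqueFactorizationMonoid.exists_reduced_factors F hF0 G
  have hne1 : δ * F' ≠ 0 := by rw [h1]; exact hF0
  have hne2 : δ * G' ≠ 0 := by rw [h2]; exact hG0
  obtain ⟨e, a', he, ha', hea⟩ := isHomogeneous_of_mul hne1 (by rw [h1]; exact hF)
  obtain ⟨e', b', he', hb', heb⟩ := isHomogeneous_of_mul hne2 (by rw [h2]; exact hG)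
  have hδ0 : δ ≠ 0 := left_ne_zero_of_mul hne1
  have hee : e = e' := he.inj_right he' hδ0
  subst hee
  have ha'0 : a' ≠ 0 := by
    rintro rfl
    obtain ⟨c, hc⟩ : ∃ c, F' = C c :=
      ⟨_, totalDegree_eq_zero_iff_eq_C.mp (ha'.totalDegree (right_ne_zero_of_mul hne1))⟩
    have hc0 : c ≠ 0 := by
      rintro rfl
      exact right_ne_zero_of_mul hne1 (by rw [hc, C_0])
    apply hFG c hc0
    refine ⟨G', ?_⟩
    rw [← h1, ← h2, hc]
    ring
  have hcnt : a * b ≤ b * e + a' * b' := by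
    have k1 := bound_all z hz hB δ hδ0 e he (by omega)
    have k2 := bezout_A (ι := {k // eval (wk (z k)) F' = 0 ∧ eval (wk (z k)) G' = 0})
      (fun k => z k.1) (fun i j hij => Subtype.ext (hz hij)) ha' hb'
      (right_ne_zero_of_mul hne1) (right_ne_zero_of_mul hne2) hrel
      (fun i => i.2.1) (fun i => i.2.2)
    rw [cnt_sub] at k2
    have k3 : cnt (fun _ : ι => True) ≤ cnt (fun k => eval (wk (z k)) δ = 0) +
        cnt (fun k => eval (wk (z k)) F' = 0 ∧ eval (wk (z k)) G' = 0) := by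
      apply cnt_or
      intro k _
      by_cases hk : eval (wk (z k)) δ = 0
      · exact Or.inl hk
      · right
        have e1 := hFv k
        have e2 := hGv k
        rw [← h1, map_mul] at e1
        rw [← h2, map_mul] at e2
        exact ⟨(mul_eq_zero.mp e1).resolve_left hk, (mul_eq_zero.mp e2).resolve_left hk⟩
    rw [cnt_all (fun _ => trivial), hcard] at k3
    omega
  have he0 : e = 0 := by
    by_contra hne
    have ha1 : 1 ≤ a' := Nat.one_le_iff_ne_zero.mpr ha'0
    have he1 : 1 ≤ e := Nat.one_le_iff_ne_zero.mpr hne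
    subst hea
    subst heb
    have : e * a' ≤ 0 := by nlinarith
    have : 1 ≤ e * a' := Nat.mul_le_mul he1 ha1
    omega
  subst he0
  obtain ⟨c, hc⟩ : ∃ c, δ = C c :=
    ⟨_, totalDegree_eq_zero_iff_eq_C.mp (he.totalDegree hδ0)⟩
  have hc0 : c ≠ 0 := by
    rintro rfl
    exact hδ0 (by rw [hc, C_0])
  rw [zero_add] at hea heb
  subst hea
  subst heb
  refine ⟨F', G', ha', hb', right_ne_zero_of_mul hne1, right_ne_zero_of_mul hne2, hrel, ?_, ?_⟩
  · intro i
    have := hFv i
    rw [← h1, map_mul, hc, eval_C] at this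
    exact (mul_eq_zero.mp this).resolve_left hc0
  · intro i
    have := hGv i
    rw [← h2, map_mul, hc, eval_C] at this
    exact (mul_eq_zero.mp this).resolve_left hc0

end Pool.Agent.H371R3.GQ
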