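import Pool.Agent.H371R3.GQ.B4

set_option autoImplicit false
set_option linter.unusedSectionVars false
set_option linter.unusedSimpArgs false
open MvPolynomial

namespace Pool.Agent.H371R3.GQ

section pi0
variable {R : Type} [CommRing R]

lemma pi0_monomial (s : Fin 3 →₀ ℕ) (a : R) :
    pi0 (monomial s a) = if s 0 = 0 then monomial s a else 0 := by
  rw [monomial_eq, map_mul, pi0_C, Finsupp.prod_fintype _ _ (fun i => pow_zero _),
    Fin.prod_univ_three, map_mul, map_mul, map_pow, map_pow, map_pow, pi0_X0, pi0_X1, pi0_X2]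
  split_ifs with h
  · rw [h, pow_zero, pow_zero]
  · rw [zero_pow h]; ring

lemma coeff_pi0 (F : MvPolynomial (Fin 3) R) (m : Fin 3 →₀ ℕ) :
    coeff m (pi0 F) = if m 0 = 0 then coeff m F else 0 := by
  classical
  induction F using MvPolynomial.induction_on' with
  | monomial s a =>
    rw [pi0_monomial]
    by_cases hs : s 0 = 0
    · rw [if_pos hs, coeff_monomial]
      by_cases hsm : s = m
      · rw [if_pos hsm, if_pos (by rw [← hsm]; exact hs)]
      · rw [if_neg hsm]; simp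
    · rw [if_neg hs, coeff_zero, coeff_monomial]
      by_cases hsm : s = m
      · rw [if_neg (by rw [← hsm]; exact hs)]
      · rw [if_neg hsm]; simp
  | add p q hp hq =>
    rw [map_add, coeff_add, hp, hq, coeff_add]
    split_ifs <;> simp

lemma pi0_hom {F : MvPolynomial (Fin 3) R} {e : ℕ} (hF : F.IsHomogeneous e) :
    (pi0 F).IsHomogeneous e := by
  intro m hm
  rw [coeff_pi0] at hm
  split_ifs at hm with h
  · exact hF hm
  · exact absurd rfl hm

lemma pi0_eq_zero_iff {F : MvPolynomial (Fin 3) R} : pi0 F = 0 ↔ X 0 ∣ F := by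
  constructor
  · exact dvd_of_pi0
  · rintro ⟨c, rfl⟩
    rw [map_mul, pi0_X0, zero_mul]

lemma pi0_of_hom_one {L : MvPolynomial (Fin 3) R} (hL : L.IsHomogeneous 1) :
    pi0 L = C (coeff (Finsupp.single 1 1) L) * X 1 + C (coeff (Finsupp.single 2 1) L) * X 2 := by
  conv_lhs => rw [lin_eq hL]
  rw [map_sum, Fin.sum_univ_three]
  simp

end pi0

section ci
variable {k : Type} [Field k] [Infinite k] {ι : Type} [Fintype ι]
  {v : ι → Fin 3 → k} {F G : MvPolynomial (Fin 3) k} {a b : ℕ}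

lemma CI.pi_ne (h : CI v F G a b) : pi0 F ≠ 0 ∨ pi0 G ≠ 0 := by
  by_contra hne
  push Not at hne
  have := h.hcop (dvd_of_pi0 hne.1) (dvd_of_pi0 hne.2)
  exact (X_prime (R := k) (i := (0 : Fin 3))).not_isUnit this

/-- the two top forms are not both divisible by a variable -/
lemma CI.not_both (h : CI v F G a b) (i : Fin 3) (hi : i ≠ 0) (h1 : X i ∣ pi0 F)
    (h2 : X i ∣ pi0 G) : False := by
  obtain ⟨f, hf⟩ := h1
  obtain ⟨g, hg⟩ := h2
  have hpX : pi0 (X i : MvPolynomial (Fin 3) k) = X i := by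
    fin_cases i
    · exact absurd rfl hi
    · exact pi0_X1
    · exact pi0_X2
  have hf' : pi0 F = X i * pi0 f := by
    rw [← pi0_idem F, hf, map_mul, hpX]
  have hg' : pi0 G = X i * pi0 g := by
    rw [← pi0_idem G, hg, map_mul, hpX]
  obtain ⟨c, hc, h3, h4⟩ := h.syz (X := g) (Y := -f) (by rw [hf', hg', map_neg]; ring)
  have hXu : ∀ p : MvPolynomial (Fin 3) k, p ≠ 0 → p = c * (X i * p) → False := by
    intro p hp hpp
    have : (c * X i - 1) * p = 0 := by linear_combination -hpp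
    have h5 := (mul_eq_zero.mp this).resolve_right hp
    have h6 : IsUnit (X i : MvPolynomial (Fin 3) k) :=
      IsUnit.of_mul_eq_one (a := X i) c (by linear_combination h5)
    exact (X_prime (R := k) (i := i)).not_isUnit h6
  rcases h.pi_ne with h5 | h5
  · apply hXu (pi0 f)
    · intro h0; apply h5; rw [hf', h0, mul_zero]
    · rw [map_neg, neg_inj, hf'] at h4
      exact h4
  · apply hXu (pi0 g)
    · intro h0; apply h5; rw [hg', h0, mul_zero]
    · rw [hg'] at h3
      exact h3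

lemma CI.not_dvd_F (h : CI v F G a b) (ha : 1 ≤ a) (hab : a ≤ b) : ¬ X 0 ∣ F := by
  rintro ⟨F', hF'⟩
  have hF'h : F'.IsHomogeneous (a - 1) := by
    apply hom_of_mul' (isHomogeneous_X k 0) (X_ne_zero 0)
    rw [mul_comm, ← hF', Nat.sub_add_cancel ha]
    exact h.hF
  have hF'v : ∀ i, eval (v i) F' = 0 := by
    intro i
    have := h.hFv i
    rw [hF', map_mul, eval_X] at this
    exact (mul_eq_zero.mp this).resolve_left (h.hw i)
  obtain ⟨X', Y', -, h1, -, h2, h3⟩ := h.mem_hom hF'h hF'v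
  rw [h1 (by omega), h2 (by omega), zero_mul, zero_mul, add_zero] at h3
  exact h.hF0 (by rw [hF', h3, mul_zero])

end ci

/-- the complete intersection over the function field -/
theorem mkCI {ι : Type} [Fintype ι] (z : ι → Fin 2 → ℂ) (hz : Function.Injective z)
    {a b : ℕ} (hcard : Fintype.card ι = a * b) {F G : Ax}
    (hF : F.IsHomogeneous a) (hG : G.IsHomogeneous b) (hF0 : F ≠ 0) (hG0 : G ≠ 0)
    (hrel : IsRelPrime F G)
    (hFv : ∀ i, eval (wk (z i)) F = 0) (hGv : ∀ i, eval (wk (z i)) G = 0) :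
    CI (fun i => wK (z i)) (ph F) (ph G) a b where
  hv := fun i j hij => wK_indep _ _ (fun h => hij (hz h))
  hw := fun i => wK_ne _ _
  hF := ph_hom hF
  hG := ph_hom hG
  hF0 := fun h0 => hF0 (ph_inj (by rw [h0, map_zero]))
  hG0 := fun h0 => hG0 (ph_inj (by rw [h0, map_zero]))
  hcop := relPrime_ph hF0 hG0 hrel
  hFv := fun i => by rw [eval_ph, hFv, map_zero]
  hGv := fun i => by rw [eval_ph, hGv, map_zero]
  hcard := hcard

lemma ph_Dx (σ : Fin 2) (F : Ax) :
    ph (Dx σ F) = X 0 * ph (cf σ F) + X σ.succ ^ 2 * pderiv σ.succ (ph F) := by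
  rw [Dx, map_add, map_mul, map_mul, map_pow, ph_X, ph_X]
  congr 2
  exact (pderiv_map).symm

lemma coeff_pcf {F : Ax} (σ : Fin 2) (m : Fin 3 →₀ ℕ) (h : coeff m (ph F) = 0) :
    coeff m (ph (cf σ F)) = 0 := by
  rw [coeff_ph] at h ⊢
  have : coeff m F = 0 := alg_inj (by rw [h, map_zero])
  rw [coeff_cf, this, map_zero, map_zero]

section caseAB
variable {ι : Type} [Fintype ι] {z : ι → Fin 2 → ℂ} {F G : Ax} {a b : ℕ}

/-- the derivative of a form of the vanishing ideal -/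
theorem CI.Dmem (h : CI (fun i => wK (z i)) (ph F) (ph G) a b) {H : Ax} {e : ℕ}
    (hH : H.IsHomogeneous e) (hHv : ∀ i, eval (wk (z i)) H = 0) (σ : Fin 2) :
    ∃ X' Y' : MvPolynomial (Fin 3) Kx, X'.IsHomogeneous (e + 1 - a) ∧ (e + 1 < a → X' = 0) ∧
      Y'.IsHomogeneous (e + 1 - b) ∧ (e + 1 < b → Y' = 0) ∧
      ph (Dx σ H) = X' * ph F + Y' * ph G :=
  h.mem_hom (ph_hom (Dx_hom σ hH)) (fun i => by
    rw [eval_ph, Dx_van _ _ hH (hHv i), map_zero])

/-- for `a < b` the derivatives of `F` are multiples of `F` -/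
theorem CI.DF (h : CI (fun i => wK (z i)) (ph F) (ph G) a b) (ha : 2 ≤ a) (hab : a < b)
    (hF : F.IsHomogeneous a) (hFv : ∀ i, eval (wk (z i)) F = 0) (σ : Fin 2) :
    ∃ L : MvPolynomial (Fin 3) Kx, L.IsHomogeneous 1 ∧ ph (Dx σ F) = L * ph F := by
  have hX : ∀ σ, ∃ (L : MvPolynomial (Fin 3) Kx) (c : Kx), L.IsHomogeneous 1 ∧
      ph (Dx σ F) = L * ph F + C c * ph G := by
    intro σ
    obtain ⟨X', Y', h1, -, h3, h4, h5⟩ := h.Dmem hF hFv σ
    rw [show a + 1 - a = 1 by omega] at h1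
    rw [show a + 1 - b = 0 by omega] at h3
    by_cases hY : Y' = 0
    · exact ⟨X', 0, h1, by rw [h5, hY, C_0]⟩
    · exact ⟨X', _, h1, by
        rw [h5]; congr 2
        exact totalDegree_eq_zero_iff_eq_C.mp (h3.totalDegree hY)⟩
  obtain ⟨L0, c0, hL0, h0⟩ := hX 0
  obtain ⟨L1, c1, hL1, h1⟩ := hX 1
  -- Euler's identity
  have he := euler (ph_hom hF)
  have g0 : X 0 * ph (cf 0 F) + (X 1 : MvPolynomial (Fin 3) Kx) ^ 2 * pderiv (1 : Fin 3) (ph F) =
      L0 * ph F + C c0 * ph G := by rw [← h0, ph_Dx]; rfl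
  have g1 : X 0 * ph (cf 1 F) + (X 2 : MvPolynomial (Fin 3) Kx) ^ 2 * pderiv (2 : Fin 3) (ph F) =
      L1 * ph F + C c1 * ph G := by rw [← h1, ph_Dx]; rfl
  have k0 := congrArg pi0 g0
  have k1 := congrArg pi0 g1
  have ke := congrArg pi0 he
  simp only [map_add, map_mul, map_pow, pi0_X0, pi0_X1, pi0_X2, pi0_C, zero_mul, zero_add,
    map_natCast] at k0 k1 ke
  set A : MvPolynomial (Fin 3) Kx := X 2 * L0 + X 1 * L1 - (a : MvPolynomial (Fin 3) Kx) * (X 1 * X 2)
    with hA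
  set B : MvPolynomial (Fin 3) Kx := X 2 * C c0 + X 1 * C c1 with hB
  have hsyz : pi0 A * pi0 (ph F) + pi0 B * pi0 (ph G) = 0 := by
    rw [hA, hB]
    simp only [map_add, map_sub, map_mul, map_pow, pi0_X0, pi0_X1, pi0_X2, pi0_C, map_natCast]
    linear_combination (-X 2) * k0 - X 1 * k1 + X 1 * X 2 * ke
  obtain ⟨c, hc, -, hc2⟩ := h.syz hsyz
  have hBpi : pi0 B = B := by
    rw [hB]; simp only [map_add, map_mul, pi0_X1, pi0_X2, pi0_C]
  rw [hBpi] at hc2
  have hf0 : pi0 (ph F) ≠ 0 := fun h0 => h.not_dvd_F (by omega) (by omega) (dvd_of_pi0 h0)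
  have hBh : B.IsHomogeneous 1 := by
    have e1 := (isHomogeneous_X Kx (2 : Fin 3)).mul (isHomogeneous_C (Fin 3) c0)
    have e2 := (isHomogeneous_X Kx (1 : Fin 3)).mul (isHomogeneous_C (Fin 3) c1)
    exact e1.add e2
  have hB0 : B = 0 := by
    by_contra hne
    have hc0 : c ≠ 0 := by
      rintro rfl
      apply hne; rw [hc2]; ring
    have e1 := hBh.totalDegree hne
    rw [hc2, totalDegree_neg, totalDegree_mul_of_isDomain hc0 hf0,
      (pi0_hom (ph_hom hF)).totalDegree hf0] at e1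
    omega
  have hc0 : c0 = 0 := by
    have := congrArg (eval ![0, 0, 1]) hB0
    simpa [hB] using this
  have hc1 : c1 = 0 := by
    have := congrArg (eval ![0, 1, 0]) hB0
    simpa [hB] using this
  fin_cases σ
  · exact ⟨L0, hL0, by rw [hc0, C_0, zero_mul, add_zero] at h0; exact h0⟩
  · exact ⟨L1, hL1, by rw [hc1, C_0, zero_mul, add_zero] at h1; exact h1⟩

end caseAB

end Pool.Agent.H371R3.GQ
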