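import Pool.Agent.H371R3.GQ.C1

set_option autoImplicit false
set_option linter.unusedSectionVars false
set_option linter.unusedSimpArgs false
open MvPolynomial

namespace Pool.Agent.H371R3.GQ

lemma coeff_mul_zero {R : Type} [CommRing R] (A F : MvPolynomial (Fin 3) R) (m : Fin 3 →₀ ℕ)
    (h : ∀ m', m' ≤ m → coeff m' F = 0) : coeff m (A * F) = 0 := by
  classical
  rw [coeff_mul]
  apply Finset.sum_eq_zero
  intro p hp
  rw [Finset.HasAntidiagonal.mem_antidiagonal] at hp
  rw [h p.2, mul_zero]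
  rw [← hp]
  exact self_le_add_left _ _

/-- indices `i`, `j` exhaust `1, 2` -/
lemma succ_cases {σ τ : Fin 2} (h : σ ≠ τ) (l : Fin 3) : l = 0 ∨ l = σ.succ ∨ l = τ.succ := by
  fin_cases σ <;> fin_cases τ <;> fin_cases l <;> simp_all

lemma succ_ne {σ τ : Fin 2} (h : σ ≠ τ) : σ.succ ≠ τ.succ := fun h' => h (Fin.succ_injective _ h')

lemma sum_three {σ τ : Fin 2} (h : σ ≠ τ) (m : Fin 3 →₀ ℕ) :
    m.degree = m 0 + m σ.succ + m τ.succ := by
  rw [Finsupp.degree_eq_sum, Fin.sum_univ_three]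
  fin_cases σ <;> fin_cases τ
  · exact absurd rfl h
  · rfl
  · change m 0 + m 1 + m 2 = m 0 + m 2 + m 1
    ring
  · exact absurd rfl h

section
variable {ι : Type} [Fintype ι] {z : ι → Fin 2 → ℂ} {F G : Ax} {a b : ℕ}

/-- `g_j ≠ 0` when the other variable divides the top form of `F` -/
theorem CI.gj (h : CI (fun i => wK (z i)) (ph F) (ph G) a b) (hG : G.IsHomogeneous b)
    {σ τ : Fin 2} (hστ : σ ≠ τ)
    (hf : ∀ m, m 0 = 0 → coeff m (ph F) ≠ 0 → 1 ≤ m σ.succ) :
    coeff (Finsupp.single τ.succ b) (ph G) ≠ 0 := by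
  intro h0
  apply h.not_both σ.succ (Fin.succ_ne_zero _)
  · apply X_dvd_of
    intro m hm
    rw [coeff_pi0]
    split_ifs with hm0
    · by_contra hne
      have := hf m hm0 hne
      omega
    · rfl
  · apply X_dvd_of
    intro m hm
    rw [coeff_pi0]
    split_ifs with hm0
    · by_contra hne
      have hdeg : m.degree = b := by
        by_contra h'
        exact hne ((ph_hom hG).coeff_eq_zero h')
      rw [sum_three hστ, hm0, hm] at hdeg
      have hm' : m = Finsupp.single τ.succ b := by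
        ext l
        rcases succ_cases hστ l with h1 | h1 | h1
        · subst h1; rw [hm0]; simp [Finsupp.single_apply]
        · subst h1; rw [hm]; simp [Finsupp.single_apply, (succ_ne hστ).symm]
        · subst h1; rw [Finsupp.single_eq_same]; omega
      rw [hm'] at hne
      exact hne h0
    · rfl

theorem CI.excl (h : CI (fun i => wK (z i)) (ph F) (ph G) a b) (hb : 1 ≤ b)
    (hG : G.IsHomogeneous b)
    (hGv : ∀ i, eval (wk (z i)) G = 0)
    {σ τ : Fin 2} (hστ : σ ≠ τ) {ei ej : ℕ} (hei : 2 ≤ ei) (hej : 1 ≤ ej)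
    (hf : ∀ m, m 0 = 0 → coeff m (ph F) ≠ 0 → m σ.succ = ei ∧ m τ.succ = ej) : False := by
  have gj := h.gj hG hστ (fun m h1 h2 => by have := (hf m h1 h2).1; omega)
  have gi := h.gj hG hστ.symm (fun m h1 h2 => by have := (hf m h1 h2).2; omega)
  obtain ⟨X', L, -, -, hL, hL2, hXL⟩ := h.Dmem hG hGv σ
  rw [show b + 1 - b = 1 by omega] at hL
  rw [ph_Dx] at hXL
  set i := σ.succ with hi
  set j := τ.succ with hj
  have hi0 : i ≠ 0 := Fin.succ_ne_zero _
  have hj0 : j ≠ 0 := Fin.succ_ne_zero _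
  have hij : i ≠ j := succ_ne hστ
  have hle : ∀ m m' : Fin 3 →₀ ℕ, m' ≤ m → m 0 = 0 → m' 0 = 0 := by
    intro m m' h1 h2
    have := h1 0
    omega
  -- first coefficient
  have c1 := congrArg (coeff (Finsupp.single j b + Finsupp.single j 1)) hXL
  rw [coeff_add, coeff_add, coeff_X_mul', if_neg (by simp [Finsupp.single_apply, hj0]),
    coeff_D2_zero _ _ _ (by simp [Finsupp.single_apply, hij.symm]),
    coeff_mul_zero X' (ph F) _ (by
      intro m' hm'
      by_contra hne
      have h1 := hf m' (hle _ _ hm' (by simp [Finsupp.single_apply, hj0])) hne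
      have h2 := hm' i
      simp [Finsupp.single_apply, hij.symm] at h2
      omega), coeff_lin_mul hL, Finset.sum_eq_single j (by
      intro l _ hl
      rw [if_neg (by simp [Finsupp.single_apply, hl.symm])]) (by simp), if_pos (by simp),
      add_tsub_cancel_right] at c1
  have hlj : coeff (Finsupp.single j 1) L = 0 := by
    rw [add_zero, zero_add] at c1
    exact (mul_eq_zero.mp c1.symm).resolve_right gj
  -- second coefficient
  have c2 := congrArg (coeff (Finsupp.single j b + Finsupp.single i 1)) hXL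
  rw [coeff_add, coeff_add, coeff_X_mul', if_neg (by simp [Finsupp.single_apply, hj0, hi0]),
    coeff_D2_succ,
    coeff_mul_zero X' (ph F) _ (by
      intro m' hm'
      by_contra hne
      have h1 := hf m' (hle _ _ hm' (by simp [Finsupp.single_apply, hj0, hi0])) hne
      have h2 := hm' i
      simp [Finsupp.single_apply, hij.symm] at h2
      omega), coeff_lin_mul hL, Finset.sum_eq_single i (by
      intro l _ hl
      rcases succ_cases hστ l with h1 | h1 | h1
      · subst h1
        rw [if_neg (by simp [Finsupp.single_apply, hj0, hi0])]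
      · exact absurd h1 hl
      · rw [h1, ← hj, hlj]; simp) (by simp), if_pos (by simp),
      add_tsub_cancel_right] at c2
  have hli : coeff (Finsupp.single i 1) L = 0 := by
    have h3 : (Finsupp.single j b : Fin 3 →₀ ℕ) i = 0 := by simp [Finsupp.single_apply, hij.symm]
    rw [h3, Nat.cast_zero, zero_mul, add_zero, zero_add] at c2
    exact (mul_eq_zero.mp c2.symm).resolve_right gj
  -- third coefficient
  have c3 := congrArg (coeff (Finsupp.single i b + Finsupp.single i 1)) hXL
  rw [coeff_add, coeff_add, coeff_X_mul', if_neg (by simp [Finsupp.single_apply, hi0]),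
    coeff_D2_succ,
    coeff_mul_zero X' (ph F) _ (by
      intro m' hm'
      by_contra hne
      have h1 := hf m' (hle _ _ hm' (by simp [Finsupp.single_apply, hi0])) hne
      have h2 := hm' j
      simp [Finsupp.single_apply, hij] at h2
      omega), coeff_lin_mul hL, Finset.sum_eq_single i (by
      intro l _ hl
      rw [if_neg (by simp [Finsupp.single_apply, hl.symm])]) (by simp), if_pos (by simp),
      add_tsub_cancel_right, hli] at c3
  rw [Finsupp.single_eq_same, zero_mul, zero_add, zero_add] at c3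
  rcases mul_eq_zero.mp c3 with h4 | h4
  · have : b = 0 := by exact_mod_cast h4
    omega
  · exact gi h4

/-- nonplanarity over the function field -/
theorem nonplanar (hsp : Submodule.span ℂ (Set.range fun k : ι =>
      (![z k 0 * z k 1, z k 0, z k 1, 1] : Fin 4 → ℂ)) = ⊤) (c : Fin 4 → Kx)
    (hc : ∀ k, c 0 * algebraMap Bx Kx (C (z k 0 * z k 1)) + c 1 * algebraMap Bx Kx (C (z k 0)) +
      c 2 * algebraMap Bx Kx (C (z k 1)) + c 3 = 0) : c = 0 := by
  funext i
  have hmem : (Pi.single i 1 : Fin 4 → ℂ) ∈ Submodule.span ℂ (Set.range fun k : ι =>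
      (![z k 0 * z k 1, z k 0, z k 1, 1] : Fin 4 → ℂ)) := by rw [hsp]; trivial
  rw [Submodule.mem_span_range_iff_exists_fun] at hmem
  obtain ⟨x, hx⟩ := hmem
  have key : ∑ k, algebraMap Bx Kx (C (x k)) *
      (c 0 * algebraMap Bx Kx (C (z k 0 * z k 1)) + c 1 * algebraMap Bx Kx (C (z k 0)) +
      c 2 * algebraMap Bx Kx (C (z k 1)) + c 3) = 0 := by
    apply Finset.sum_eq_zero
    intro k _
    rw [hc, mul_zero]
  have key2 : ∑ j : Fin 4, c j * algebraMap Bx Kx (C ((Pi.single i 1 : Fin 4 → ℂ) j)) = 0 := by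
    rw [← key, ← hx, Fin.sum_univ_four]
    simp only [Finset.sum_apply, Pi.smul_apply, smul_eq_mul, map_sum, map_mul, Finset.mul_sum,
      ← Finset.sum_add_distrib]
    refine Finset.sum_congr rfl fun k _ => ?_
    simp [Matrix.cons_val_zero, Matrix.cons_val_one]
    ring
  rw [Finset.sum_eq_single i] at key2
  · simpa using key2
  · intro j _ hj
    rw [Pi.single_eq_of_ne hj, map_zero, map_zero, mul_zero]
  · simp

theorem CI.not_conic (h : CI (fun i => wK (z i)) (ph F) (ph G) 2 b)
    (hsp : Submodule.span ℂ (Set.range fun k : ι =>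
      (![z k 0 * z k 1, z k 0, z k 1, 1] : Fin 4 → ℂ)) = ⊤)
    (hf : ∀ m, m 0 = 0 → coeff m (ph F) ≠ 0 → m 1 = 1 ∧ m 2 = 1) : False := by
  set κ := coeff (Finsupp.single 1 1 + Finsupp.single 2 1) (ph F) with hκ
  have h1 : X 0 ∣ ph F - C κ * (X 1 * X 2) := by
    apply X_dvd_of
    intro m hm
    have hmon : (X 1 * X 2 : MvPolynomial (Fin 3) Kx) =
        monomial (Finsupp.single 1 1 + Finsupp.single 2 1) 1 := by
      rw [X, X, monomial_mul, one_mul]
    rw [coeff_sub, coeff_C_mul, hmon, coeff_monomial]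
    split_ifs with h2
    · rw [hκ, h2]; ring
    · rw [mul_zero, sub_zero]
      by_contra hne
      have h3 := hf m hm hne
      apply h2
      ext l
      fin_cases l
      · simp [hm]
      · simp [h3.1]
      · simp [h3.2]
  obtain ⟨L, hL⟩ := h1
  have hLh : L.IsHomogeneous 1 := by
    apply hom_of_mul' (isHomogeneous_X Kx (0 : Fin 3)) (X_ne_zero 0)
    rw [mul_comm, ← hL]
    apply IsHomogeneous.sub h.hF
    have := ((isHomogeneous_X Kx (1 : Fin 3)).mul (isHomogeneous_X Kx (2 : Fin 3))).C_mul κ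
    exact this
  have hLe := lin_eq hLh
  set l0 := coeff (Finsupp.single 0 1) L with hl0
  set l1 := coeff (Finsupp.single 1 1) L with hl1
  set l2 := coeff (Finsupp.single 2 1) L with hl2
  rw [Fin.sum_univ_three, ← hl0, ← hl1, ← hl2] at hLe
  set P : Kx := algebraMap Bx Kx (X 0) with hP
  set Q : Kx := algebraMap Bx Kx (X 1) with hQ
  have key : ∀ k, (![l0, l2 - l0 * Q, l1 - l0 * P, κ + l0 * P * Q - l1 * Q - l2 * P] : Fin 4 → Kx) 0 *
      algebraMap Bx Kx (C (z k 0 * z k 1)) +
      (![l0, l2 - l0 * Q, l1 - l0 * P, κ + l0 * P * Q - l1 * Q - l2 * P] : Fin 4 → Kx) 1 *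
      algebraMap Bx Kx (C (z k 0)) +
      (![l0, l2 - l0 * Q, l1 - l0 * P, κ + l0 * P * Q - l1 * Q - l2 * P] : Fin 4 → Kx) 2 *
      algebraMap Bx Kx (C (z k 1)) +
      (![l0, l2 - l0 * Q, l1 - l0 * P, κ + l0 * P * Q - l1 * Q - l2 * P] : Fin 4 → Kx) 3 = 0 := by
    intro k
    have h2 := h.hFv k
    have h3 := congrArg (eval (wK (z k))) hL
    rw [map_sub, h2, hLe] at h3
    simp only [map_mul, map_add, eval_X, eval_C] at h3
    have w0 : wK (z k) 0 = (algebraMap Bx Kx (C (z k 0)) - P) * (algebraMap Bx Kx (C (z k 1)) - Q) := by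
      rw [hP, hQ, ← map_sub, ← map_sub, ← map_mul]; rfl
    have w1 : wK (z k) 1 = (algebraMap Bx Kx (C (z k 1)) - Q) := by
      rw [hQ, ← map_sub]; rfl
    have w2 : wK (z k) 2 = (algebraMap Bx Kx (C (z k 0)) - P) := by
      rw [hP, ← map_sub]; rfl
    have hw := wK_ne (z k) 0
    have h4 : wK (z k) 0 * (κ + (l0 * wK (z k) 0 + l1 * wK (z k) 1 + l2 * wK (z k) 2)) = 0 := by
      have h5 : wK (z k) 0 = wK (z k) 1 * wK (z k) 2 := by rw [w0, w1, w2]; ring
      linear_combination (-1 : Kx) * h3 + κ * h5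
    have h6 := (mul_eq_zero.mp h4).resolve_left hw
    rw [w0, w1, w2] at h6
    change l0 * algebraMap Bx Kx (C (z k 0 * z k 1)) + (l2 - l0 * Q) * algebraMap Bx Kx (C (z k 0)) +
      (l1 - l0 * P) * algebraMap Bx Kx (C (z k 1)) + (κ + l0 * P * Q - l1 * Q - l2 * P) = 0
    rw [C_mul, map_mul]
    linear_combination h6
  have h7 := nonplanar hsp _ key
  have e0 := congrFun h7 0
  have e1 := congrFun h7 1
  have e2 := congrFun h7 2
  have e3 := congrFun h7 3
  change l0 = 0 at e0
  change l2 - l0 * Q = 0 at e1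
  change l1 - l0 * P = 0 at e2
  change κ + l0 * P * Q - l1 * Q - l2 * P = 0 at e3
  rw [e0, zero_mul, sub_zero] at e1 e2
  rw [e0, e1, e2] at e3
  have hκ0 : κ = 0 := by linear_combination e3
  apply h.hF0
  have h8 : ph F = C κ * (X 1 * X 2) + X 0 * L := by rw [← hL]; ring
  rw [h8, hLe, e0, e1, e2, hκ0]
  simp

/-- the outcome of the first case: `F` only involves two variables -/
theorem CI.caseAB (h : CI (fun i => wK (z i)) (ph F) (ph G) a b) (ha : 2 ≤ a) (hab : a < b)
    (hF : F.IsHomogeneous a) (hG : G.IsHomogeneous b)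
    (hFv : ∀ i, eval (wk (z i)) F = 0) (hGv : ∀ i, eval (wk (z i)) G = 0)
    (hsp : Submodule.span ℂ (Set.range fun k : ι =>
      (![z k 0 * z k 1, z k 0, z k 1, 1] : Fin 4 → ℂ)) = ⊤) :
    ∃ σ τ : Fin 2, σ ≠ τ ∧ (∀ m, coeff m (ph F) ≠ 0 → m τ.succ = 0) ∧
      coeff (Finsupp.single τ.succ b) (ph G) ≠ 0 := by
  obtain ⟨L0, hL0, h0⟩ := h.DF ha hab hF hFv 0
  obtain ⟨L1, hL1, h1⟩ := h.DF ha hab hF hFv 1
  rw [ph_Dx] at h0 h1
  obtain ⟨c, d, hcd, hsupp, htop⟩ := T3 (ph_hom hF) hL0 hL1 (fun m hm => coeff_pcf 0 m hm)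
    (fun m hm => coeff_pcf 1 m hm) h0 h1 (h.not_dvd_F (by omega) (by omega))
  have k1 : ¬ (2 ≤ c ∧ 1 ≤ d) := by
    rintro ⟨hc, hd⟩
    exact h.excl (by omega) hG hGv (σ := 0) (τ := 1) (by decide) hc hd
      (fun m hm hm' => htop m hm hm')
  have k2 : ¬ (2 ≤ d ∧ 1 ≤ c) := by
    rintro ⟨hd, hc⟩
    exact h.excl (by omega) hG hGv (σ := 1) (τ := 0) (by decide) hd hc
      (fun m hm hm' => ⟨(htop m hm hm').2, (htop m hm hm').1⟩)
  have k3 : ¬ (c = 1 ∧ d = 1) := by
    rintro ⟨hc, hd⟩
    subst hc; subst hd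
    subst hcd
    exact CI.not_conic h hsp htop
  rcases (by omega : (d = 0 ∧ c = a) ∨ (c = 0 ∧ d = a)) with hh | hh
  · refine ⟨0, 1, by decide, ?_, ?_⟩
    · intro m hm
      have := (hsupp m hm).2
      change m 2 = 0
      omega
    · apply h.gj hG (σ := 0) (τ := 1) (by decide)
      intro m hm hm'
      have := (htop m hm hm').1
      change 1 ≤ m 1
      omega
  · refine ⟨1, 0, by decide, ?_, ?_⟩
    · intro m hm
      have := (hsupp m hm).1
      change m 1 = 0
      omega
    · apply h.gj hG (σ := 1) (τ := 0) (by decide)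
      intro m hm hm'
      have := (htop m hm hm').2
      change 1 ≤ m 2
      omega

end

end Pool.Agent.H371R3.GQ
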