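import Pool.Agent.H371R3.GQ.C2

set_option autoImplicit false
set_option linter.unusedSectionVars false
set_option linter.unusedSimpArgs false
open MvPolynomial

namespace Pool.Agent.H371R3.GQ

lemma wk_succ (z : Fin 2 → ℂ) {σ τ : Fin 2} (h : σ ≠ τ) :
    wk z σ.succ = C (z τ) - X τ ∧ wk z 0 = wk z σ.succ * wk z τ.succ := by
  refine ⟨?_, (wk_deriv_other z σ τ h).2.2.2⟩
  fin_cases σ <;> fin_cases τ
  · exact absurd rfl h
  · rfl
  · rfl
  · exact absurd rfl h

lemma prod_three {M : Type} [CommMonoid M] {σ τ : Fin 2} (h : σ ≠ τ) (f : Fin 3 → M) :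
    ∏ l, f l = f 0 * f σ.succ * f τ.succ := by
  rw [Fin.prod_univ_three]
  fin_cases σ <;> fin_cases τ
  · exact absurd rfl h
  · rfl
  · change f 0 * f 1 * f 2 = f 0 * f 2 * f 1
    rw [mul_right_comm]
  · exact absurd rfl h

section
variable {ι : Type} [Fintype ι] {z : ι → Fin 2 → ℂ} {F G : Ax} {a b : ℕ}

open Classical in
/-- a form in two variables bounds the number of values of a coordinate -/
theorem image_le {σ τ : Fin 2} (hστ : σ ≠ τ) {H : Ax} (hH : H.IsHomogeneous a) (hH0 : H ≠ 0)
    (hHv : ∀ i, eval (wk (z i)) H = 0) (hsupp : ∀ m, coeff m H ≠ 0 → m τ.succ = 0) :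
    (Finset.univ.image (fun k => z k σ)).card ≤ a := by
  have hdeg : ∀ m, coeff m H ≠ 0 → m 0 + m σ.succ = a := by
    intro m hm
    have h1 : m.degree = a := by
      by_contra h
      exact hm (hH.coeff_eq_zero h)
    rw [sum_three hστ, hsupp m hm] at h1
    exact h1
  set P : Polynomial Bx := ∑ m ∈ H.support, Polynomial.C (coeff m H) * Polynomial.X ^ (m 0) with hP
  have hP0 : P ≠ 0 := by
    obtain ⟨m0, hm0⟩ := ne_zero_iff.mp hH0
    intro h0
    have h1 := congrArg (fun f => Polynomial.coeff f (m0 0)) h0
    simp only [hP, Polynomial.finsetSum_coeff, Polynomial.coeff_C_mul_X_pow,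
      Polynomial.coeff_zero] at h1
    rw [Finset.sum_eq_single m0] at h1
    · rw [if_pos rfl] at h1
      exact hm0 h1
    · intro m hm hmm
      rw [if_neg]
      intro heq
      apply hmm
      have hm' := mem_support_iff.mp hm
      ext l
      rcases succ_cases hστ l with h2 | h2 | h2
      · subst h2; exact heq.symm
      · subst h2
        have e1 := hdeg m hm'
        have e2 := hdeg m0 hm0
        omega
      · subst h2
        rw [hsupp m hm', hsupp m0 hm0]
    · intro h; exact absurd (mem_support_iff.mpr hm0) h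
  have hPd : P.natDegree ≤ a := by
    rw [hP]
    apply Polynomial.natDegree_sum_le_of_forall_le
    intro m hm
    refine (Polynomial.natDegree_C_mul_X_pow_le _ _).trans ?_
    have := hdeg m (mem_support_iff.mp hm)
    omega
  have hroot : ∀ k, P.eval (C (z k σ) - X σ) = 0 := by
    intro k
    have h1 := hHv k
    rw [eval_eq'] at h1
    have h2 : (wk (z k) σ.succ) ^ a * P.eval (C (z k σ) - X σ) = 0 := by
      rw [← h1, hP, Polynomial.eval_finsetSum, Finset.mul_sum]
      refine Finset.sum_congr rfl fun m hm => ?_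
      rw [prod_three hστ, (wk_succ (z k) hστ).2, hsupp m (mem_support_iff.mp hm), pow_zero, mul_one,
        Polynomial.eval_mul, Polynomial.eval_C, Polynomial.eval_pow, Polynomial.eval_X,
        ← hdeg m (mem_support_iff.mp hm), (wk_succ (z k) hστ.symm).1, mul_pow, pow_add]
      ring
    exact (mul_eq_zero.mp h2).resolve_left (pow_ne_zero _ (wk_ne _ _))
  have hinj : Function.Injective (fun c : ℂ => (C c - X σ : Bx)) := by
    intro c c' h
    simp only at h
    exact C_injective _ _ (sub_left_injective h)
  calc (Finset.univ.image (fun k => z k σ)).card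
      = ((Finset.univ.image (fun k => z k σ)).image (fun c : ℂ => (C c - X σ : Bx))).card :=
        (Finset.card_image_of_injective _ hinj).symm
    _ ≤ P.roots.toFinset.card := by
        apply Finset.card_le_card
        intro r hr
        rw [Finset.mem_image] at hr
        obtain ⟨c, hc, rfl⟩ := hr
        rw [Finset.mem_image] at hc
        obtain ⟨k, -, rfl⟩ := hc
        rw [Multiset.mem_toFinset, Polynomial.mem_roots hP0]
        exact hroot k
    _ ≤ P.roots.card := Multiset.toFinset_card_le _
    _ ≤ P.natDegree := Polynomial.card_roots' _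
    _ ≤ a := hPd

open Classical in
/-- counting the fibres -/
theorem fibres (hB : BB z b) (hb : 0 < b) (hcard : Fintype.card ι = a * b) (σ : Fin 2)
    (him : (Finset.univ.image (fun k => z k σ)).card ≤ a) :
    (Finset.univ.image (fun k => z k σ)).card = a ∧
    ∀ ξ ∈ Finset.univ.image (fun k => z k σ),
      (Finset.univ.filter (fun k => z k σ = ξ)).card = b := by
  have hfib : ∀ ξ, (Finset.univ.filter (fun k => z k σ = ξ)).card ≤ b := by
    intro ξ
    have h1 : ∀ l : Fin 2, degreeOf l (X σ - C ξ : Bx) ≤ if l = σ then 1 else 0 := by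
      intro l
      refine (degreeOf_sub_le _ _ _).trans ?_
      rw [degreeOf_C, degreeOf_X]
      simp
    have h2 := hB (X σ - C ξ) (by
      intro h
      apply sub_X_ne ξ σ
      rw [← neg_sub, h, neg_zero]) _ _ (h1 0) (h1 1)
    have h3 : (if (0 : Fin 2) = σ then 1 else 0) + (if (1 : Fin 2) = σ then 1 else 0) = 1 := by
      fin_cases σ <;> simp
    rw [h3, mul_one] at h2
    refine le_trans (le_of_eq ?_) h2
    unfold cnt
    congr 1
    apply Finset.filter_congr
    intro k _
    rw [map_sub, eval_X, eval_C, sub_eq_zero]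
  have hsum : Fintype.card ι = ∑ ξ ∈ Finset.univ.image (fun k => z k σ),
      (Finset.univ.filter (fun k => z k σ = ξ)).card := by
    rw [← Finset.card_univ]
    exact Finset.card_eq_sum_card_image _ _
  have hle : ∑ ξ ∈ Finset.univ.image (fun k => z k σ),
      (Finset.univ.filter (fun k => z k σ = ξ)).card ≤
      ∑ ξ ∈ Finset.univ.image (fun k => z k σ), b := Finset.sum_le_sum fun ξ _ => hfib ξ
  rw [Finset.sum_const, smul_eq_mul] at hle
  have hS : (Finset.univ.image (fun k => z k σ)).card = a := by
    apply le_antisymm him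
    have : a * b ≤ (Finset.univ.image (fun k => z k σ)).card * b := by
      rw [← hcard, hsum]; exact hle
    exact Nat.le_of_mul_le_mul_right this hb
  refine ⟨hS, ?_⟩
  have heq : ∑ ξ ∈ Finset.univ.image (fun k => z k σ),
      (Finset.univ.filter (fun k => z k σ = ξ)).card =
      ∑ ξ ∈ Finset.univ.image (fun k => z k σ), b := by
    rw [← hsum, hcard, Finset.sum_const, smul_eq_mul, hS]
  exact (Finset.sum_eq_sum_iff_of_le (fun ξ _ => hfib ξ)).mp heq

/-- the polynomial with given roots -/
noncomputable def E (T : Finset ℂ) : Polynomial ℂ := ∏ η ∈ T, (Polynomial.X - Polynomial.C η)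

lemma E_ne (T : Finset ℂ) : E T ≠ 0 :=
  Finset.prod_ne_zero_iff.mpr fun η _ => Polynomial.X_sub_C_ne_zero η

lemma E_root {T : Finset ℂ} {η : ℂ} : (E T).eval η = 0 ↔ η ∈ T := by
  rw [E, Polynomial.eval_prod, Finset.prod_eq_zero_iff]
  constructor
  · rintro ⟨x, hx, h⟩
    rw [Polynomial.eval_sub, Polynomial.eval_X, Polynomial.eval_C, sub_eq_zero] at h
    rw [h]; exact hx
  · intro h
    exact ⟨η, h, by simp⟩

lemma E_deriv {T : Finset ℂ} {η : ℂ} (h : η ∈ T) : (E T).derivative.eval η ≠ 0 := by
  classical
  have h1 : E T = (Polynomial.X - Polynomial.C η) * E (T.erase η) := by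
    rw [E, E, Finset.mul_prod_erase T (fun η => Polynomial.X - Polynomial.C η) h]
  rw [h1, Polynomial.derivative_mul]
  simp only [Polynomial.derivative_sub, Polynomial.derivative_X, Polynomial.derivative_C, sub_zero,
    one_mul, Polynomial.eval_add, Polynomial.eval_mul, Polynomial.eval_sub, Polynomial.eval_X,
    Polynomial.eval_C, sub_self, zero_mul, add_zero]
  rw [Ne, E_root]
  simp

/-- two polynomials with proportional logarithmic derivatives -/
lemma E_sub {T T' : Finset ℂ} (h : (E T).derivative * E T' = (E T').derivative * E T) : T ⊆ T' := by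
  intro η hη
  have h1 := congrArg (Polynomial.eval η) h
  rw [Polynomial.eval_mul, Polynomial.eval_mul, E_root.mpr hη, mul_zero] at h1
  exact E_root.mp ((mul_eq_zero.mp h1).resolve_left (E_deriv hη))

end

end Pool.Agent.H371R3.GQ
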