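import Pool.Agent.H371R3.GQ.C3

set_option autoImplicit false
set_option linter.unusedSectionVars false
set_option linter.unusedSimpArgs false
open MvPolynomial

namespace Pool.Agent.H371R3.GQ

/-- the restriction of `G` to a line of a ruling -/
theorem fibre_poly {G : Ax} {b : ℕ} {σ τ : Fin 2} (hστ : σ ≠ τ) (hG : G.IsHomogeneous b)
    (hb : 1 ≤ b) (ξ : ℂ) (T : Finset ℂ) (hT : T.card = b)
    (hv : ∀ η ∈ T, ∃ ζ : Fin 2 → ℂ, ζ σ = ξ ∧ ζ τ = η ∧ eval (wk ζ) G = 0) :
    (Polynomial.aeval (X τ : Bx) (E T).derivative) * coeff (Finsupp.single τ.succ b) G *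
        (C ξ - X σ) =
      (Polynomial.aeval (X τ : Bx) (E T)) *
        (coeff (Finsupp.single 0 1 + Finsupp.single τ.succ (b - 1)) G * (C ξ - X σ) +
          coeff (Finsupp.single σ.succ 1 + Finsupp.single τ.succ (b - 1)) G) := by
  classical
  set s : Bx := C ξ - X σ with hs
  have hs0 : s ≠ 0 := sub_X_ne ξ σ
  set i := σ.succ with hi
  set j := τ.succ with hj
  have hi0 : i ≠ 0 := Fin.succ_ne_zero _
  have hj0 : j ≠ 0 := Fin.succ_ne_zero _
  have hij : i ≠ j := succ_ne hστ
  have hdeg : ∀ m, coeff m G ≠ 0 → m 0 + m i + m j = b := by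
    intro m hm
    have h1 : m.degree = b := by
      by_contra h
      exact hm (hG.coeff_eq_zero h)
    rw [sum_three hστ] at h1
    exact h1
  set R : Polynomial Bx := ∑ m ∈ G.support, Polynomial.C (coeff m G * s ^ (m 0 + m j)) *
    Polynomial.X ^ (m 0 + m i) with hR
  have hRd : R.natDegree ≤ b := by
    rw [hR]
    apply Polynomial.natDegree_sum_le_of_forall_le
    intro m hm
    refine (Polynomial.natDegree_C_mul_X_pow_le _ _).trans ?_
    have := hdeg m (mem_support_iff.mp hm)
    omega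
  have hroot : ∀ η ∈ T, R.eval (C η - X τ) = 0 := by
    intro η hη
    obtain ⟨ζ, hζ1, hζ2, hζ3⟩ := hv η hη
    rw [eval_eq'] at hζ3
    rw [← hζ3, hR, Polynomial.eval_finsetSum]
    refine Finset.sum_congr rfl fun m hm => ?_
    have e1 := (wk_succ ζ hστ).1
    have e2 := (wk_succ ζ hστ.symm).1
    have e3 := (wk_succ ζ hστ).2
    rw [e1, e2, hζ1, hζ2] at e3
    rw [hζ2] at e1
    rw [hζ1] at e2
    rw [prod_three hστ, e3, e1, e2, Polynomial.eval_mul, Polynomial.eval_C, Polynomial.eval_pow,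
      Polynomial.eval_X, ← hs, mul_pow, pow_add, pow_add]
    ring
  -- divisibility by the product
  set Pr : Polynomial Bx := ∏ η ∈ T, (Polynomial.X - Polynomial.C (C η - X τ)) with hPr
  have hdvd : Pr ∣ R := by
    apply Finset.prod_dvd_of_coprime
    · intro η _ η' _ hne
      apply Polynomial.isCoprime_X_sub_C_of_isUnit_sub
      rw [sub_sub_sub_cancel_right, ← C_sub]
      exact (isUnit_iff_ne_zero.mpr (sub_ne_zero.mpr hne)).map C
    · intro η hη
      rw [Polynomial.dvd_iff_isRoot]
      exact hroot η hη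
  have hPrm : Pr.Monic := Polynomial.monic_prod_of_monic _ _ fun η _ => Polynomial.monic_X_sub_C _
  have hPrd : Pr.natDegree = b := by
    rw [hPr, Polynomial.natDegree_prod_of_monic _ _ fun η _ => Polynomial.monic_X_sub_C _,
      Finset.sum_congr rfl (fun η _ => Polynomial.natDegree_X_sub_C _), Finset.sum_const, hT,
      smul_eq_mul, mul_one]
  obtain ⟨lam, hlam⟩ : ∃ lam : Bx, R = Pr * Polynomial.C lam := by
    obtain ⟨Q, hQ⟩ := hdvd
    by_cases hQ0 : Q = 0
    · exact ⟨0, by rw [hQ, hQ0, Polynomial.C_0]⟩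
    · have h1 := congrArg Polynomial.natDegree hQ
      rw [hPrm.natDegree_mul' hQ0, hPrd] at h1
      have h2 : Q.natDegree = 0 := by omega
      exact ⟨Q.coeff 0, by rw [hQ]; congr 1; exact Polynomial.eq_C_of_natDegree_eq_zero h2⟩
  -- the Taylor expansion of the product
  have hPrt : Pr = Polynomial.taylor (X τ : Bx) ((E T).map C) := by
    rw [Polynomial.taylor_apply, E, Polynomial.map_prod, Polynomial.prod_comp, hPr]
    refine Finset.prod_congr rfl fun η _ => ?_
    rw [Polynomial.map_sub, Polynomial.map_X, Polynomial.map_C, Polynomial.sub_comp,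
      Polynomial.X_comp, Polynomial.C_comp, map_sub]
    ring
  have hae : ∀ f : Polynomial ℂ, Polynomial.aeval (X τ : Bx) f = (f.map C).eval (X τ) := by
    intro f
    rw [Polynomial.eval_map, Polynomial.aeval_def]
    rfl
  have c0 : Polynomial.aeval (X τ : Bx) (E T) * lam = coeff (Finsupp.single j b) G * s ^ b := by
    have h1 := congrArg (fun f => Polynomial.coeff f 0) hlam
    simp only [Polynomial.coeff_mul_C] at h1
    rw [hPrt, Polynomial.taylor_coeff_zero, ← hae] at h1
    rw [← h1, hR, Polynomial.finsetSum_coeff]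
    by_cases hg : coeff (Finsupp.single j b) G = 0
    · rw [hg, zero_mul]
      apply Finset.sum_eq_zero
      intro m hm
      have hm' := mem_support_iff.mp hm
      rw [Polynomial.coeff_C_mul_X_pow, if_neg]
      intro h0
      apply hm'
      have hmj : m = Finsupp.single j b := by
        have h2 := hdeg m hm'
        ext l
        rcases succ_cases hστ l with h3 | h3 | h3
        · subst h3; simp [Finsupp.single_apply, hj0]; omega
        · rw [h3, ← hi]; simp [Finsupp.single_apply, hij.symm]; omega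
        · rw [h3, ← hj, Finsupp.single_eq_same]; omega
      rw [hmj]; exact hg
    · rw [Finset.sum_eq_single (Finsupp.single j b)]
      · rw [Polynomial.coeff_C_mul_X_pow, if_pos (by simp [Finsupp.single_apply, hj0, hij.symm])]
        simp [Finsupp.single_apply, hj0]
      · intro m hm hmm
        have hm' := mem_support_iff.mp hm
        rw [Polynomial.coeff_C_mul_X_pow, if_neg]
        intro h0
        apply hmm
        have h2 := hdeg m hm'
        ext l
        rcases succ_cases hστ l with h3 | h3 | h3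
        · subst h3; simp [Finsupp.single_apply, hj0]; omega
        · rw [h3, ← hi]; simp [Finsupp.single_apply, hij.symm]; omega
        · rw [h3, ← hj, Finsupp.single_eq_same]; omega
      · intro h; exact absurd (mem_support_iff.mpr hg) h
  have c1 : Polynomial.aeval (X τ : Bx) (E T).derivative * lam =
      coeff (Finsupp.single 0 1 + Finsupp.single j (b - 1)) G * s ^ b +
      coeff (Finsupp.single i 1 + Finsupp.single j (b - 1)) G * s ^ (b - 1) := by
    have h1 := congrArg (fun f => Polynomial.coeff f 1) hlam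
    simp only [Polynomial.coeff_mul_C] at h1
    rw [hPrt, Polynomial.taylor_coeff_one, Polynomial.derivative_map, ← hae] at h1
    rw [← h1, hR, Polynomial.finsetSum_coeff]
    have hne : (Finsupp.single 0 1 + Finsupp.single j (b - 1) : Fin 3 →₀ ℕ) ≠
        Finsupp.single i 1 + Finsupp.single j (b - 1) := by
      intro h
      have := DFunLike.congr_fun h 0
      simp [Finsupp.single_apply, hi0, hj0] at this
    have hsub : ∑ m ∈ G.support, (Polynomial.C (coeff m G * s ^ (m 0 + m j)) *
        Polynomial.X ^ (m 0 + m i)).coeff 1 =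
        ∑ m ∈ ({Finsupp.single 0 1 + Finsupp.single j (b - 1),
          Finsupp.single i 1 + Finsupp.single j (b - 1)} : Finset (Fin 3 →₀ ℕ)),
          (coeff m G * s ^ (m 0 + m j)) := by
      have h3 : ∀ m ∈ G.support, (Polynomial.C (coeff m G * s ^ (m 0 + m j)) *
        Polynomial.X ^ (m 0 + m i)).coeff 1 =
          if m ∈ ({Finsupp.single 0 1 + Finsupp.single j (b - 1),
          Finsupp.single i 1 + Finsupp.single j (b - 1)} : Finset (Fin 3 →₀ ℕ)) then
            (coeff m G * s ^ (m 0 + m j)) else 0 := by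
        intro m hm
        have h2 := hdeg m (mem_support_iff.mp hm)
        rw [Polynomial.coeff_C_mul_X_pow]
        by_cases h4 : 1 = m 0 + m i
        · rw [if_pos h4, if_pos]
          rw [Finset.mem_insert, Finset.mem_singleton]
          rcases (by omega : (m 0 = 1 ∧ m i = 0) ∨ (m 0 = 0 ∧ m i = 1)) with h5 | h5
          · left
            ext l
            rcases succ_cases hστ l with h3 | h3 | h3
            · subst h3; simp [Finsupp.single_apply, hj0]; omega
            · rw [h3, ← hi]; simp [Finsupp.single_apply, hij.symm, hi0.symm]; omega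
            · rw [h3, ← hj]; simp [Finsupp.single_apply, hj0.symm]; omega
          · right
            ext l
            rcases succ_cases hστ l with h3 | h3 | h3
            · subst h3; simp [Finsupp.single_apply, hj0, hi0]; omega
            · rw [h3, ← hi]; simp [Finsupp.single_apply, hij.symm]; omega
            · rw [h3, ← hj]; simp [Finsupp.single_apply, hij]; omega
        · rw [if_neg h4, if_neg]
          intro h5
          rw [Finset.mem_insert, Finset.mem_singleton] at h5
          apply h4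
          rcases h5 with h5 | h5
          · rw [h5]; simp [Finsupp.single_apply, hj0, hij.symm, hi0.symm]
          · rw [h5]; simp [Finsupp.single_apply, hj0, hij.symm, hi0]
      rw [Finset.sum_congr rfl h3, ← Finset.sum_filter]
      apply Finset.sum_subset
      · intro m hm
        exact (Finset.mem_filter.mp hm).2
      · intro m hm hm2
        rw [Finset.mem_filter, not_and_or] at hm2
        rcases hm2 with h4 | h4
        · rw [notMem_support_iff.mp h4, zero_mul]
        · exact absurd hm h4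
    rw [hsub, Finset.sum_pair hne]
    congr 2
    · congr 1
      simp [Finsupp.single_apply, hj0, hj0.symm]
      omega
    · congr 1
      simp [Finsupp.single_apply, hj0, hi0, hij]
  have hsb : s ^ b = s ^ (b - 1) * s := by
    rw [← pow_succ]; congr 1; omega
  rw [hsb] at c0 c1
  apply mul_left_cancel₀ (pow_ne_zero (b - 1) hs0)
  linear_combination (Polynomial.aeval (X τ : Bx) (E T)) * c1 -
    (Polynomial.aeval (X τ : Bx) (E T).derivative) * c0

/-- any two of three fibres coincide -/
theorem fibre_eq {G : Ax} {b : ℕ} {σ τ : Fin 2} (hστ : σ ≠ τ) (hG : G.IsHomogeneous b)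
    (hb : 1 ≤ b) (hg : coeff (Finsupp.single τ.succ b) G ≠ 0)
    {ξ₁ ξ₂ ξ₃ : ℂ} (h12 : ξ₁ ≠ ξ₂) (h32 : ξ₃ ≠ ξ₂) {T₁ T₂ T₃ : Finset ℂ}
    (hT₁ : T₁.card = b) (hT₂ : T₂.card = b) (hT₃ : T₃.card = b)
    (hv₁ : ∀ η ∈ T₁, ∃ ζ : Fin 2 → ℂ, ζ σ = ξ₁ ∧ ζ τ = η ∧ eval (wk ζ) G = 0)
    (hv₂ : ∀ η ∈ T₂, ∃ ζ : Fin 2 → ℂ, ζ σ = ξ₂ ∧ ζ τ = η ∧ eval (wk ζ) G = 0)
    (hv₃ : ∀ η ∈ T₃, ∃ ζ : Fin 2 → ℂ, ζ σ = ξ₃ ∧ ζ τ = η ∧ eval (wk ζ) G = 0) :
    T₁ ⊆ T₃ := by
  have k1 := fibre_poly hστ hG hb ξ₁ T₁ hT₁ hv₁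
  have k2 := fibre_poly hστ hG hb ξ₂ T₂ hT₂ hv₂
  have k3 := fibre_poly hστ hG hb ξ₃ T₃ hT₃ hv₃
  set g := coeff (Finsupp.single τ.succ b) G
  set gw := coeff (Finsupp.single 0 1 + Finsupp.single τ.succ (b - 1)) G
  set gu := coeff (Finsupp.single σ.succ 1 + Finsupp.single τ.succ (b - 1)) G
  set e1 : Bx := Polynomial.aeval (X τ : Bx) (E T₁)
  set e2 : Bx := Polynomial.aeval (X τ : Bx) (E T₂)
  set e3 : Bx := Polynomial.aeval (X τ : Bx) (E T₃)
  set d1 : Bx := Polynomial.aeval (X τ : Bx) (E T₁).derivative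
  set d2 : Bx := Polynomial.aeval (X τ : Bx) (E T₂).derivative
  set d3 : Bx := Polynomial.aeval (X τ : Bx) (E T₃).derivative
  have hkey : (C ξ₂ - C ξ₃) * (C ξ₁ - X σ) * d1 * e2 * e3 +
      (C ξ₃ - C ξ₁) * (C ξ₂ - X σ) * d2 * e1 * e3 +
      (C ξ₁ - C ξ₂) * (C ξ₃ - X σ) * d3 * e1 * e2 = 0 := by
    apply mul_left_cancel₀ hg
    linear_combination (C ξ₂ - C ξ₃) * e2 * e3 * k1 + (C ξ₃ - C ξ₁) * e1 * e3 * k2 +
      (C ξ₁ - C ξ₂) * e1 * e2 * k3
  -- specialize
  set ψ : Bx →ₐ[ℂ] Polynomial ℂ := aeval (fun l => if l = σ then Polynomial.C ξ₂ else Polynomial.X)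
    with hψ
  have hψσ : ψ (X σ) = Polynomial.C ξ₂ := by rw [hψ, aeval_X, if_pos rfl]
  have hψτ : ψ (X τ) = Polynomial.X := by rw [hψ, aeval_X, if_neg hστ.symm]
  have hψC : ∀ c : ℂ, ψ (C c) = Polynomial.C c := fun c => by rw [hψ, aeval_C]; rfl
  have hψa : ∀ f : Polynomial ℂ, ψ (Polynomial.aeval (X τ : Bx) f) = f := by
    intro f
    rw [← Polynomial.aeval_algHom_apply, hψτ, Polynomial.aeval_X_left_apply]
  have h2 := congrArg ψ hkey
  simp only [map_add, map_mul, map_sub, hψσ, hψC, map_zero] at h2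
  rw [hψa, hψa, hψa, hψa, hψa, hψa] at h2
  have h3 : (Polynomial.C ξ₂ - Polynomial.C ξ₃) * (Polynomial.C ξ₁ - Polynomial.C ξ₂) * E T₂ *
      ((E T₁).derivative * E T₃ - (E T₃).derivative * E T₁) = 0 := by
    linear_combination h2
  have h4 : (Polynomial.C ξ₂ - Polynomial.C ξ₃) * (Polynomial.C ξ₁ - Polynomial.C ξ₂) * E T₂ ≠ 0 := by
    refine mul_ne_zero (mul_ne_zero ?_ ?_) (E_ne _)
    · rw [← Polynomial.C_sub]
      exact Polynomial.C_ne_zero.mpr (sub_ne_zero.mpr h32.symm)
    · rw [← Polynomial.C_sub]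
      exact Polynomial.C_ne_zero.mpr (sub_ne_zero.mpr h12)
  exact E_sub (sub_eq_zero.mp ((mul_eq_zero.mp h3).resolve_left h4))

end Pool.Agent.H371R3.GQ
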