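import Pool.Agent.H371R3.GQ.C4

set_option autoImplicit false
set_option linter.unusedSectionVars false
set_option linter.unusedSimpArgs false
open MvPolynomial

namespace Pool.Agent.H371R3.GQ

theorem CI.symm {k : Type} [Field k] [Infinite k] {ι : Type} [Fintype ι]
    {v : ι → Fin 3 → k} {F G : MvPolynomial (Fin 3) k} {a b : ℕ} (h : CI v F G a b) :
    CI v G F b a where
  hv := h.hv
  hw := h.hw
  hF := h.hG
  hG := h.hF
  hF0 := h.hG0
  hG0 := h.hF0
  hcop := h.hcop.symm
  hFv := h.hGv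
  hGv := h.hFv
  hcard := by rw [h.hcard, mul_comm]

section
variable {ι : Type} [Fintype ι] {z : ι → Fin 2 → ℂ} {F G : Ax} {a : ℕ}

/-- monomials -/
noncomputable def mon (i j : Fin 3) (n p q : ℕ) : Fin 3 →₀ ℕ :=
  Finsupp.single 0 n + Finsupp.single i p + Finsupp.single j q

lemma mon_0 {i j : Fin 3} (hi : i ≠ 0) (hj : j ≠ 0) (n p q : ℕ) : mon i j n p q 0 = n := by
  simp [mon, Finsupp.single_apply, hi, hj]

lemma mon_i {i j : Fin 3} (hi : i ≠ 0) (hij : i ≠ j) (n p q : ℕ) : mon i j n p q i = p := by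
  simp [mon, Finsupp.single_apply, hi.symm, hij.symm]

lemma mon_j {i j : Fin 3} (hj : j ≠ 0) (hij : i ≠ j) (n p q : ℕ) : mon i j n p q j = q := by
  simp [mon, Finsupp.single_apply, hj.symm, hij]

/-- coefficients of the basic equation -/
lemma basic_coeff2 {R : Type} [CommRing R] {σ τ : Fin 2} (hστ : σ ≠ τ)
    {L M : MvPolynomial (Fin 3) R} (hL : L.IsHomogeneous 1) (hM : M.IsHomogeneous 1)
    {N P H H' : MvPolynomial (Fin 3) R}
    (h : X 0 * N + X σ.succ ^ 2 * pderiv σ.succ P = L * H + M * H') (n p q : ℕ) :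
    (if n = 0 then 0 else coeff (mon σ.succ τ.succ (n - 1) p q) N) +
      (if p = 0 then 0 else ((p - 1 : ℕ) : R) * coeff (mon σ.succ τ.succ n (p - 1) q) P) =
    ((if n = 0 then 0 else coeff (Finsupp.single 0 1) L * coeff (mon σ.succ τ.succ (n - 1) p q) H) +
      (if p = 0 then 0 else coeff (Finsupp.single σ.succ 1) L *
        coeff (mon σ.succ τ.succ n (p - 1) q) H) +
      (if q = 0 then 0 else coeff (Finsupp.single τ.succ 1) L *
        coeff (mon σ.succ τ.succ n p (q - 1)) H)) +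
    ((if n = 0 then 0 else coeff (Finsupp.single 0 1) M * coeff (mon σ.succ τ.succ (n - 1) p q) H') +
      (if p = 0 then 0 else coeff (Finsupp.single σ.succ 1) M *
        coeff (mon σ.succ τ.succ n (p - 1) q) H') +
      (if q = 0 then 0 else coeff (Finsupp.single τ.succ 1) M *
        coeff (mon σ.succ τ.succ n p (q - 1)) H')) := by
  set i := σ.succ with hi
  set j := τ.succ with hj
  have hi0 : i ≠ 0 := Fin.succ_ne_zero _
  have hj0 : j ≠ 0 := Fin.succ_ne_zero _
  have hij : i ≠ j := succ_ne hστ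
  have hsum : ∀ f : Fin 3 → R, ∑ l, f l = f 0 + f i + f j := by
    intro f
    rw [Fin.sum_univ_three]
    fin_cases σ <;> fin_cases τ
    · exact absurd rfl hστ
    · rfl
    · change f 0 + f 1 + f 2 = f 0 + f 2 + f 1
      ring
    · exact absurd rfl hστ
  have m0 : ∀ n p q, mon i j n p q 0 = n := mon_0 hi0 hj0
  have mi : ∀ n p q, mon i j n p q i = p := mon_i hi0 hij
  have mj : ∀ n p q, mon i j n p q j = q := mon_j hj0 hij
  have ext3 : ∀ m m' : Fin 3 →₀ ℕ, m 0 = m' 0 → m i = m' i → m j = m' j → m = m' := by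
    intro m m' h0 h1 h2
    ext l
    rcases succ_cases hστ l with h3 | h3 | h3
    · rw [h3]; exact h0
    · rw [h3, ← hi]; exact h1
    · rw [h3, ← hj]; exact h2
  have e0 : ∀ n p q, mon i j n p q - Finsupp.single 0 1 = mon i j (n - 1) p q := by
    intro n p q
    apply ext3 <;> simp [m0, mi, mj, Finsupp.single_apply, hi0.symm, hj0.symm]
  have e1 : ∀ n p q, mon i j n p q - Finsupp.single i 1 = mon i j n (p - 1) q := by
    intro n p q
    apply ext3 <;> simp [m0, mi, mj, Finsupp.single_apply, hi0, hij]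
  have e2 : ∀ n p q, mon i j n p q - Finsupp.single j 1 = mon i j n p (q - 1) := by
    intro n p q
    apply ext3 <;> simp [m0, mi, mj, Finsupp.single_apply, hj0, hij.symm]
  have cl : ∀ (L : MvPolynomial (Fin 3) R) (_ : L.IsHomogeneous 1) (P : MvPolynomial (Fin 3) R),
      coeff (mon i j n p q) (L * P) =
      (if n = 0 then 0 else coeff (Finsupp.single 0 1) L * coeff (mon i j (n - 1) p q) P) +
      (if p = 0 then 0 else coeff (Finsupp.single i 1) L * coeff (mon i j n (p - 1) q) P) +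
      (if q = 0 then 0 else coeff (Finsupp.single j 1) L * coeff (mon i j n p (q - 1)) P) := by
    intro L hL P
    rw [coeff_lin_mul hL, hsum, e0, e1, e2]
    simp only [Finsupp.mem_support_iff, m0, mi, mj, ne_eq, ite_not]
  have h1 := congrArg (coeff (mon i j n p q)) h
  rw [coeff_add, coeff_add, cl L hL, cl M hM, coeff_X_mul', e0] at h1
  simp only [Finsupp.mem_support_iff, m0, ne_eq, ite_not] at h1
  have h2 : coeff (mon i j n p q) (X i ^ 2 * pderiv i P) =
      if p = 0 then 0 else ((p - 1 : ℕ) : R) * coeff (mon i j n (p - 1) q) P := by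
    split_ifs with hp
    · exact coeff_D2_zero _ _ _ (by rw [mi]; exact hp)
    · have h3 : mon i j n p q = mon i j n (p - 1) q + Finsupp.single i 1 := by
        apply ext3 <;> simp [m0, mi, mj, Finsupp.single_apply, hi0, hij]
        omega
      rw [h3, coeff_D2_succ, mi]
  rw [h2] at h1
  exact h1

/-- second stage -/
theorem stage2 {σ τ : Fin 2} (hστ : σ ≠ τ) {H H' : Ax} (ha : 2 ≤ a)
    (h : CI (fun i => wK (z i)) (ph H) (ph H') a a) (hH : H.IsHomogeneous a)
    (hHv : ∀ i, eval (wk (z i)) H = 0)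
    (htop : ∀ p q, (p, q) ≠ (a, 0) → coeff (mon σ.succ τ.succ 0 p q) (ph H) = 0)
    (htop' : ∀ p q, (p, q) ≠ (0, a) → coeff (mon σ.succ τ.succ 0 p q) (ph H') = 0)
    (hκ : coeff (mon σ.succ τ.succ 0 a 0) (ph H) ≠ 0)
    (hκ' : coeff (mon σ.succ τ.succ 0 0 a) (ph H') ≠ 0) :
    ∀ m, coeff m H ≠ 0 → m τ.succ = 0 := by
  obtain ⟨L, M, hL, -, hM, -, hLM⟩ := h.Dmem hH hHv σ
  obtain ⟨L', M', hL', -, hM', -, hLM'⟩ := h.Dmem hH hHv τ
  rw [show a + 1 - a = 1 by omega] at hL hM hL' hM'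
  rw [ph_Dx] at hLM hLM'
  have hb := basic_coeff2 hστ hL hM hLM
  have hb' := basic_coeff2 hστ.symm hL' hM' hLM'
  have hswap : ∀ n p q, mon τ.succ σ.succ n q p = mon σ.succ τ.succ n p q := by
    intro n p q
    unfold mon
    rw [add_assoc, add_assoc, add_comm (Finsupp.single τ.succ q)]
  simp only [hswap] at hb'
  obtain ⟨a', rfl⟩ : ∃ a', a = a' + 2 := ⟨a - 2, by omega⟩
  -- top part of the `τ`-derivative
  have t1 := hb' 0 0 (a' + 3)
  have t2 := hb' 0 1 (a' + 2)
  have t3 := hb' 0 (a' + 2) 1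
  have t4 := hb' 0 (a' + 3) 0
  have s1 := hb 0 (a' + 3) 0
  have s2 := hb 0 (a' + 2) 1
  have s3 := hb 0 1 (a' + 2)
  have s4 := hb 0 0 (a' + 3)
  simp [htop, htop'] at t1 t2 t3 t4 s1 s2 s3 s4
  have u1 := hb' 1 (a' + 2) 0
  have u2 := hb 1 1 (a' + 1)
  simp [htop, htop'] at u1 u2
  replace t2 := t2.resolve_right hκ
  replace t3 := t3.resolve_right hκ'
  replace t4 := t4.resolve_right hκ'
  replace s1 := s1.resolve_right hκ
  replace s2 := s2.resolve_right hκ
  replace s3 := s3.resolve_right hκ'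
  replace s4 := s4.resolve_right hκ'
  rw [coeff_pcf σ _ (htop _ _ (by simp)), ← s1, s2, s3, s4] at u2
  have hh : coeff (mon σ.succ τ.succ 1 0 (a' + 1)) (ph H) = 0 := by
    have h1 : ((a' : Kx) + 2) * coeff (mon σ.succ τ.succ 1 0 (a' + 1)) (ph H) = 0 := by
      linear_combination -u2
    have h2 : ((a' : Kx) + 2) ≠ 0 := by
      have : ((a' + 2 : ℕ) : Kx) ≠ 0 := Nat.cast_ne_zero.mpr (by omega)
      push_cast at this
      exact this
    exact (mul_eq_zero.mp h1).resolve_left h2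
  rw [coeff_pcf τ _ (htop _ _ (by simp)), hh, t2, t4] at u1
  have hM0 : coeff (Finsupp.single 0 1) M' = 0 := by
    have h1 : coeff (Finsupp.single 0 1) M' * coeff (mon σ.succ τ.succ 0 0 (a' + 2)) (ph H') = 0 := by
      linear_combination -u1
    exact (mul_eq_zero.mp h1).resolve_right hκ'
  have hM'0 : M' = 0 := by
    rw [lin_eq hM']
    apply Finset.sum_eq_zero
    intro l _
    rcases succ_cases hστ l with h3 | h3 | h3
    · rw [h3, hM0, C_0, zero_mul]
    · rw [h3, t3, C_0, zero_mul]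
    · rw [h3, t4, C_0, zero_mul]
  rw [hM'0, zero_mul, add_zero] at hLM'
  have hH0 : H ≠ 0 := by
    rintro rfl
    exact h.hF0 (map_zero _)
  have hsuppne : (ph H).support.Nonempty := ⟨_, mem_support_iff.mpr hκ⟩
  obtain ⟨m0, hm0, hmax⟩ := Finset.exists_max_image (ph H).support (fun m => m τ.succ) hsuppne
  have hT := T1 τ.succ (Fin.succ_ne_zero _) hL' (fun m hm => coeff_pcf τ m hm) hLM' m0
    (mem_support_iff.mp hm0) (fun m' hm' => hmax m' (mem_support_iff.mpr hm'))
  rw [t2] at hT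
  have h0 : m0 τ.succ = 0 := by exact_mod_cast hT.symm
  intro m hm
  have hm' : coeff m (ph H) ≠ 0 := by
    rw [coeff_ph]
    intro h1
    exact hm (alg_inj (by rw [h1, map_zero]))
  have := hmax m (mem_support_iff.mpr hm')
  omega

lemma mon_ext {σ τ : Fin 2} (hστ : σ ≠ τ) (m : Fin 3 →₀ ℕ) :
    m = mon σ.succ τ.succ (m 0) (m σ.succ) (m τ.succ) := by
  have hij : σ.succ ≠ τ.succ := succ_ne hστ
  ext l
  rcases succ_cases hστ l with h3 | h3 | h3
  · rw [h3, mon_0 (Fin.succ_ne_zero _) (Fin.succ_ne_zero _)]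
  · rw [h3, mon_i (Fin.succ_ne_zero _) hij]
  · rw [h3, mon_j (Fin.succ_ne_zero _) hij]

lemma mon_deg {R : Type} [CommRing R] {σ τ : Fin 2} (hστ : σ ≠ τ) {P : MvPolynomial (Fin 3) R}
    {e : ℕ} (hP : P.IsHomogeneous e) (n p q : ℕ) (h : n + p + q ≠ e) :
    coeff (mon σ.succ τ.succ n p q) P = 0 := by
  apply hP.coeff_eq_zero
  rw [sum_three hστ, mon_0 (Fin.succ_ne_zero _) (Fin.succ_ne_zero _),
    mon_i (Fin.succ_ne_zero _) (succ_ne hστ), mon_j (Fin.succ_ne_zero _) (succ_ne hστ)]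
  exact h

lemma euler_st {R : Type} [CommRing R] {σ τ : Fin 2} (hστ : σ ≠ τ)
    {P : MvPolynomial (Fin 3) R} {e : ℕ} (hP : P.IsHomogeneous e) :
    X 0 * pderiv 0 P + X σ.succ * pderiv σ.succ P + X τ.succ * pderiv τ.succ P =
      (e : MvPolynomial (Fin 3) R) * P := by
  rw [← euler hP]
  fin_cases σ <;> fin_cases τ
  · exact absurd rfl hστ
  · rfl
  · change X 0 * pderiv 0 P + X 2 * pderiv 2 P + X 1 * pderiv 1 P =
      X 0 * pderiv 0 P + X 1 * pderiv 1 P + X 2 * pderiv 2 P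
    ring
  · exact absurd rfl hστ

lemma pi0_succ {R : Type} [CommRing R] (σ : Fin 2) :
    pi0 (X σ.succ : MvPolynomial (Fin 3) R) = X σ.succ := by
  fin_cases σ
  · exact pi0_X1
  · exact pi0_X2

lemma eval_pi0_lin {R : Type} [CommRing R] {σ τ : Fin 2} (hστ : σ ≠ τ)
    {L : MvPolynomial (Fin 3) R} (hL : L.IsHomogeneous 1) (v : Fin 3 → R) :
    eval v (pi0 L) = coeff (Finsupp.single σ.succ 1) L * v σ.succ +
      coeff (Finsupp.single τ.succ 1) L * v τ.succ := by
  rw [pi0_of_hom_one hL]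
  simp only [map_add, map_mul, eval_C, eval_X]
  fin_cases σ <;> fin_cases τ
  · exact absurd rfl hστ
  · rfl
  · change coeff (Finsupp.single 1 1) L * v 1 + coeff (Finsupp.single 2 1) L * v 2 =
      coeff (Finsupp.single 2 1) L * v 2 + coeff (Finsupp.single 1 1) L * v 1
    ring
  · exact absurd rfl hστ

theorem CI.syz_low {k : Type} [Field k] [Infinite k] {ι : Type} [Fintype ι]
    {v : ι → Fin 3 → k} {F G A B : MvPolynomial (Fin 3) k} {a e : ℕ} (h : CI v F G a a) (ha : 1 ≤ a)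
    (he : e < a) (hA : A.IsHomogeneous e)
    (hAB : pi0 A * pi0 F + pi0 B * pi0 G = 0) : pi0 A = 0 ∧ pi0 B = 0 := by
  obtain ⟨c, hc, h1, h2⟩ := h.syz hAB
  have hg : pi0 G ≠ 0 := fun h0 => h.symm.not_dvd_F ha le_rfl (dvd_of_pi0 h0)
  have hc0 : c = 0 := by
    by_contra hne
    have h3 : pi0 A ≠ 0 := by rw [h1]; exact mul_ne_zero hne hg
    have h4 := (pi0_hom hA).totalDegree h3
    rw [h1, totalDegree_mul_of_isDomain hne hg, (pi0_hom h.hG).totalDegree hg] at h4
    omega
  rw [h1, h2, hc0]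
  simp

lemma eig {k : Type} [Field k] {A11 A12 A21 A22 x y p : k} (h1 : p * x = A11 * x + A12 * y)
    (h2 : p * y = A21 * x + A22 * y) (hne : ¬ (x = 0 ∧ y = 0)) :
    (A11 - p) * (A22 - p) = A12 * A21 := by
  by_contra hd
  apply hne
  have e1 : ((A11 - p) * (A22 - p) - A12 * A21) * x = 0 := by
    linear_combination (-(A22 - p)) * h1 + A12 * h2
  have e2 : ((A11 - p) * (A22 - p) - A12 * A21) * y = 0 := by
    linear_combination (A21) * h1 - (A11 - p) * h2
  have h3 : (A11 - p) * (A22 - p) - A12 * A21 ≠ 0 := sub_ne_zero.mpr hd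
  exact ⟨(mul_eq_zero.mp e1).resolve_left h3, (mul_eq_zero.mp e2).resolve_left h3⟩

theorem mat_aux {v : ι → Fin 3 → Kx} {F G P L M L' M' N N' : MvPolynomial (Fin 3) Kx} {i j : Fin 3}
    (hij : i ≠ j) (ha : 3 ≤ a) (h : CI v F G a a) (x y : Kx)
    (hpi : pi0 (X i : MvPolynomial (Fin 3) Kx) = X i)
    (hpj : pi0 (X j : MvPolynomial (Fin 3) Kx) = X j)
    (hL : L.IsHomogeneous 1) (hM : M.IsHomogeneous 1) (hL' : L'.IsHomogeneous 1)
    (hM' : M'.IsHomogeneous 1)
    (h₁ : X 0 * N + X i ^ 2 * pderiv i P = L * F + M * G)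
    (h₁' : X 0 * N' + X j ^ 2 * pderiv j P = L' * F + M' * G)
    (he : X 0 * pderiv 0 P + X i * pderiv i P + X j * pderiv j P =
      (a : MvPolynomial (Fin 3) Kx) * P)
    (hxy : P = C x * F + C y * G)
    (hlin : ∀ L : MvPolynomial (Fin 3) Kx, L.IsHomogeneous 1 → ∀ v : Fin 3 → Kx,
      eval v (pi0 L) = coeff (Finsupp.single i 1) L * v i + coeff (Finsupp.single j 1) L * v j) :
    coeff (Finsupp.single j 1) L = 0 ∧ coeff (Finsupp.single j 1) M = 0 := by
  have k₁ := congrArg pi0 h₁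
  have k₁' := congrArg pi0 h₁'
  have ke := congrArg pi0 he
  have kx := congrArg pi0 hxy
  simp only [map_add, map_mul, map_pow, pi0_X0, hpi, hpj, pi0_C, zero_mul, zero_add,
    map_natCast] at k₁ k₁' ke kx
  have hs := h.syz_low (A := X j * L + X i * L' -
      C ((a : Kx) * x) * (X i * X j)) (B := X j * M + X i * M' -
      C ((a : Kx) * y) * (X i * X j)) (e := 2) (by omega) (by omega)
    (by
      refine IsHomogeneous.sub (IsHomogeneous.add ?_ ?_) (IsHomogeneous.C_mul ?_ _)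
      · exact (isHomogeneous_X Kx j).mul hL
      · exact (isHomogeneous_X Kx i).mul hL'
      · exact (isHomogeneous_X Kx i).mul (isHomogeneous_X Kx j))
    (by
      have hCa : (C (a : Kx) : MvPolynomial (Fin 3) Kx) = (a : MvPolynomial (Fin 3) Kx) := by simp
      simp only [map_add, map_sub, map_mul, map_pow, pi0_X0, hpi, hpj, pi0_C, hCa, map_natCast]
      linear_combination (-X j) * k₁ - X i * k₁' + X i * X j * ke +
        (a : MvPolynomial (Fin 3) Kx) * X i * X j * kx)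
  obtain ⟨hs1, hs2⟩ := hs
  have v1 := congrArg (eval (Pi.single j (1 : Kx))) hs1
  have v2 := congrArg (eval (Pi.single j (1 : Kx))) hs2
  simp only [map_add, map_sub, map_mul, map_pow, pi0_X0, hpi, hpj, pi0_C, map_zero, eval_X,
    eval_C, hlin L hL, hlin L' hL', hlin M hM,
    hlin M' hM', Pi.single_eq_same, Pi.single_eq_of_ne hij, mul_zero, zero_mul,
    mul_one, one_mul, add_zero, zero_add, sub_zero] at v1 v2
  exact ⟨v1, v2⟩

/-- matrix of the derivation on top forms -/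
theorem CI.mat {σ τ : Fin 2} (hστ : σ ≠ τ) (ha : 3 ≤ a)
    (h : CI (fun i => wK (z i)) (ph F) (ph G) a a) {P : Ax} (hP : P.IsHomogeneous a)
    (hPv : ∀ i, eval (wk (z i)) P = 0) (x y : Kx)
    (hxy : ph P = C x * ph F + C y * ph G) :
    ∃ A B : Kx, ∀ p q : ℕ, (p : Kx) * coeff (mon σ.succ τ.succ 0 p q) (ph P) =
      A * coeff (mon σ.succ τ.succ 0 p q) (ph F) + B * coeff (mon σ.succ τ.succ 0 p q) (ph G) := by
  obtain ⟨L, M, hL, -, hM, -, h₁⟩ := h.Dmem hP hPv σ
  obtain ⟨L', M', hL', -, hM', -, h₁'⟩ := h.Dmem hP hPv τ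
  rw [show a + 1 - a = 1 by omega] at hL hM hL' hM'
  rw [ph_Dx] at h₁ h₁'
  obtain ⟨v1, v2⟩ := mat_aux (i := σ.succ) (j := τ.succ) (succ_ne hστ) ha h x y (pi0_succ σ)
    (pi0_succ τ) hL hM hL' hM' h₁ h₁' (euler_st hστ (ph_hom hP)) hxy
    (fun L hL v => eval_pi0_lin hστ hL v)
  refine ⟨coeff (Finsupp.single σ.succ 1) L, coeff (Finsupp.single σ.succ 1) M, ?_⟩
  intro p q
  have hb := basic_coeff2 hστ hL hM h₁ 0 (p + 1) q
  simp only [if_true, Nat.add_sub_cancel, if_neg (Nat.succ_ne_zero p), v1, v2, zero_mul,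
    ite_self, add_zero, zero_add] at hb
  exact hb

open Classical in
/-- the case of two forms of the same degree -/
theorem caseAA (ha : 3 ≤ a) (hF : F.IsHomogeneous a)
    (hG : G.IsHomogeneous a) (hFv : ∀ i, eval (wk (z i)) F = 0) (hGv : ∀ i, eval (wk (z i)) G = 0)
    (h : CI (fun i => wK (z i)) (ph F) (ph G) a a) (σ : Fin 2) :
    (Finset.univ.image (fun k => z k σ)).card ≤ a := by
  obtain ⟨τ, hστ⟩ : ∃ τ : Fin 2, σ ≠ τ := by fin_cases σ; exacts [⟨1, by decide⟩, ⟨0, by decide⟩]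
  obtain ⟨A11, A12, hA1⟩ := h.mat hστ ha hF hFv 1 0 (by simp)
  obtain ⟨A21, A22, hA2⟩ := h.mat hστ ha hG hGv 0 1 (by simp)
  have hi0 : σ.succ ≠ 0 := Fin.succ_ne_zero _
  have hj0 : τ.succ ≠ 0 := Fin.succ_ne_zero _
  have hij : σ.succ ≠ τ.succ := succ_ne hστ
  set c : ℕ → ℕ → Ax → Bx := fun p q P => coeff (mon σ.succ τ.succ 0 p q) P with hc
  have hcK : ∀ p q P, coeff (mon σ.succ τ.succ 0 p q) (ph P) = algebraMap Bx Kx (c p q P) :=
    fun p q P => coeff_ph _ _
  -- nonvanishing at the ends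
  have n0 : ¬ (coeff (mon σ.succ τ.succ 0 0 a) (ph F) = 0 ∧
      coeff (mon σ.succ τ.succ 0 0 a) (ph G) = 0) := by
    rintro ⟨h1, h2⟩
    have key : ∀ P : Ax, P.IsHomogeneous a → coeff (mon σ.succ τ.succ 0 0 a) (ph P) = 0 →
        X σ.succ ∣ pi0 (ph P) := by
      intro P hP h3
      apply X_dvd_of
      intro m hm
      rw [coeff_pi0]
      split_ifs with hm0
      · rw [mon_ext hστ m, hm0, hm]
        by_cases h4 : m τ.succ = a
        · rw [h4]; exact h3
        · exact mon_deg hστ (ph_hom hP) _ _ _ (by omega)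
      · rfl
    exact h.not_both σ.succ hi0 (key F hF h1) (key G hG h2)
  have na : ¬ (coeff (mon σ.succ τ.succ 0 a 0) (ph F) = 0 ∧
      coeff (mon σ.succ τ.succ 0 a 0) (ph G) = 0) := by
    rintro ⟨h1, h2⟩
    have key : ∀ P : Ax, P.IsHomogeneous a → coeff (mon σ.succ τ.succ 0 a 0) (ph P) = 0 →
        X τ.succ ∣ pi0 (ph P) := by
      intro P hP h3
      apply X_dvd_of
      intro m hm
      rw [coeff_pi0]
      split_ifs with hm0
      · rw [mon_ext hστ m, hm0, hm]
        by_cases h4 : m σ.succ = a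
        · rw [h4]; exact h3
        · exact mon_deg hστ (ph_hom hP) _ _ _ (by omega)
      · rfl
    exact h.not_both τ.succ hj0 (key F hF h1) (key G hG h2)
  have hdet0 := eig (hA1 0 a) (hA2 0 a) n0
  have hdeta := eig (hA1 a 0) (hA2 a 0) na
  have haK : (a : Kx) ≠ 0 := Nat.cast_ne_zero.mpr (by omega)
  have htr : A11 + A22 = a := by
    apply mul_left_cancel₀ haK
    rw [Nat.cast_zero] at hdet0
    linear_combination hdet0 - hdeta
  have hmid : ∀ p q, p ≠ 0 → p ≠ a → coeff (mon σ.succ τ.succ 0 p q) (ph F) = 0 ∧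
      coeff (mon σ.succ τ.succ 0 p q) (ph G) = 0 := by
    intro p q hp hpa
    by_contra hne
    have h1 := eig (hA1 p q) (hA2 p q) hne
    have h2 : (p : Kx) * ((p : Kx) - a) = 0 := by
      rw [Nat.cast_zero] at hdet0
      linear_combination h1 - hdet0 + (p : Kx) * htr
    rcases mul_eq_zero.mp h2 with h3 | h3
    · exact hp (by exact_mod_cast h3)
    · exact hpa (by exact_mod_cast sub_eq_zero.mp h3)
  -- the two combinations
  set H : Ax := C (c 0 a G) * F - C (c 0 a F) * G with hH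
  set H' : Ax := C (c a 0 G) * F - C (c a 0 F) * G with hH'
  have hHh : H.IsHomogeneous a := (hF.C_mul _).sub (hG.C_mul _)
  have hH'h : H'.IsHomogeneous a := (hF.C_mul _).sub (hG.C_mul _)
  have hHv : ∀ i, eval (wk (z i)) H = 0 := fun i => by
    rw [hH, map_sub, map_mul, map_mul, hFv, hGv, mul_zero, mul_zero, sub_zero]
  have hH'v : ∀ i, eval (wk (z i)) H' = 0 := fun i => by
    rw [hH', map_sub, map_mul, map_mul, hFv, hGv, mul_zero, mul_zero, sub_zero]
  have hphH : ph H = C (algebraMap Bx Kx (c 0 a G)) * ph F - C (algebraMap Bx Kx (c 0 a F)) * ph G := by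
    rw [hH, map_sub, map_mul, map_mul, ph_C, ph_C]
  have hphH' : ph H' = C (algebraMap Bx Kx (c a 0 G)) * ph F -
      C (algebraMap Bx Kx (c a 0 F)) * ph G := by
    rw [hH', map_sub, map_mul, map_mul, ph_C, ph_C]
  set f0 := algebraMap Bx Kx (c 0 a F) with hf0
  set g0 := algebraMap Bx Kx (c 0 a G) with hg0
  set fa := algebraMap Bx Kx (c a 0 F) with hfa
  set ga := algebraMap Bx Kx (c a 0 G) with hga
  rw [hcK, hcK] at n0 na
  have hA10 := hA1 0 a
  have hA20 := hA2 0 a
  have hA1a := hA1 a 0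
  have hA2a := hA2 a 0
  rw [hcK, hcK, Nat.cast_zero, zero_mul] at hA10
  rw [hcK, hcK, Nat.cast_zero, zero_mul] at hA20
  rw [hcK, hcK] at hA1a
  rw [hcK, hcK] at hA2a
  rw [← hf0, ← hg0] at n0 hA10 hA20
  rw [← hfa, ← hga] at na hA1a hA2a
  have hκ : g0 * fa - f0 * ga ≠ 0 := by
    intro h0
    have e1 : (a : Kx) * (fa * f0) = 0 := by
      linear_combination f0 * hA1a - fa * hA10 - A12 * h0
    have e2 : (a : Kx) * (fa * g0) = 0 := by
      linear_combination g0 * hA1a - ga * hA10 + A11 * h0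
    have e3 : (a : Kx) * (ga * f0) = 0 := by
      linear_combination f0 * hA2a - fa * hA20 - A22 * h0
    have e4 : (a : Kx) * (ga * g0) = 0 := by
      linear_combination g0 * hA2a - ga * hA20 + A21 * h0
    replace e1 := (mul_eq_zero.mp e1).resolve_left haK
    replace e2 := (mul_eq_zero.mp e2).resolve_left haK
    replace e3 := (mul_eq_zero.mp e3).resolve_left haK
    replace e4 := (mul_eq_zero.mp e4).resolve_left haK
    apply n0
    by_cases h5 : fa = 0
    · have h6 : ga ≠ 0 := fun h7 => na ⟨h5, h7⟩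
      exact ⟨(mul_eq_zero.mp e3).resolve_left h6, (mul_eq_zero.mp e4).resolve_left h6⟩
    · exact ⟨(mul_eq_zero.mp e1).resolve_left h5, (mul_eq_zero.mp e2).resolve_left h5⟩
  have htop : ∀ p q, (p, q) ≠ (a, 0) → coeff (mon σ.succ τ.succ 0 p q) (ph H) = 0 := by
    intro p q hpq
    by_cases hd : 0 + p + q = a
    · by_cases hp : p = 0
      · have hq : q = a := by omega
        subst hp; subst hq
        rw [hphH, coeff_sub, coeff_C_mul, coeff_C_mul, hcK, hcK, ← hf0, ← hg0]
        ring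
      · have hpa : p ≠ a := by
          rintro rfl
          apply hpq
          rw [show q = 0 by omega]
        rw [hphH, coeff_sub, coeff_C_mul, coeff_C_mul, (hmid p q hp hpa).1, (hmid p q hp hpa).2]
        ring
    · exact mon_deg hστ (ph_hom hHh) _ _ _ hd
  have htop' : ∀ p q, (p, q) ≠ (0, a) → coeff (mon σ.succ τ.succ 0 p q) (ph H') = 0 := by
    intro p q hpq
    by_cases hd : 0 + p + q = a
    · by_cases hp : p = a
      · have hq : q = 0 := by omega
        subst hp; subst hq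
        rw [hphH', coeff_sub, coeff_C_mul, coeff_C_mul, hcK, hcK, ← hfa, ← hga]
        ring
      · have hpa : p ≠ 0 := by
          rintro rfl
          apply hpq
          rw [show q = a by omega]
        rw [hphH', coeff_sub, coeff_C_mul, coeff_C_mul, (hmid p q hpa hp).1, (hmid p q hpa hp).2]
        ring
    · exact mon_deg hστ (ph_hom hH'h) _ _ _ hd
  have hk1 : coeff (mon σ.succ τ.succ 0 a 0) (ph H) ≠ 0 := by
    rw [hphH, coeff_sub, coeff_C_mul, coeff_C_mul, hcK, hcK, ← hfa, ← hga]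
    exact hκ
  have hk2 : coeff (mon σ.succ τ.succ 0 0 a) (ph H') ≠ 0 := by
    rw [hphH', coeff_sub, coeff_C_mul, coeff_C_mul, hcK, hcK, ← hf0, ← hg0]
    intro h0
    apply hκ
    linear_combination -h0
  have hphH0 : ph H ≠ 0 := by
    intro h0
    apply hk1; rw [h0, coeff_zero]
  have hphH'0 : ph H' ≠ 0 := by
    intro h0
    apply hk2; rw [h0, coeff_zero]
  have hrelF : C (g0 * fa - f0 * ga) * ph F = C fa * ph H - C f0 * ph H' := by
    rw [hphH, hphH']
    simp only [C_sub, C_mul]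
    ring
  have hrelG : C (g0 * fa - f0 * ga) * ph G = C ga * ph H - C g0 * ph H' := by
    rw [hphH, hphH']
    simp only [C_sub, C_mul]
    ring
  have hu : IsUnit (C (g0 * fa - f0 * ga) : MvPolynomial (Fin 3) Kx) :=
    (isUnit_iff_ne_zero.mpr hκ).map C
  have hCI : CI (fun i => wK (z i)) (ph H) (ph H') a a :=
    { hv := h.hv
      hw := h.hw
      hF := ph_hom hHh
      hG := ph_hom hH'h
      hF0 := hphH0
      hG0 := hphH'0
      hcop := by
        intro δ h1 h2
        apply h.hcop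
        · rw [← hu.dvd_mul_left, hrelF]
          exact dvd_sub (Dvd.dvd.mul_left h1 _) (Dvd.dvd.mul_left h2 _)
        · rw [← hu.dvd_mul_left, hrelG]
          exact dvd_sub (Dvd.dvd.mul_left h1 _) (Dvd.dvd.mul_left h2 _)
      hFv := fun i => by rw [eval_ph, hHv, map_zero]
      hGv := fun i => by rw [eval_ph, hH'v, map_zero]
      hcard := h.hcard }
  have hsupp := stage2 hστ (by omega) hCI hHh hHv htop htop' hk1 hk2
  have hH0 : H ≠ 0 := by
    intro h0
    exact hphH0 (by rw [h0, map_zero])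
  exact image_le hστ hHh hH0 hHv hsupp

end

end Pool.Agent.H371R3.GQ
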