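import Pool.Agent.H371R3.GQ.C5

set_option autoImplicit false
set_option linter.unusedSectionVars false
set_option linter.unusedSimpArgs false
open MvPolynomial

namespace Pool.Agent.H371R3.GQ

section
variable {ι : Type} [Fintype ι] {z : ι → Fin 2 → ℂ} {a b : ℕ}

lemma fin2_ext {σ τ : Fin 2} (h : σ ≠ τ) {ζ ζ' : Fin 2 → ℂ} (h1 : ζ σ = ζ' σ) (h2 : ζ τ = ζ' τ) :
    ζ = ζ' := by
  funext l
  have : l = σ ∨ l = τ := by fin_cases σ <;> fin_cases τ <;> fin_cases l <;> simp_all
  rcases this with h3 | h3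
  · rw [h3]; exact h1
  · rw [h3]; exact h2

/-- the set of points is a product -/
def IsProd (z : ι → Fin 2 → ℂ) : Prop :=
  ∃ S T : Finset ℂ, ∀ ζ : Fin 2 → ℂ, (∃ k, z k = ζ) ↔ ζ 0 ∈ S ∧ ζ 1 ∈ T

lemma isProd_of {σ τ : Fin 2} (h : σ ≠ τ) (S T : Finset ℂ)
    (hST : ∀ ζ : Fin 2 → ℂ, (∃ k, z k = ζ) ↔ ζ σ ∈ S ∧ ζ τ ∈ T) : IsProd z := by
  fin_cases σ <;> fin_cases τ
  · exact absurd rfl h
  · exact ⟨S, T, hST⟩
  · refine ⟨T, S, fun ζ => ?_⟩
    rw [hST ζ, and_comm]
    rfl
  · exact absurd rfl h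

open Classical in
/-- two lines with `b` points each -/
def IsTwo (z : ι → Fin 2 → ℂ) (b : ℕ) : Prop :=
  ∃ σ : Fin 2, (Finset.univ.image (fun k => z k σ)).card = 2 ∧
    ∀ ξ ∈ Finset.univ.image (fun k => z k σ), (Finset.univ.filter (fun k => z k σ = ξ)).card = b

theorem mainK (hz : Function.Injective z) (hB : BB z b) (hcard : Fintype.card ι = a * b)
    (ha : 2 ≤ a) (hab : a ≤ b) {F G : Ax} (hF : F.IsHomogeneous a) (hG : G.IsHomogeneous b)
    (hF0 : F ≠ 0) (hFG : ∀ s : Bx, s ≠ 0 → ¬ F ∣ C s * G)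
    (hFv : ∀ i, eval (wk (z i)) F = 0) (hGv : ∀ i, eval (wk (z i)) G = 0)
    (hsp : Submodule.span ℂ (Set.range fun k : ι =>
      (![z k 0 * z k 1, z k 0, z k 1, 1] : Fin 4 → ℂ)) = ⊤) :
    IsProd z ∨ IsTwo z b ∨ Fintype.card ι = 4 := by
  classical
  obtain ⟨F', G', hF', hG', hF'0, hG'0, hrel, hF'v, hG'v⟩ :=
    coprime_forms z hz hab hB hcard hF hG hF0 hFG hFv hGv
  have hCI := mkCI z hz hcard hF' hG' hF'0 hG'0 hrel hF'v hG'v
  rcases hab.eq_or_lt with h | h
  · subst h
    by_cases ha3 : 3 ≤ a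
    · left
      have h0 := caseAA ha3 hF' hG' hF'v hG'v hCI 0
      have h1 := caseAA ha3 hF' hG' hF'v hG'v hCI 1
      set S := Finset.univ.image (fun k => z k 0) with hS
      set T := Finset.univ.image (fun k => z k 1) with hT
      set I := Finset.univ.image (fun k => (z k 0, z k 1)) with hI
      have hsub : I ⊆ S ×ˢ T := by
        intro x hx
        rw [hI, Finset.mem_image] at hx
        obtain ⟨k, -, rfl⟩ := hx
        rw [Finset.mem_product]
        exact ⟨Finset.mem_image_of_mem _ (Finset.mem_univ k),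
          Finset.mem_image_of_mem _ (Finset.mem_univ k)⟩
      have hIc : I.card = a * a := by
        rw [hI, Finset.card_image_of_injective, Finset.card_univ, hcard]
        intro k l hkl
        rw [Prod.mk.injEq] at hkl
        exact hz (fin2_ext (σ := 0) (τ := 1) (by decide) hkl.1 hkl.2)
      have heq : I = S ×ˢ T := by
        apply Finset.eq_of_subset_of_card_le hsub
        rw [hIc, Finset.card_product]
        exact Nat.mul_le_mul h0 h1
      refine ⟨S, T, fun ζ => ?_⟩
      constructor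
      · rintro ⟨k, rfl⟩
        exact ⟨Finset.mem_image_of_mem _ (Finset.mem_univ k),
          Finset.mem_image_of_mem _ (Finset.mem_univ k)⟩
      · rintro ⟨h3, h4⟩
        have h5 : (ζ 0, ζ 1) ∈ I := by rw [heq, Finset.mem_product]; exact ⟨h3, h4⟩
        rw [hI, Finset.mem_image] at h5
        obtain ⟨k, -, hk⟩ := h5
        rw [Prod.mk.injEq] at hk
        exact ⟨k, fin2_ext (σ := 0) (τ := 1) (by decide) hk.1 hk.2⟩
    · right; right
      have : a = 2 := by omega
      rw [hcard, this]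
  · obtain ⟨σ, τ, hστ, hsupp, hg⟩ := hCI.caseAB ha h hF' hG' hF'v hG'v hsp
    have him := image_le hστ hF' hF'0 hF'v (fun m hm => hsupp m (by
      rw [coeff_ph]
      intro h1
      exact hm (alg_inj (by rw [h1, map_zero]))))
    obtain ⟨hS, hfib⟩ := fibres hB (by omega) hcard σ him
    by_cases ha3 : 3 ≤ a
    · left
      have hg' : coeff (Finsupp.single τ.succ b) G' ≠ 0 := by
        intro h1
        apply hg
        rw [coeff_ph, h1, map_zero]
      set S := Finset.univ.image (fun k => z k σ) with hSdef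
      set T : ℂ → Finset ℂ := fun ξ => (Finset.univ.filter (fun k => z k σ = ξ)).image
        (fun k => z k τ) with hT
      have hTc : ∀ ξ ∈ S, (T ξ).card = b := by
        intro ξ hξ
        rw [hT, ← hfib ξ hξ]
        apply Finset.card_image_of_injOn
        intro k hk l hl hkl
        simp only [Finset.coe_filter, Finset.mem_univ, true_and, Set.mem_setOf_eq] at hk hl
        exact hz (fin2_ext hστ (by rw [hk, hl]) hkl)
      have hTv : ∀ ξ, ∀ η ∈ T ξ, ∃ ζ : Fin 2 → ℂ, ζ σ = ξ ∧ ζ τ = η ∧ eval (wk ζ) G' = 0 := by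
        intro ξ η hη
        rw [hT, Finset.mem_image] at hη
        obtain ⟨k, hk, hk2⟩ := hη
        rw [Finset.mem_filter] at hk
        exact ⟨z k, hk.2, hk2, hG'v k⟩
      have hsub : ∀ ξ₁ ∈ S, ∀ ξ₃ ∈ S, T ξ₁ ⊆ T ξ₃ := by
        intro ξ₁ h1 ξ₃ h3
        obtain ⟨ξ₂, h2, h21, h23⟩ : ∃ ξ₂ ∈ S, ξ₂ ≠ ξ₁ ∧ ξ₂ ≠ ξ₃ := by
          by_contra hne
          push Not at hne
          have : S ⊆ {ξ₁, ξ₃} := by
            intro x hx
            rw [Finset.mem_insert, Finset.mem_singleton]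
            by_cases hx1 : x = ξ₁
            · exact Or.inl hx1
            · exact Or.inr (hne x hx hx1)
          have h4 := Finset.card_le_card this
          have h5 := Finset.card_le_two (a := ξ₁) (b := ξ₃)
          omega
        exact fibre_eq hστ hG' (by omega) hg' h21.symm h23.symm (hTc _ h1) (hTc _ h2) (hTc _ h3)
          (hTv _) (hTv _) (hTv _)
      have hSne : S.Nonempty := by
        rw [← Finset.card_pos]; omega
      obtain ⟨ξ₀, hξ₀⟩ := hSne
      apply isProd_of hστ S (T ξ₀)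
      intro ζ
      constructor
      · rintro ⟨k, rfl⟩
        have h6 : z k σ ∈ S := Finset.mem_image_of_mem _ (Finset.mem_univ k)
        refine ⟨h6, hsub _ h6 _ hξ₀ ?_⟩
        rw [hT, Finset.mem_image]
        exact ⟨k, Finset.mem_filter.mpr ⟨Finset.mem_univ k, rfl⟩, rfl⟩
      · rintro ⟨h6, h7⟩
        have h8 := hsub _ hξ₀ _ h6 h7
        rw [hT, Finset.mem_image] at h8
        obtain ⟨k, hk, hk2⟩ := h8
        exact ⟨k, fin2_ext hστ (Finset.mem_filter.mp hk).2 hk2⟩
    · right; left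
      have : a = 2 := by omega
      exact ⟨σ, by rw [hS, this], hfib⟩

end

end Pool.Agent.H371R3.GQ
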