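import Pool.Agent.H371R3.GQ.B4

set_option autoImplicit false
set_option linter.unusedSectionVars false
set_option linter.unusedSimpArgs false
open MvPolynomial

namespace Pool.Agent.H371R3.GQ

/-- polynomials of bounded bidegree -/
noncomputable def Bi (m n : ℕ) : Submodule ℂ Bx := restrictSupport ℂ {d : Fin 2 →₀ ℕ | d 0 ≤ m ∧ d 1 ≤ n}

lemma mem_Bi {m n : ℕ} {P : Bx} : P ∈ Bi m n ↔ degreeOf 0 P ≤ m ∧ degreeOf 1 P ≤ n := by
  rw [Bi, mem_restrictSupport_iff, degreeOf_le_iff, degreeOf_le_iff]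
  constructor
  · intro h
    exact ⟨fun d hd => (h hd).1, fun d hd => (h hd).2⟩
  · intro h d hd
    exact ⟨h.1 d hd, h.2 d hd⟩

lemma finrank_Bi (m n : ℕ) : Module.finrank ℂ (Bi m n) = (m + 1) * (n + 1) := by
  classical
  let e : {d : Fin 2 →₀ ℕ | d 0 ≤ m ∧ d 1 ≤ n} ≃ Fin (m + 1) × Fin (n + 1) :=
    { toFun := fun d => (⟨d.1 0, Nat.lt_succ_of_le d.2.1⟩, ⟨d.1 1, Nat.lt_succ_of_le d.2.2⟩)
      invFun := fun x => ⟨Finsupp.single 0 x.1.1 + Finsupp.single 1 x.2.1, by
        have h1 := x.1.2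
        have h2 := x.2.2
        constructor
        · simp; omega
        · simp; omega⟩
      left_inv := by
        rintro ⟨d, hd⟩
        apply Subtype.ext
        ext l
        fin_cases l <;> simp
      right_inv := by
        rintro ⟨x, y⟩
        simp }
  have h := (basisRestrictSupport ℂ {d : Fin 2 →₀ ℕ | d 0 ≤ m ∧ d 1 ≤ n}).reindex e
  have h2 := Module.finrank_eq_card_basis h
  rw [Fintype.card_prod, Fintype.card_fin, Fintype.card_fin] at h2
  exact h2

instance (m n : ℕ) : Module.Finite ℂ (Bi m n) := by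
  have h : (basisRestrictSupport ℂ {d : Fin 2 →₀ ℕ | d 0 ≤ m ∧ d 1 ≤ n}) =
    (basisRestrictSupport ℂ {d : Fin 2 →₀ ℕ | d 0 ≤ m ∧ d 1 ≤ n}) := rfl
  haveI : Finite {d : Fin 2 →₀ ℕ | d 0 ≤ m ∧ d 1 ≤ n} := by
    apply Finite.of_injective
      (fun d : {d : Fin 2 →₀ ℕ | d 0 ≤ m ∧ d 1 ≤ n} =>
        ((⟨d.1 0, Nat.lt_succ_of_le d.2.1⟩, ⟨d.1 1, Nat.lt_succ_of_le d.2.2⟩) :
          Fin (m + 1) × Fin (n + 1)))
    intro d d' hdd
    simp only [Prod.mk.injEq, Fin.mk.injEq] at hdd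
    apply Subtype.ext
    ext l
    fin_cases l
    · exact hdd.1
    · exact hdd.2
  exact Module.Finite.of_basis (basisRestrictSupport ℂ {d : Fin 2 →₀ ℕ | d 0 ≤ m ∧ d 1 ≤ n})

/-- evaluation of bidegree-bounded polynomials -/
noncomputable def evb {ι : Type} (v : ι → Fin 2 → ℂ) (m n : ℕ) : Bi m n →ₗ[ℂ] (ι → ℂ) :=
  LinearMap.pi (fun i => (MvPolynomial.aeval (v i)).toLinearMap.comp (Bi m n).subtype)

lemma evb_apply {ι : Type} (v : ι → Fin 2 → ℂ) (m n : ℕ) (f : Bi m n) (i : ι) :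
    evb v m n f i = eval (v i) (f : Bx) := by
  change (MvPolynomial.aeval (v i)) (f : Bx) = _
  rw [MvPolynomial.aeval_eq_eval]

theorem exists_sepb {ι : Type} [Fintype ι] [DecidableEq ι] (v : ι → Fin 2 → ℂ)
    (hv : Function.Injective v) (i : ι) :
    ∃ f : Bx, f ∈ Bi (Fintype.card ι) (Fintype.card ι) ∧ eval (v i) f = 1 ∧
      ∀ j, j ≠ i → eval (v j) f = 0 := by
  have hex : ∀ j, ∃ l : Fin 2, j ≠ i → v j l ≠ v i l := by
    intro j
    by_cases hj : j = i
    · exact ⟨0, fun h => absurd hj h⟩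
    · have : v j ≠ v i := fun h => hj (hv h)
      obtain ⟨l, hl⟩ := Function.ne_iff.mp this
      exact ⟨l, fun _ => hl⟩
  choose l hl using hex
  set f : Bx := ∏ j ∈ Finset.univ.erase i, (X (l j) - C (v j (l j))) with hf
  have hdeg : ∀ t : Fin 2, degreeOf t f ≤ Fintype.card ι := by
    intro t
    rw [hf]
    refine (degreeOf_prod_le _ _ _).trans ?_
    calc ∑ j ∈ Finset.univ.erase i, degreeOf t (X (l j) - C (v j (l j)) : Bx)
        ≤ ∑ j ∈ Finset.univ.erase i, 1 := by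
          apply Finset.sum_le_sum
          intro j _
          refine (degreeOf_sub_le _ _ _).trans ?_
          rw [degreeOf_C, degreeOf_X]
          split_ifs <;> simp
      _ ≤ Fintype.card ι := by
          rw [Finset.sum_const, smul_eq_mul, mul_one]
          exact (Finset.card_erase_le).trans (le_of_eq Finset.card_univ)
  have hne : eval (v i) f ≠ 0 := by
    rw [hf, map_prod]
    apply Finset.prod_ne_zero_iff.mpr
    intro j hj
    rw [map_sub, eval_X, eval_C]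
    exact sub_ne_zero.mpr (hl j (Finset.ne_of_mem_erase hj)).symm
  refine ⟨C (eval (v i) f)⁻¹ * f, ?_, ?_, ?_⟩
  · rw [mem_Bi]
    constructor
    · refine (degreeOf_mul_le _ _ _).trans ?_
      rw [degreeOf_C, zero_add]; exact hdeg 0
    · refine (degreeOf_mul_le _ _ _).trans ?_
      rw [degreeOf_C, zero_add]; exact hdeg 1
  · rw [map_mul, eval_C, inv_mul_cancel₀ hne]
  · intro j hj
    have hz : eval (v j) f = 0 := by
      rw [hf, map_prod]
      apply Finset.prod_eq_zero (Finset.mem_erase.mpr ⟨hj, Finset.mem_univ j⟩)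
      simp
    rw [map_mul, hz, mul_zero]

lemma Bi_mono {m n m' n' : ℕ} (h1 : m ≤ m') (h2 : n ≤ n') : Bi m n ≤ Bi m' n' := by
  intro P hP
  rw [mem_Bi] at hP ⊢
  exact ⟨hP.1.trans h1, hP.2.trans h2⟩

theorem evb_surj {ι : Type} [Fintype ι] (v : ι → Fin 2 → ℂ)
    (hv : Function.Injective v) (m n : ℕ) (hm : Fintype.card ι ≤ m) (hn : Fintype.card ι ≤ n) :
    LinearMap.range (evb v m n) = ⊤ := by
  classical
  rw [LinearMap.range_eq_top]
  intro c
  choose f hf1 hf2 hf3 using exists_sepb v hv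
  have hmem : ∀ i, f i ∈ Bi m n := fun i => Bi_mono hm hn (hf1 i)
  refine ⟨∑ i, c i • (⟨f i, hmem i⟩ : Bi m n), ?_⟩
  funext j
  rw [map_sum, Finset.sum_apply]
  have h1 : ∀ i, (evb v m n) (c i • (⟨f i, hmem i⟩ : Bi m n)) j = c i * eval (v j) (f i) := by
    intro i
    rw [map_smul, Pi.smul_apply, evb_apply, smul_eq_mul]
  simp only [h1]
  rw [Finset.sum_eq_single j]
  · rw [hf2, mul_one]
  · intro i _ hij
    rw [hf3 i j (Ne.symm hij), mul_zero]
  · simp

lemma mul_mem_Bi {P Q : Bx} {m n m' n' : ℕ} (hP : P ∈ Bi m n) (hQ : Q ∈ Bi m' n') :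
    P * Q ∈ Bi (m + m') (n + n') := by
  rw [mem_Bi] at hP hQ ⊢
  exact ⟨(degreeOf_mul_le _ _ _).trans (Nat.add_le_add hP.1 hQ.1),
    (degreeOf_mul_le _ _ _).trans (Nat.add_le_add hP.2 hQ.2)⟩

/-- Bezout in bidegrees -/
theorem bezout_bi {ι : Type} [Fintype ι] (v : ι → Fin 2 → ℂ) (hv : Function.Injective v)
    {P Q : Bx} (hP0 : P ≠ 0) (hQ0 : Q ≠ 0) (hcop : IsRelPrime P Q)
    (hPv : ∀ i, eval (v i) P = 0) (hQv : ∀ i, eval (v i) Q = 0) :
    Fintype.card ι ≤ degreeOf 0 P * degreeOf 1 Q + degreeOf 0 Q * degreeOf 1 P := by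
  classical
  set c1 := degreeOf 0 P with hc1
  set d1 := degreeOf 1 P with hd1
  set c2 := degreeOf 0 Q with hc2
  set d2 := degreeOf 1 Q with hd2
  set s := Fintype.card ι with hs
  have hP : P ∈ Bi c1 d1 := mem_Bi.mpr ⟨le_rfl, le_rfl⟩
  have hQ : Q ∈ Bi c2 d2 := mem_Bi.mpr ⟨le_rfl, le_rfl⟩
  have h1 := LinearMap.finrank_range_add_finrank_ker (evb v (c1 + c2 + s) (d1 + d2 + s))
  rw [evb_surj v hv _ _ (by omega) (by omega), finrank_top, Module.finrank_fintype_fun_eq_card,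
    finrank_Bi, ← hs] at h1
  let Φ : (Bi (c2 + s) (d2 + s) × Bi (c1 + s) (d1 + s)) →ₗ[ℂ] Bx :=
    (LinearMap.mulRight ℂ P ∘ₗ (Bi (c2 + s) (d2 + s)).subtype).coprod
      (LinearMap.mulRight ℂ Q ∘ₗ (Bi (c1 + s) (d1 + s)).subtype)
  have hΦ : ∀ x, Φ x = (x.1 : Bx) * P + (x.2 : Bx) * Q := by
    intro x
    simp [Φ, LinearMap.coprod_apply]
  have h2 := LinearMap.finrank_range_add_finrank_ker Φ
  rw [Module.finrank_prod, finrank_Bi, finrank_Bi] at h2
  have h3 : Module.finrank ℂ (LinearMap.ker Φ) ≤ (s + 1) * (s + 1) := by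
    rw [← finrank_Bi]
    let Ψ : Bi s s →ₗ[ℂ] (Bi (c2 + s) (d2 + s) × Bi (c1 + s) (d1 + s)) :=
      LinearMap.prod
        (LinearMap.codRestrict _ (LinearMap.mulLeft ℂ Q ∘ₗ Submodule.subtype _) (fun x => by
          exact mul_mem_Bi hQ x.2))
        (LinearMap.codRestrict _ (LinearMap.mulLeft ℂ (-P) ∘ₗ Submodule.subtype _) (fun x => by
          exact mul_mem_Bi (Submodule.neg_mem _ hP) x.2))
    have hker : LinearMap.ker Φ ≤ LinearMap.range Ψ := by
      rintro ⟨⟨x, hx⟩, ⟨y, hy⟩⟩ hxy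
      rw [LinearMap.mem_ker, hΦ] at hxy
      simp only at hxy
      have hdvd : Q ∣ x := by
        have : Q ∣ x * P := ⟨-y, by linear_combination hxy⟩
        exact hcop.symm.dvd_of_dvd_mul_right this
      obtain ⟨c, hc⟩ := hdvd
      have hcm : c ∈ Bi s s := by
        by_cases hc0 : c = 0
        · rw [hc0]; exact Submodule.zero_mem _
        · rw [mem_Bi, hc, degreeOf_mul_eq hQ0 hc0, degreeOf_mul_eq hQ0 hc0] at hx
          rw [mem_Bi]
          constructor
          · have := hx.1; omega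
          · have := hx.2; omega
      refine ⟨⟨c, hcm⟩, ?_⟩
      have hy' : y = -P * c := by
        have : Q * (y + P * c) = 0 := by
          rw [hc] at hxy
          linear_combination hxy
        have := (mul_eq_zero.mp this).resolve_left hQ0
        linear_combination this
      refine Prod.ext (Subtype.ext ?_) (Subtype.ext ?_)
      · change Q * c = x
        exact hc.symm
      · change -P * c = y
        exact hy'.symm
    exact (Submodule.finrank_mono hker).trans (LinearMap.finrank_range_le Ψ)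
  have h4 : LinearMap.range Φ ≤ (LinearMap.ker (evb v (c1 + c2 + s) (d1 + d2 + s))).map
      (Bi _ _).subtype := by
    rintro _ ⟨⟨⟨x, hx⟩, ⟨y, hy⟩⟩, rfl⟩
    rw [hΦ]
    have e1 := mul_mem_Bi hx hP
    have e2 := mul_mem_Bi hy hQ
    rw [show c2 + s + c1 = c1 + c2 + s by ring, show d2 + s + d1 = d1 + d2 + s by ring] at e1
    rw [show c1 + s + c2 = c1 + c2 + s by ring, show d1 + s + d2 = d1 + d2 + s by ring] at e2
    refine ⟨⟨x * P + y * Q, Submodule.add_mem _ e1 e2⟩, ?_, rfl⟩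
    rw [SetLike.mem_coe, LinearMap.mem_ker]
    funext i
    rw [evb_apply]
    simp only [map_add, map_mul, hPv, hQv, mul_zero, add_zero, Pi.zero_apply]
  have h6 := Submodule.finrank_mono h4
  rw [Submodule.finrank_map_subtype_eq] at h6
  have h7 : (c1 + c2 + s + 1) * (d1 + d2 + s + 1) + (s + 1) * (s + 1) =
      (c2 + s + 1) * (d2 + s + 1) + (c1 + s + 1) * (d1 + s + 1) + (c1 * d2 + c2 * d1) := by ring
  omega

end Pool.Agent.H371R3.GQ
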