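import Pool.Agent.H371R3.GQ.D1

set_option autoImplicit false
set_option linter.unusedSectionVars false
set_option linter.unusedSimpArgs false
open MvPolynomial

namespace Pool.Agent.H371R3.GQ

/-- an irreducible polynomial in two variables has infinitely many zeros -/
theorem zero_infinite (Φ : Bx) (h : Irreducible Φ)
    (hfin : {v : Fin 2 → ℂ | eval v Φ = 0}.Finite) : False := by
  classical
  have hp : Prime Φ := h.prime
  have key : ∀ l : Fin 2, ∃ c : ℂ, Φ ∣ X l - C c := by
    intro l
    set Ψ : Bx := ∏ v ∈ hfin.toFinset, (X l - C (v l)) with hΨ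
    have hmem : Ψ ∈ vanishingIdeal ℂ (zeroLocus ℂ (Ideal.span {Φ})) := by
      rw [mem_vanishingIdeal_iff]
      intro x hx
      rw [mem_zeroLocus_iff] at hx
      have h1 := hx Φ (Ideal.subset_span rfl)
      rw [aeval_eq_eval] at h1 ⊢
      change eval x Φ = 0 at h1
      change eval x Ψ = 0
      rw [hΨ, map_prod]
      apply Finset.prod_eq_zero (i := x)
      · rw [Set.Finite.mem_toFinset]
        exact h1
      · simp
    rw [vanishingIdeal_zeroLocus_eq_radical] at hmem
    obtain ⟨n, hn⟩ := hmem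
    rw [Ideal.mem_span_singleton] at hn
    have h2 := hp.dvd_of_dvd_pow hn
    rw [hΨ, hp.dvd_finsetProd_iff] at h2
    obtain ⟨v, -, hv⟩ := h2
    exact ⟨v l, hv⟩
  have hdeg : ∀ l l' : Fin 2, l' ≠ l → degreeOf l' Φ = 0 := by
    intro l l' hll
    obtain ⟨c, x, hx⟩ := key l
    have hne : (X l - C c : Bx) ≠ 0 := by
      intro h0
      apply sub_X_ne c l
      rw [← neg_sub, h0, neg_zero]
    have h1 : degreeOf l' (X l - C c : Bx) = 0 := by
      have : degreeOf l' (X l - C c : Bx) ≤ 0 := by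
        refine (degreeOf_sub_le _ _ _).trans ?_
        rw [degreeOf_C, degreeOf_X, if_neg hll]
        simp
      omega
    rw [hx] at hne
    rw [hx, degreeOf_mul_eq (left_ne_zero_of_mul hne) (right_ne_zero_of_mul hne)] at h1
    omega
  have h0 := hdeg 1 0 (by decide)
  have h1 := hdeg 0 1 (by decide)
  have hm : Φ ∈ Bi 0 0 := mem_Bi.mpr ⟨h0.le, h1.le⟩
  have hC : Φ = C (coeff 0 Φ) := by
    ext m
    rw [coeff_C]
    split_ifs with hm0
    · rw [hm0]
    · by_contra hne
      apply hm0
      have h2 : m ∈ Φ.support := mem_support_iff.mpr hne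
      rw [Bi, mem_restrictSupport_iff] at hm
      have h3 := hm h2
      ext l
      have h4 := h3.1
      have h5 := h3.2
      fin_cases l
      · change 0 = m 0; omega
      · change 0 = m 1; omega
  rw [hC] at h
  by_cases hc : coeff 0 Φ = 0
  · rw [hc, C_0] at h
    exact h.ne_zero rfl
  · exact h.not_isUnit ((isUnit_iff_ne_zero.mpr hc).map C)

/-- two polynomials with finitely many common zeros give the Bezout bound -/
theorem BB_of {ι : Type} [Fintype ι] (z : ι → Fin 2 → ℂ) (hz : Function.Injective z) {b : ℕ}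
    {P Q : Bx} (hP : P ∈ Bi b b) (hQ : Q ∈ Bi b b)
    (hPv : ∀ i, eval (z i) P = 0) (hQv : ∀ i, eval (z i) Q = 0)
    (hfin : {v : Fin 2 → ℂ | eval v P = 0 ∧ eval v Q = 0}.Finite) : BB z b := by
  classical
  have hpr : ∀ Φ : Bx, Prime Φ → cnt (fun k => eval (z k) Φ = 0) ≤
      b * (degreeOf 0 Φ + degreeOf 1 Φ) := by
    intro Φ hΦ
    have hnd : ∃ R : Bx, R ≠ 0 ∧ R ∈ Bi b b ∧ (∀ i, eval (z i) R = 0) ∧ ¬ Φ ∣ R := by
      by_contra hne
      push Not at hne
      have hne' : ∀ R : Bx, R ∈ Bi b b → (∀ i, eval (z i) R = 0) → Φ ∣ R := by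
        intro R h1 h2
        by_cases h0 : R = 0
        · rw [h0]; exact dvd_zero _
        · exact hne R h0 h1 h2
      have h1 := hne' P hP hPv
      have h2 := hne' Q hQ hQv
      apply zero_infinite Φ hΦ.irreducible
      apply hfin.subset
      intro v hv
      rw [Set.mem_setOf_eq] at hv ⊢
      obtain ⟨x, hx⟩ := h1
      obtain ⟨y, hy⟩ := h2
      rw [hx, hy, map_mul, map_mul, hv, zero_mul, zero_mul]
      exact ⟨rfl, rfl⟩
    obtain ⟨R, hR0, hR, hRv, hΦR⟩ := hnd
    have hrel : IsRelPrime Φ R := (hΦ.irreducible.isRelPrime_iff_not_dvd).mpr hΦR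
    have h3 := bezout_bi (ι := {k // eval (z k) Φ = 0}) (fun k => z k.1)
      (fun i j hij => Subtype.ext (hz hij)) hΦ.ne_zero hR0 hrel (fun i => i.2) (fun i => hRv i.1)
    rw [cnt_sub] at h3
    rw [mem_Bi] at hR
    calc _ ≤ _ := h3
      _ ≤ degreeOf 0 Φ * b + b * degreeOf 1 Φ :=
        Nat.add_le_add (Nat.mul_le_mul le_rfl hR.2) (Nat.mul_le_mul hR.1 le_rfl)
      _ = _ := by ring
  have hall : ∀ Φ : Bx, Φ ≠ 0 → cnt (fun k => eval (z k) Φ = 0) ≤
      b * (degreeOf 0 Φ + degreeOf 1 Φ) := by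
    intro Φ
    induction Φ using UniqueFactorizationMonoid.induction_on_prime with
    | h₁ => intro h0; exact absurd rfl h0
    | h₂ x hx =>
      intro _
      rw [cnt_zero]
      · exact Nat.zero_le _
      · intro k hk
        exact (hx.map (eval (z k))).ne_zero hk
    | h₃ x π hx hπ ih =>
      intro h0
      have k1 := hpr π hπ
      have k2 := ih hx
      have k3 : cnt (fun k => eval (z k) (π * x) = 0) ≤
          cnt (fun k => eval (z k) π = 0) + cnt (fun k => eval (z k) x = 0) := by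
        apply cnt_or
        intro k hk
        rw [map_mul] at hk
        exact mul_eq_zero.mp hk
      rw [degreeOf_mul_eq hπ.ne_zero hx, degreeOf_mul_eq hπ.ne_zero hx]
      calc _ ≤ _ := k3
        _ ≤ _ := Nat.add_le_add k1 k2
        _ = _ := by ring
  intro Φ hΦ c d hc hd
  exact (hall Φ hΦ).trans (Nat.mul_le_mul le_rfl (Nat.add_le_add hc hd))

end Pool.Agent.H371R3.GQ
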