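import Pool.Agent.H371R3.GQ.B1

set_option autoImplicit false
set_option linter.unusedSectionVars false
set_option linter.unusedSimpArgs false
open MvPolynomial

namespace Pool.Agent.H371R3.GQ

theorem hcomp_prod {R : Type} [CommRing R] [IsDomain R] {σ : Type} (A F : MvPolynomial σ R) (n : ℕ) :
    homogeneousComponent n (A * F) = ∑ x ∈ Finset.HasAntidiagonal.antidiagonal n,
      homogeneousComponent x.1 A * homogeneousComponent x.2 F := by
  rw [← coeff_scal, map_mul, Polynomial.coeff_mul]
  exact Finset.sum_congr rfl fun x _ => by rw [coeff_scal, coeff_scal]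

lemma hcomp_zero {R : Type} [CommRing R] {σ : Type} (A : MvPolynomial σ R) :
    ∃ c, homogeneousComponent 0 A = C c := ⟨_, homogeneousComponent_zero A⟩

section
variable {ι : Type} [Fintype ι] {w : ι → Fin 3 → ℂ}

abbrev R3 := MvPolynomial (Fin 3) ℂ

/-- vanishing on the cone -/
def Van (w : ι → Fin 3 → ℂ) (H : R3) : Prop := ∀ k, ∀ t : ℂ, eval (t • w k) H = 0

lemma van_comp {H : R3} (h : Van w H) (n : ℕ) : Van w (homogeneousComponent n H) := by
  intro k t
  rw [eval_smul_hom (homogeneousComponent_isHomogeneous n H),
    comp_van (w k) (fun τ _ => h k τ) n, mul_zero]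

lemma van_hom {H : R3} {e : ℕ} (hH : H.IsHomogeneous e) : Van w H ↔ ∀ k, eval (w k) H = 0 := by
  constructor
  · intro h k
    have := h k 1
    rwa [one_smul] at this
  · intro h k t
    rw [eval_smul_hom hH, h, mul_zero]

lemma hcomp_self {H : R3} {n : ℕ} (hH : H.IsHomogeneous n) (m : ℕ) :
    homogeneousComponent m H = if m = n then H else 0 := by
  rw [homogeneousComponent_of_mem ((mem_homogeneousSubmodule _ _).mpr hH)]

/-- hypotheses for the extraction of homogeneous generators -/
structure Gens (w : ι → Fin 3 → ℂ) (F G : R3) (a : ℕ) : Prop where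
  hI : ∀ H : R3, Van w H ↔ ∃ A B : R3, H = A * F + B * G
  hlow : ∀ m, m < a → homogeneousComponent m F = 0 ∧ homogeneousComponent m G = 0
  hFa : homogeneousComponent a F ≠ 0
  hN : ∀ α β : ℂ, C α * homogeneousComponent a F + C β * homogeneousComponent a G = 0 → α = 0

variable {F G : R3} {a : ℕ}

lemma Gens.vF (h : Gens w F G a) : Van w F := (h.hI F).mpr ⟨1, 0, by ring⟩
lemma Gens.vG (h : Gens w F G a) : Van w G := (h.hI G).mpr ⟨0, 1, by ring⟩

/-- the basic decomposition of a form of the ideal -/
lemma Gens.decomp (h : Gens w F G a) {H : R3} {n : ℕ} (hH : H.IsHomogeneous n) (hv : Van w H) :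
    ∃ A B : R3, (∀ m, (∑ x ∈ Finset.HasAntidiagonal.antidiagonal m,
      (homogeneousComponent x.1 A * homogeneousComponent x.2 F +
       homogeneousComponent x.1 B * homogeneousComponent x.2 G)) = if m = n then H else 0) ∧
      (n ≠ a → homogeneousComponent 0 A = 0) := by
  obtain ⟨A, B, hAB⟩ := (h.hI H).mp hv
  have key : ∀ m, (∑ x ∈ Finset.HasAntidiagonal.antidiagonal m,
      (homogeneousComponent x.1 A * homogeneousComponent x.2 F +
       homogeneousComponent x.1 B * homogeneousComponent x.2 G)) = if m = n then H else 0 := by
    intro m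
    rw [← hcomp_self hH, hAB, map_add, hcomp_prod, hcomp_prod, Finset.sum_add_distrib]
  refine ⟨A, B, key, ?_⟩
  intro hna
  have h1 := key a
  rw [if_neg hna.symm, Finset.sum_eq_single (0, a)] at h1
  · obtain ⟨α, hα⟩ := hcomp_zero A
    obtain ⟨β, hβ⟩ := hcomp_zero B
    simp only at h1
    rw [hα, hβ] at h1
    rw [hα, h.hN α β h1, C_0]
  · rintro ⟨i, j⟩ hx hne
    rw [Finset.HasAntidiagonal.mem_antidiagonal] at hx
    simp only at hx
    have hj : j < a := by
      rcases Nat.eq_zero_or_pos i with h0 | h0
      · exfalso; apply hne; rw [Prod.mk.injEq]; omega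
      · omega
    simp only [(h.hlow j hj).1, (h.hlow j hj).2, mul_zero, add_zero]
  · intro h2
    exfalso; apply h2; rw [Finset.HasAntidiagonal.mem_antidiagonal]; simp

lemma Gens.dvd (h : Gens w F G a) : ∀ n, (∀ m, m ≤ n → homogeneousComponent a F ∣
    homogeneousComponent m G) → ∀ H : R3, H.IsHomogeneous n → Van w H →
    homogeneousComponent a F ∣ H := by
  intro n
  induction n using Nat.strong_induction_on with
  | _ n ih =>
    intro hG H hH hv
    obtain ⟨A, B, hAB, hA0⟩ := h.decomp hH hv
    have h1 := hAB n
    rw [if_pos rfl] at h1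
    rw [← h1]
    apply Finset.dvd_sum
    rintro ⟨i, j⟩ hx
    rw [Finset.HasAntidiagonal.mem_antidiagonal] at hx
    simp only at hx ⊢
    rcases Nat.eq_zero_or_pos i with h0 | h0
    · have hj : j = n := by omega
      subst h0; subst hj
      apply dvd_add
      · by_cases hja : j = a
        · rw [hja]; exact dvd_mul_left _ _
        · rw [hA0 hja, zero_mul]; exact dvd_zero _
      · exact Dvd.dvd.mul_left (hG j le_rfl) _
    · apply dvd_add
      · apply Dvd.dvd.mul_left
        exact ih j (by omega) (fun m hm => hG m (by omega)) _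
          (homogeneousComponent_isHomogeneous _ _) (van_comp h.vF j)
      · exact Dvd.dvd.mul_left (hG j (by omega)) _

lemma Gens.gen (h : Gens w F G a) {b : ℕ} (hb1 : ∀ m, m < b → homogeneousComponent a F ∣
    homogeneousComponent m G) (hb2 : ¬ homogeneousComponent a F ∣ homogeneousComponent b G) :
    ∀ n, ∀ H : R3, H.IsHomogeneous n → Van w H →
    ∃ X Y : R3, H = X * homogeneousComponent a F + Y * homogeneousComponent b G := by
  have hab : a ≤ b := by
    by_contra hlt
    apply hb2
    rw [(h.hlow b (by omega)).2]
    exact dvd_zero _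
  intro n
  induction n using Nat.strong_induction_on with
  | _ n ih =>
    intro H hH hv
    by_cases hn : n < b
    · obtain ⟨c, hc⟩ := h.dvd n (fun m hm => hb1 m (by omega)) H hH hv
      exact ⟨c, 0, by rw [hc]; ring⟩
    · obtain ⟨A, B, hAB, hA0⟩ := h.decomp hH hv
      have h1 := hAB n
      rw [if_pos rfl] at h1
      have hmem : H ∈ Ideal.span {homogeneousComponent a F, homogeneousComponent b G} := by
        rw [← h1]
        apply Ideal.sum_mem
        rintro ⟨i, j⟩ hx
        rw [Finset.HasAntidiagonal.mem_antidiagonal] at hx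
        simp only at hx ⊢
        rcases Nat.eq_zero_or_pos i with h0 | h0
        · have hj : j = n := by omega
          subst h0; subst hj
          apply Ideal.add_mem
          · by_cases hja : j = a
            · rw [hja]
              exact Ideal.mul_mem_left _ _ (Ideal.subset_span (by simp))
            · rw [hA0 hja, zero_mul]; exact Ideal.zero_mem _
          · by_cases hjb : j = b
            · rw [hjb]
              exact Ideal.mul_mem_left _ _ (Ideal.subset_span (by simp))
            · -- the constant term of `B` vanishes
              have h2 := hAB b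
              rw [if_neg (fun hh => hjb hh.symm)] at h2
              have h3 : homogeneousComponent a F ∣
                  homogeneousComponent 0 B * homogeneousComponent b G := by
                have h4 : (0, b) ∈ Finset.HasAntidiagonal.antidiagonal b := by simp
                rw [← Finset.add_sum_erase _ _ h4] at h2
                simp only at h2
                rw [hA0 (by omega), zero_mul, zero_add] at h2
                rw [← dvd_add_left (c := ∑ x ∈ (Finset.HasAntidiagonal.antidiagonal b).erase (0, b),
                  (homogeneousComponent x.1 A * homogeneousComponent x.2 F +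
                    homogeneousComponent x.1 B * homogeneousComponent x.2 G)), h2]
                · exact dvd_zero _
                · apply Finset.dvd_sum
                  rintro ⟨i, j'⟩ hx'
                  rw [Finset.mem_erase, Finset.HasAntidiagonal.mem_antidiagonal] at hx'
                  simp only at hx' ⊢
                  have hj' : j' < b := by
                    rcases Nat.eq_zero_or_pos i with h0 | h0
                    · exfalso; apply hx'.1; rw [Prod.mk.injEq]; omega
                    · omega
                  apply dvd_add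
                  · apply Dvd.dvd.mul_left
                    exact h.dvd j' (fun m hm => hb1 m (by omega)) _
                      (homogeneousComponent_isHomogeneous _ _) (van_comp h.vF j')
                  · exact Dvd.dvd.mul_left (hb1 j' hj') _
              obtain ⟨β, hβ⟩ := hcomp_zero B
              have hβ0 : β = 0 := by
                by_contra hne
                apply hb2
                rw [hβ] at h3
                exact ((isUnit_iff_ne_zero.mpr hne).map C).dvd_mul_left.mp h3
              rw [hβ, hβ0, C_0, zero_mul]
              exact Ideal.zero_mem _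
        · apply Ideal.add_mem
          · apply Ideal.mul_mem_left
            obtain ⟨X, Y, hXY⟩ := ih j (by omega) _ (homogeneousComponent_isHomogeneous _ _)
              (van_comp h.vF j)
            rw [hXY, Ideal.mem_span_pair]
            exact ⟨X, Y, rfl⟩
          · apply Ideal.mul_mem_left
            obtain ⟨X, Y, hXY⟩ := ih j (by omega) _ (homogeneousComponent_isHomogeneous _ _)
              (van_comp h.vG j)
            rw [hXY, Ideal.mem_span_pair]
            exact ⟨X, Y, rfl⟩
      rw [Ideal.mem_span_pair] at hmem
      obtain ⟨X, Y, hXY⟩ := hmem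
      exact ⟨X, Y, hXY.symm⟩

/-- homogeneous generators of the ideal of finitely many points -/
structure HG (w : ι → Fin 3 → ℂ) (F0 G0 : R3) (a b : ℕ) : Prop where
  hF : F0.IsHomogeneous a
  hG : G0.IsHomogeneous b
  hab : a ≤ b
  hF0 : F0 ≠ 0
  hG0 : G0 ≠ 0
  hrel : IsRelPrime F0 G0
  hFv : ∀ k, eval (w k) F0 = 0
  hGv : ∀ k, eval (w k) G0 = 0
  hgen : ∀ n, ∀ H : R3, H.IsHomogeneous n → (∀ k, eval (w k) H = 0) →
    ∃ X Y : R3, H = X * F0 + Y * G0

theorem Gens.hg (h : Gens w F G a) (hne : Nonempty ι)
    (hv : ∀ i j, i ≠ j → LinearIndependent ℂ ![w i, w j]) (h0 : ∀ i, w i ≠ 0) :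
    ∃ F0 G0 b, HG w F0 G0 a b := by
  classical
  have ha1 : 1 ≤ a := by
    by_contra hlt
    have ha0 : a = 0 := by omega
    subst ha0
    obtain ⟨k⟩ := hne
    obtain ⟨c, hc⟩ := hcomp_zero F
    have h1 := (van_comp h.vF 0) k 1
    rw [hc, eval_C] at h1
    apply h.hFa
    rw [hc, h1, C_0]
  have hex : ∃ b, ¬ homogeneousComponent a F ∣ homogeneousComponent b G := by
    by_contra hcon
    push Not at hcon
    apply no_common w hv h0 (homogeneousComponent_isHomogeneous a F) h.hFa ha1
    intro t H hH hHv
    exact h.dvd t (fun m _ => hcon m) H hH ((van_hom hH).mpr hHv)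
  set b := Nat.find hex with hb
  have hb2 := Nat.find_spec hex
  have hb1 : ∀ m, m < b → homogeneousComponent a F ∣ homogeneousComponent m G := by
    intro m hm
    have := Nat.find_min hex hm
    push Not at this
    exact this
  have hgen := h.gen hb1 hb2
  have hG0 : homogeneousComponent b G ≠ 0 := by
    intro h0
    apply hb2
    rw [← hb, h0]
    exact dvd_zero _
  refine ⟨homogeneousComponent a F, homogeneousComponent b G, b,
    homogeneousComponent_isHomogeneous a F, homogeneousComponent_isHomogeneous b G, ?_, h.hFa, hG0,
    ?_, ?_, ?_, ?_⟩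
  · by_contra hlt
    apply hb2
    rw [← hb, (h.hlow b (by omega)).2]
    exact dvd_zero _
  · intro δ h1 h2
    obtain ⟨x, hx⟩ := h1
    have hx0 : δ * x ≠ 0 := by rw [← hx]; exact h.hFa
    obtain ⟨e, e', he, -, -⟩ := isHomogeneous_of_mul hx0
      (by rw [← hx]; exact homogeneousComponent_isHomogeneous a F)
    have hδ0 := left_ne_zero_of_mul hx0
    rcases Nat.eq_zero_or_pos e with h3 | h3
    · subst h3
      have h4 : δ = C (coeff 0 δ) := totalDegree_eq_zero_iff_eq_C.mp (he.totalDegree hδ0)
      rw [h4]
      apply IsUnit.map
      rw [isUnit_iff_ne_zero]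
      intro h5
      exact hδ0 (by rw [h4, h5, C_0])
    · exfalso
      apply no_common w hv h0 he hδ0 h3
      intro t H hH hHv
      obtain ⟨X, Y, hXY⟩ := hgen t H hH ((van_hom hH).mpr hHv)
      rw [hXY, hx]
      apply dvd_add
      · exact ⟨X * x, by ring⟩
      · exact Dvd.dvd.mul_left h2 _
  · exact (van_hom (homogeneousComponent_isHomogeneous a F)).mp (van_comp h.vF a)
  · exact (van_hom (homogeneousComponent_isHomogeneous b G)).mp (van_comp h.vG b)
  · intro n H hH hHv
    exact hgen n H hH ((van_hom hH).mpr hHv)

/-- the complete extraction -/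
theorem exists_hg (hne : Nonempty ι)
    (hv : ∀ i j, i ≠ j → LinearIndependent ℂ ![w i, w j]) (h0 : ∀ i, w i ≠ 0)
    (F G : R3) (hI : ∀ H : R3, Van w H ↔ ∃ A B : R3, H = A * F + B * G) :
    ∃ F0 G0 a b, HG w F0 G0 a b := by
  classical
  have hex : ∃ n, homogeneousComponent n F ≠ 0 ∨ homogeneousComponent n G ≠ 0 := by
    by_contra hcon
    push Not at hcon
    have hz : ∀ P : R3, (∀ n, homogeneousComponent n P = 0) → P = 0 := by
      intro P hP
      rw [← sum_homogeneousComponent P]
      exact Finset.sum_eq_zero fun n _ => hP n
    have hF : F = 0 := hz F fun n => (hcon n).1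
    have hG : G = 0 := hz G fun n => (hcon n).2
    apply no_common w hv h0 (isHomogeneous_X ℂ (0 : Fin 3)) (X_ne_zero 0) le_rfl
    intro t H hH hHv
    obtain ⟨A, B, hAB⟩ := (hI H).mp ((van_hom hH).mpr hHv)
    rw [hAB, hF, hG, mul_zero, mul_zero, add_zero]
    exact dvd_zero _
  have main : ∀ F G : R3, (∀ H : R3, Van w H ↔ ∃ A B : R3, H = A * F + B * G) →
      ∀ a, (∀ m, m < a → homogeneousComponent m F = 0 ∧ homogeneousComponent m G = 0) →
      homogeneousComponent a F ≠ 0 → ∃ F0 G0 a b, HG w F0 G0 a b := by
    intro F G hI a hlow hFa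
    by_cases hc : ∃ c : ℂ, homogeneousComponent a G = C c * homogeneousComponent a F
    · obtain ⟨c, hc⟩ := hc
      have hG' : Gens w F (G - C c * F) a :=
        { hI := by
            intro H
            rw [hI H]
            constructor
            · rintro ⟨A, B, h⟩
              exact ⟨A + B * C c, B, by rw [h]; ring⟩
            · rintro ⟨A, B, h⟩
              exact ⟨A - B * C c, B, by rw [h]; ring⟩
          hlow := by
            intro m hm
            refine ⟨(hlow m hm).1, ?_⟩
            rw [map_sub, homogeneousComponent_C_mul, (hlow m hm).1, (hlow m hm).2]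
            simp
          hFa := hFa
          hN := by
            intro α β h
            rw [map_sub, homogeneousComponent_C_mul, hc, sub_self, mul_zero, add_zero] at h
            rcases mul_eq_zero.mp h with h1 | h1
            · exact C_eq_zero.mp h1
            · exact absurd h1 hFa }
      obtain ⟨F0, G0, b, h⟩ := hG'.hg hne hv h0
      exact ⟨F0, G0, a, b, h⟩
    · have hG' : Gens w F G a :=
        { hI := hI
          hlow := hlow
          hFa := hFa
          hN := by
            intro α β h
            by_contra hα
            by_cases hβ : β = 0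
            · rw [hβ, C_0, zero_mul, add_zero] at h
              rcases mul_eq_zero.mp h with h1 | h1
              · exact hα (C_eq_zero.mp h1)
              · exact hFa h1
            · apply hc
              refine ⟨-(α / β), ?_⟩
              have h2 : C β * (homogeneousComponent a G - C (-(α / β)) * homogeneousComponent a F) =
                  0 := by
                rw [← h, C_neg, mul_sub, neg_mul, mul_neg, sub_neg_eq_add, ← mul_assoc, ← C_mul,
                  mul_div_cancel₀ _ hβ]
                ring
              rcases mul_eq_zero.mp h2 with h3 | h3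
              · exact absurd (C_eq_zero.mp h3) hβ
              · exact sub_eq_zero.mp h3 }
      obtain ⟨F0, G0, b, h⟩ := hG'.hg hne hv h0
      exact ⟨F0, G0, a, b, h⟩
  have hlow : ∀ m, m < Nat.find hex → homogeneousComponent m F = 0 ∧
      homogeneousComponent m G = 0 := by
    intro m hm
    have := Nat.find_min hex hm
    push Not at this
    exact this
  rcases Nat.find_spec hex with h1 | h1
  · exact main F G hI _ hlow h1
  · exact main G F (fun H => by
      rw [hI H]
      constructor
      · rintro ⟨A, B, h⟩; exact ⟨B, A, by rw [h]; ring⟩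
      · rintro ⟨A, B, h⟩; exact ⟨B, A, by rw [h]; ring⟩) _ (fun m hm => (hlow m hm).symm) h1

theorem HG.card {F0 G0 : R3} {b : ℕ} (h : HG w F0 G0 a b)
    (hv : ∀ i j, i ≠ j → LinearIndependent ℂ ![w i, w j]) (h0 : ∀ i, w i ≠ 0) :
    Fintype.card ι = a * b := by
  apply le_antisymm
  · exact bezout w hv h0 h.hF h.hG h.hG0 h.hrel h.hFv h.hGv
  · apply card_ge w hv h0 h.hF h.hG h.hG0 h.hrel
    intro t H hH hHv
    obtain ⟨X, Y, hXY⟩ := h.hgen _ H hH hHv
    obtain ⟨X', Y', h1, -, h2, -, h3⟩ := hcomp_two hH h.hF h.hG hXY
    refine ⟨X', Y', ?_, ?_, h3⟩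
    · rwa [show a + b + t - a = b + t by omega] at h1
    · rwa [show a + b + t - b = a + t by omega] at h2

end

end Pool.Agent.H371R3.GQ
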