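import Pool.Agent.H371R3.GQ.B4

set_option autoImplicit false
set_option linter.unusedSectionVars false
set_option linter.unusedSimpArgs false
open MvPolynomial

namespace Pool.Agent.H371R3.GQ

/-- rank of the evaluation of forms of degree `m` -/
noncomputable def rk {K : Type} [Field K] {ι : Type} (v : ι → Fin 3 → K) (m : ℕ) : ℕ :=
  Module.finrank K (LinearMap.range (evm v m))

section
variable {K : Type} [Field K] {ι : Type} [Fintype ι]

theorem minor {v : ι → Fin 3 → K} {m r : ℕ} (h : r ≤ rk v m) :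
    ∃ (f : Fin r → MvPolynomial (Fin 3) K) (g : Fin r → ι), (∀ a, (f a).IsHomogeneous m) ∧
      (Matrix.of fun a b => eval (v (g b)) (f a)).det ≠ 0 := by
  classical
  obtain ⟨u, hu⟩ := exists_linearIndependent_of_le_finrank h
  have hu' : LinearIndependent K (fun a => ((u a : LinearMap.range (evm v m)) : ι → K)) :=
    hu.map' (LinearMap.range (evm v m)).subtype (Submodule.ker_subtype _)
  set U : Matrix (Fin r) ι K := Matrix.of fun a k => ((u a : LinearMap.range (evm v m)) : ι → K) k
    with hU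
  have hrank : U.rank = r := by
    have := LinearIndependent.rank_matrix (M := U) hu'
    rw [this, Fintype.card_fin]
  have hspan : Submodule.span K (Set.range U.col) = ⊤ := by
    apply Submodule.eq_top_of_finrank_eq
    rw [← Matrix.rank_eq_finrank_span_cols, hrank, Module.finrank_fintype_fun_eq_card,
      Fintype.card_fin]
  obtain ⟨κ, a, ha, hsp, hli⟩ := exists_linearIndependent' K U.col
  rw [hspan] at hsp
  haveI : Finite κ := Finite.of_injective a ha
  letI : Fintype κ := Fintype.ofFinite κ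
  have hcard : Fintype.card κ = r := by
    have h1 := finrank_span_eq_card hli
    rw [hsp, finrank_top, Module.finrank_fintype_fun_eq_card, Fintype.card_fin] at h1
    exact h1.symm
  let e : Fin r ≃ κ := (Fintype.equivFinOfCardEq hcard).symm
  have hf : ∀ x : Fin r, ∃ f : MvPolynomial (Fin 3) K, f.IsHomogeneous m ∧
      ∀ k, eval (v k) f = ((u x : LinearMap.range (evm v m)) : ι → K) k := by
    intro x
    obtain ⟨f, hf⟩ := (u x).2
    refine ⟨f, (mem_homogeneousSubmodule _ _).mp f.2, fun k => ?_⟩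
    rw [← evm_apply v m, hf]
  choose f hf1 hf2 using hf
  refine ⟨f, fun b => a (e b), hf1, ?_⟩
  have hM : (Matrix.of fun x b => eval (v (a (e b))) (f x)) = U.submatrix id (fun b => a (e b)) := by
    ext x b
    rw [Matrix.of_apply, hf2]
    rfl
  rw [hM]
  have hli2 : LinearIndependent K (U.submatrix id (fun b => a (e b))).col := by
    have : (U.submatrix id (fun b => a (e b))).col = (U.col ∘ a) ∘ e := by
      funext b x; rfl
    rw [this]
    exact hli.comp _ e.injective
  rw [Matrix.linearIndependent_cols_iff_isUnit, Matrix.isUnit_iff_isUnit_det] at hli2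
  exact hli2.ne_zero

theorem minor_conv {v : ι → Fin 3 → K} {m r : ℕ} (f : Fin r → MvPolynomial (Fin 3) K)
    (g : Fin r → ι) (hf : ∀ a, (f a).IsHomogeneous m)
    (hdet : (Matrix.of fun a b => eval (v (g b)) (f a)).det ≠ 0) : r ≤ rk v m := by
  classical
  have h1 := Matrix.linearIndependent_rows_of_det_ne_zero hdet
  let u : Fin r → LinearMap.range (evm v m) := fun a =>
    ⟨evm v m ⟨f a, (mem_homogeneousSubmodule _ _).mpr (hf a)⟩, ⟨_, rfl⟩⟩
  let R : LinearMap.range (evm v m) →ₗ[K] (Fin r → K) :=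
    (LinearMap.pi fun b => LinearMap.proj (g b)).comp (LinearMap.range (evm v m)).subtype
  have h2 : LinearIndependent K (R ∘ u) := by
    have : R ∘ u = (Matrix.of fun a b => eval (v (g b)) (f a)).row := by
      funext a b
      change evm v m ⟨f a, _⟩ (g b) = eval (v (g b)) (f a)
      rw [evm_apply]
    rw [this]
    exact h1
  have h3 : LinearIndependent K u := h2.of_comp R
  have := h3.fintype_card_le_finrank
  rw [Fintype.card_fin] at this
  exact this

end

section
variable {ι : Type} [Fintype ι]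

/-- specialization of the rank over the function field -/
theorem rk_spec (z : ι → Fin 2 → ℂ) {m r : ℕ} (h : r ≤ rk (fun k => wK (z k)) m) :
    ∃ P : Fin 2 → ℂ, r ≤ rk (fun k i => eval P (wk (z k) i)) m := by
  classical
  obtain ⟨f, g, hf, hdet⟩ := minor h
  choose s f' hs hf' using fun a => clear (f a)
  have hf'h : ∀ a, (f' a).IsHomogeneous m := by
    intro a
    apply hom_of_ph
    rw [hf' a]
    exact (hf a).C_mul _
  set D : Matrix (Fin r) (Fin r) Bx := Matrix.of fun a b => eval (wk (z (g b))) (f' a) with hD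
  have hDdet : D.det ≠ 0 := by
    intro h0
    have h1 : (D.map (algebraMap Bx Kx)).det = 0 := by
      rw [← RingHom.mapMatrix_apply, ← RingHom.map_det, h0, map_zero]
    have h2 : D.map (algebraMap Bx Kx) = Matrix.of fun a b =>
        (algebraMap Bx Kx (s a)) * (Matrix.of fun a b => eval (wK (z (g b))) (f a)) a b := by
      ext a b
      rw [Matrix.map_apply, hD, Matrix.of_apply, ← eval_ph, hf' a, map_mul, eval_C, Matrix.of_apply,
        Matrix.of_apply]
    have h5 := Matrix.det_mul_column (fun a => algebraMap Bx Kx (s a))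
      (Matrix.of fun a b => eval (wK (z (g b))) (f a))
    rw [h2] at h1
    have h6 := h5.symm.trans h1
    rcases mul_eq_zero.mp h6 with h3 | h3
    · rw [Finset.prod_eq_zero_iff] at h3
      obtain ⟨a, -, ha⟩ := h3
      exact hs a (alg_inj (by rw [ha, map_zero]))
    · exact hdet h3
  obtain ⟨P, hP⟩ := exists_eval_ne _ hDdet
  refine ⟨P, minor_conv (fun a => MvPolynomial.map (eval P) (f' a)) g (fun a => (hf'h a).map _) ?_⟩
  have h4 : (Matrix.of fun a b => eval (fun i => eval P (wk (z (g b)) i))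
      (MvPolynomial.map (eval P) (f' a))) = D.map (eval P) := by
    ext a b
    rw [Matrix.of_apply, Matrix.map_apply, hD, Matrix.of_apply]
    have : (eval (fun i => eval P (wk (z (g b)) i))).comp (MvPolynomial.map (eval P)) =
        (eval P).comp (eval (wk (z (g b)))) := by
      apply MvPolynomial.ringHom_ext
      · intro c; simp
      · intro i; simp
    exact RingHom.congr_fun this (f' a)
  rw [h4, ← RingHom.mapMatrix_apply, ← RingHom.map_det]
  exact hP

/-- change of coordinates -/
theorem rk_lin {K : Type} [Field K] {v v' : ι → Fin 3 → K} (T : Matrix (Fin 3) (Fin 3) K)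
    (hT : ∀ k i, v' k i = ∑ j, T i j * v k j) (m : ℕ) : rk v' m ≤ rk v m := by
  apply Submodule.finrank_mono
  rintro _ ⟨f, rfl⟩
  set f' : MvPolynomial (Fin 3) K := aeval (fun i => (∑ j, C (T i j) * X j :
    MvPolynomial (Fin 3) K)) (f : MvPolynomial (Fin 3) K) with hf'
  have hf'h : f'.IsHomogeneous m := by
    have := ((mem_homogeneousSubmodule _ _).mp f.2).aeval
      (g := fun i => (∑ j, C (T i j) * X j : MvPolynomial (Fin 3) K)) (n := 1) (by
        intro i
        apply IsHomogeneous.sum
        intro j _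
        exact isHomogeneous_C_mul_X _ _)
    rw [one_mul] at this
    exact this
  refine ⟨⟨f', (mem_homogeneousSubmodule _ _).mpr hf'h⟩, ?_⟩
  funext k
  rw [evm_apply, evm_apply]
  change eval (v k) f' = _
  rw [hf']
  have h1 : (eval (v k)).comp ((aeval (fun i => (∑ j, C (T i j) * X j :
      MvPolynomial (Fin 3) K)) : MvPolynomial (Fin 3) K →ₐ[K] MvPolynomial (Fin 3) K) :
      MvPolynomial (Fin 3) K →+* MvPolynomial (Fin 3) K) = eval (v' k) := by
    apply MvPolynomial.ringHom_ext
    · intro c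
      simp [aeval_C]
    · intro i
      simp [hT]
  exact RingHom.congr_fun h1 _

/-- projection from a point of `P^3` -/
def pj (P ζ : Fin 4 → ℂ) : Fin 3 → ℂ := fun i => P 3 * ζ i.castSucc - ζ 3 * P i.castSucc

/-- the rank is maximal at a general point -/
theorem generic_rk (ζ : ι → Fin 4 → ℂ) (M : ℕ) :
    ∃ φ : MvPolynomial (Fin 4) ℂ, φ ≠ 0 ∧ ∀ P : Fin 4 → ℂ, eval P φ ≠ 0 → ∀ m, m < M →
      ∀ P' : Fin 4 → ℂ, rk (fun k => pj P' (ζ k)) m ≤ rk (fun k => pj P (ζ k)) m := by
  classical
  have hone : ∀ m : ℕ, ∃ φ : MvPolynomial (Fin 4) ℂ, φ ≠ 0 ∧ ∀ P : Fin 4 → ℂ, eval P φ ≠ 0 →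
      ∀ P' : Fin 4 → ℂ, rk (fun k => pj P' (ζ k)) m ≤ rk (fun k => pj P (ζ k)) m := by
    intro m
    have hfin : (Set.range fun P : Fin 4 → ℂ => rk (fun k => pj P (ζ k)) m).Finite := by
      apply (Set.finite_Iic (Fintype.card ι)).subset
      rintro _ ⟨P, rfl⟩
      rw [Set.mem_Iic]
      have := Submodule.finrank_le (LinearMap.range (evm (fun k => pj P (ζ k)) m))
      rw [Module.finrank_fintype_fun_eq_card] at this
      exact this
    obtain ⟨_, ⟨P0, rfl⟩, hmax⟩ := Set.exists_max_image _ id hfin ⟨_, ⟨0, rfl⟩⟩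
    have hmax' : ∀ P', rk (fun k => pj P' (ζ k)) m ≤ rk (fun k => pj P0 (ζ k)) m :=
      fun P' => hmax _ ⟨P', rfl⟩
    obtain ⟨f, g, hf, hdet⟩ := minor (le_refl (rk (fun k => pj P0 (ζ k)) m))
    set D : Matrix (Fin (rk (fun k => pj P0 (ζ k)) m)) (Fin (rk (fun k => pj P0 (ζ k)) m))
      (MvPolynomial (Fin 4) ℂ) := Matrix.of fun a b =>
        aeval (fun i : Fin 3 => (C (ζ (g b) i.castSucc) * X 3 - C (ζ (g b) 3) * X i.castSucc :
          MvPolynomial (Fin 4) ℂ)) (f a) with hD
    have hev : ∀ P : Fin 4 → ℂ, eval P D.det =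
        (Matrix.of fun a b => eval (pj P (ζ (g b))) (f a)).det := by
      intro P
      rw [RingHom.map_det]
      congr 1
      ext a b
      rw [RingHom.mapMatrix_apply, Matrix.map_apply, hD, Matrix.of_apply, Matrix.of_apply]
      have h1 : (eval P).comp ((aeval (fun i : Fin 3 => (C (ζ (g b) i.castSucc) * X 3 -
          C (ζ (g b) 3) * X i.castSucc : MvPolynomial (Fin 4) ℂ)) :
          MvPolynomial (Fin 3) ℂ →ₐ[ℂ] MvPolynomial (Fin 4) ℂ) :
          MvPolynomial (Fin 3) ℂ →+* MvPolynomial (Fin 4) ℂ) = eval (pj P (ζ (g b))) := by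
        apply MvPolynomial.ringHom_ext
        · intro c
          simp [aeval_C]
        · intro i
          simp [pj, mul_comm]
      exact RingHom.congr_fun h1 _
    refine ⟨D.det, ?_, ?_⟩
    · intro h0
      have := hev P0
      rw [h0, map_zero] at this
      exact hdet this.symm
    · intro P hP P'
      rw [hev] at hP
      exact (hmax' P').trans (minor_conv f g hf hP)
  choose φ hφ0 hφ using hone
  refine ⟨∏ m ∈ Finset.range M, φ m, Finset.prod_ne_zero_iff.mpr fun m _ => hφ0 m, ?_⟩
  intro P hP m hm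
  rw [map_prod, Finset.prod_ne_zero_iff] at hP
  exact hφ m P (hP m (Finset.mem_range.mpr hm))

/-- the rank over the function field is at most the rank at a general point -/
theorem rk_le (z : ι → Fin 2 → ℂ) {m : ℕ} {P : Fin 4 → ℂ}
    (hP : ∀ P' : Fin 4 → ℂ,
      rk (fun k => pj P' ![z k 0 * z k 1, z k 0, z k 1, 1]) m ≤
      rk (fun k => pj P ![z k 0 * z k 1, z k 0, z k 1, 1]) m) :
    rk (fun k => wK (z k)) m ≤ rk (fun k => pj P ![z k 0 * z k 1, z k 0, z k 1, 1]) m := by
  obtain ⟨Q, hQ⟩ := rk_spec z (le_refl (rk (fun k => wK (z k)) m))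
  refine hQ.trans (le_trans ?_ (hP ![Q 0 * Q 1, Q 0, Q 1, 1]))
  apply rk_lin !![1, -Q 1, -Q 0; 0, 0, 1; 0, 1, 0]
  intro k i
  rw [Fin.sum_univ_three]
  fin_cases i
  · simp [wk, pj]
    ring
  · simp [wk, pj]
  · simp [wk, pj]

end

end Pool.Agent.H371R3.GQ
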