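import Pool.Agent.H371R3.GQ.D2
import Pool.Agent.H371R3.GQ.D3
import Pool.Agent.H371R3.GQ.D4

set_option autoImplicit false
set_option linter.unusedSectionVars false
set_option linter.unusedSimpArgs false
open MvPolynomial

namespace Pool.Agent.H371R3.GQ

lemma pj_add (P u v : Fin 4 → ℂ) : pj P (u + v) = pj P u + pj P v := by
  funext i; simp only [pj, Pi.add_apply]; ring

lemma pj_smul (P v : Fin 4 → ℂ) (c : ℂ) : pj P (c • v) = c • pj P v := by
  funext i; simp only [pj, Pi.smul_apply, smul_eq_mul]; ring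

lemma pj_self (P : Fin 4 → ℂ) : pj P P = 0 := by
  funext i; simp only [pj, Pi.zero_apply]; ring

lemma pj_ker {P x : Fin 4 → ℂ} (hP : P 3 ≠ 0) (h : pj P x = 0) : x = (x 3 / P 3) • P := by
  funext i
  rw [Pi.smul_apply, smul_eq_mul]
  have hcs : ∀ j : Fin 3, x j.castSucc = x 3 / P 3 * P j.castSucc := by
    intro j
    have h1 := congrFun h j
    simp only [pj, Pi.zero_apply] at h1
    field_simp
    linear_combination h1
  fin_cases i
  · exact hcs 0
  · exact hcs 1
  · exact hcs 2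
  · change x 3 = x 3 / P 3 * P 3
    field_simp

section
variable {ι : Type} [Fintype ι]

/-- the affine cone over the quadric -/
def zt (v : Fin 2 → ℂ) : Fin 4 → ℂ := ![v 0 * v 1, v 0, v 1, 1]

/-- passage to the plane -/
theorem plane_ideal (ζ : ι → Fin 4 → ℂ) {P : Fin 4 → ℂ} (hP : P 3 ≠ 0)
    (h : ∃ F G : MvPolynomial (Fin 4) ℂ, ∀ f : MvPolynomial (Fin 4) ℂ,
      f ∈ Ideal.span {F, G} ↔ ∀ k, ∀ s t : ℂ, eval (s • P + t • ζ k) f = 0) :
    ∃ F G : R3, ∀ H : R3, Van (fun k => pj P (ζ k)) H ↔ ∃ A B : R3, H = A * F + B * G := by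
  obtain ⟨F, G, hFG⟩ := h
  set ρ : MvPolynomial (Fin 4) ℂ →ₐ[ℂ] R3 :=
    aeval ![C (P 3)⁻¹ * X 0, C (P 3)⁻¹ * X 1, C (P 3)⁻¹ * X 2, 0] with hρ
  set π : R3 →ₐ[ℂ] MvPolynomial (Fin 4) ℂ :=
    aeval (fun i : Fin 3 => C (P 3) * X i.castSucc - C (P i.castSucc) * X 3) with hπ
  have h1 : ∀ (v : Fin 4 → ℂ) (H : R3), eval v (π H) = eval (pj P v) H := by
    intro v H
    have : (eval v).comp (π : R3 →+* MvPolynomial (Fin 4) ℂ) = eval (pj P v) := by
      apply MvPolynomial.ringHom_ext
      · intro c; simp [hπ, aeval_C]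
      · intro i; simp [hπ, pj, mul_comm]
    exact RingHom.congr_fun this H
  have h2 : ∀ H : R3, ρ (π H) = H := by
    intro H
    have : (ρ.comp π) = AlgHom.id ℂ R3 := by
      apply MvPolynomial.algHom_ext
      intro i
      have hPC : (C (P 3) : R3) * C (P 3)⁻¹ = 1 := by
        rw [← C_mul, mul_inv_cancel₀ hP, C_1]
      have hρC : ∀ c : ℂ, ρ (C c) = C c := fun c => by rw [hρ, aeval_C]; rfl
      have hρ3 : ρ (X 3) = 0 := by rw [hρ, aeval_X]; rfl
      rw [AlgHom.comp_apply, hπ, aeval_X, map_sub, map_mul, map_mul, hρC, hρC, hρ3, mul_zero,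
        sub_zero, AlgHom.id_apply]
      fin_cases i
      · change C (P 3) * ρ (X 0) = X 0
        rw [hρ, aeval_X]
        change C (P 3) * (C (P 3)⁻¹ * X 0) = X 0
        rw [← mul_assoc, hPC, one_mul]
      · change C (P 3) * ρ (X 1) = X 1
        rw [hρ, aeval_X]
        change C (P 3) * (C (P 3)⁻¹ * X 1) = X 1
        rw [← mul_assoc, hPC, one_mul]
      · change C (P 3) * ρ (X 2) = X 2
        rw [hρ, aeval_X]
        change C (P 3) * (C (P 3)⁻¹ * X 2) = X 2
        rw [← mul_assoc, hPC, one_mul]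
    exact AlgHom.congr_fun this H
  have h3 : ∀ (k : ι) (t : ℂ) (f : MvPolynomial (Fin 4) ℂ), eval (t • pj P (ζ k)) (ρ f) =
      eval ((-(t * (P 3)⁻¹ * ζ k 3)) • P + t • ζ k) f := by
    intro k t f
    have : (eval (t • pj P (ζ k))).comp (ρ : MvPolynomial (Fin 4) ℂ →+* R3) =
        eval ((-(t * (P 3)⁻¹ * ζ k 3)) • P + t • ζ k) := by
      apply MvPolynomial.ringHom_ext
      · intro c; simp [hρ, aeval_C]
      · intro i
        fin_cases i
        · simp [hρ, pj]
          field_simp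
          ring
        · simp [hρ, pj]
          field_simp
          ring
        · simp [hρ, pj]
          field_simp
          ring
        · simp [hρ, pj]
          field_simp
          ring
    exact RingHom.congr_fun this f
  have hF : F ∈ Ideal.span {F, G} := Ideal.subset_span (by simp)
  have hG : G ∈ Ideal.span {F, G} := Ideal.subset_span (by simp)
  refine ⟨ρ F, ρ G, fun H => ?_⟩
  constructor
  · intro hv
    have h4 : π H ∈ Ideal.span {F, G} := by
      rw [hFG]
      intro k s t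
      rw [h1, pj_add, pj_smul, pj_smul, pj_self, smul_zero, zero_add]
      exact hv k t
    rw [Ideal.mem_span_pair] at h4
    obtain ⟨A, B, hAB⟩ := h4
    exact ⟨ρ A, ρ B, by rw [← h2 H, ← hAB, map_add, map_mul, map_mul]⟩
  · rintro ⟨A, B, rfl⟩ k t
    rw [map_add, map_mul, map_mul, h3, h3, (hFG F).mp hF k, (hFG G).mp hG k, mul_zero, mul_zero,
      add_zero]

/-- the zero locus of the generators is the cone -/
theorem HG.zero {w : ι → Fin 3 → ℂ} {F0 G0 : R3} {a b : ℕ} (h : HG w F0 G0 a b) (hne : Nonempty ι)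
    (h0 : ∀ i, w i ≠ 0) (y : Fin 3 → ℂ) (h1 : eval y F0 = 0) (h2 : eval y G0 = 0) :
    ∃ k, ∃ c : ℂ, y = c • w k := by
  classical
  by_contra hcon
  push Not at hcon
  have hsep : ∀ k, ∃ η : Fin 3 → ℂ, ∑ i, η i * w k i = 0 ∧ ∑ i, η i * y i ≠ 0 := by
    intro k
    apply lf_sep
    rw [LinearIndependent.pair_iff]
    intro s t hst
    have hs : s = 0 := by
      by_contra hs
      apply hcon k (-(t / s))
      have h3 : s • y = -(t • w k) := eq_neg_of_add_eq_zero_left hst
      have h4 : y = s⁻¹ • (s • y) := by rw [smul_smul, inv_mul_cancel₀ hs, one_smul]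
      rw [h4, h3, smul_neg, smul_smul, neg_smul]
      congr 2
      field_simp
    refine ⟨hs, ?_⟩
    rw [hs, zero_smul, zero_add, smul_eq_zero] at hst
    exact hst.resolve_right (h0 k)
  choose η hη using hsep
  have hH : (∏ k, lf (η k) : R3).IsHomogeneous (∑ _k : ι, 1) :=
    IsHomogeneous.prod _ _ _ fun k _ => lf_hom (η k)
  obtain ⟨X', Y', hXY⟩ := h.hgen _ _ hH (by
    intro k
    rw [map_prod]
    apply Finset.prod_eq_zero (Finset.mem_univ k)
    rw [lf_eval]
    exact (hη k).1)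
  have h3 := congrArg (eval y) hXY
  rw [map_add, map_mul, map_mul, h1, h2, mul_zero, mul_zero, add_zero, map_prod,
    Finset.prod_eq_zero_iff] at h3
  obtain ⟨k, -, hk⟩ := h3
  rw [lf_eval] at hk
  exact (hη k).2 hk

/-- degree of a composite -/
lemma aeval_Bi {f : R3} {e : ℕ} (hf : f.IsHomogeneous e) (g : Fin 3 → Bx)
    (hg : ∀ i, g i ∈ Bi 1 1) : aeval g f ∈ Bi e e := by
  rw [aeval_def, eval₂_eq']
  apply Submodule.sum_mem
  intro m hm
  have h1 : m.degree = e := by
    by_contra h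
    exact (mem_support_iff.mp hm) (hf.coeff_eq_zero h)
  rw [Finsupp.degree_eq_sum] at h1
  have hpow : ∀ i (n : ℕ), g i ^ n ∈ Bi n n := by
    intro i n
    induction n with
    | zero => rw [pow_zero]; rw [mem_Bi, ← C_1, degreeOf_C, degreeOf_C]; simp
    | succ n ih => rw [pow_succ]; exact mul_mem_Bi ih (hg i)
  rw [Fin.prod_univ_three]
  have h2 := mul_mem_Bi (mul_mem_Bi (hpow 0 (m 0)) (hpow 1 (m 1))) (hpow 2 (m 2))
  rw [Fin.sum_univ_three] at h1
  rw [h1] at h2
  have h3 : (algebraMap ℂ Bx (coeff m f)) = C (coeff m f) := rfl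
  rw [h3, ← smul_eq_C_mul]
  exact Submodule.smul_mem _ _ h2

/-- the Bezout bound on the quadric -/
theorem BB_quadric (z : ι → Fin 2 → ℂ) (hz : Function.Injective z) (hne : Nonempty ι)
    {P : Fin 4 → ℂ} (hP : P 3 ≠ 0) (hq : P 0 * P 3 - P 1 * P 2 ≠ 0) {F0 G0 : R3} {a b : ℕ}
    (h : HG (fun k => pj P (zt (z k))) F0 G0 a b) (h0 : ∀ k, pj P (zt (z k)) ≠ 0) : BB z b := by
  classical
  set g : Fin 3 → Bx := ![C (P 3) * (X 0 * X 1) - C (P 0), C (P 3) * X 0 - C (P 1),
    C (P 3) * X 1 - C (P 2)] with hg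
  have hgB : ∀ i, g i ∈ Bi 1 1 := by
    have e0 : (X 0 : Bx) ∈ Bi 1 0 := by
      rw [mem_Bi, degreeOf_X, degreeOf_X]; simp
    have e1 : (X 1 : Bx) ∈ Bi 0 1 := by
      rw [mem_Bi, degreeOf_X, degreeOf_X]; simp
    have eC : ∀ c : ℂ, (C c : Bx) ∈ Bi 0 0 := by
      intro c; rw [mem_Bi, degreeOf_C, degreeOf_C]; simp
    intro i
    fin_cases i
    · exact Submodule.sub_mem _ (mul_mem_Bi (eC _) (mul_mem_Bi e0 e1))
        (Bi_mono (Nat.zero_le _) (Nat.zero_le _) (eC _))
    · exact Submodule.sub_mem _ (Bi_mono (by omega) (by omega) (mul_mem_Bi (eC _) e0))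
        (Bi_mono (Nat.zero_le _) (Nat.zero_le _) (eC _))
    · exact Submodule.sub_mem _ (Bi_mono (by omega) (by omega) (mul_mem_Bi (eC _) e1))
        (Bi_mono (Nat.zero_le _) (Nat.zero_le _) (eC _))
  have hev : ∀ (v : Fin 2 → ℂ) (f : R3), eval v (aeval g f) = eval (pj P (zt v)) f := by
    intro v f
    have : (eval v).comp ((aeval g : R3 →ₐ[ℂ] Bx) : R3 →+* Bx) = eval (pj P (zt v)) := by
      apply MvPolynomial.ringHom_ext
      · intro c; simp [aeval_C]
      · intro i
        fin_cases i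
        · simp [hg, pj, zt]
        · simp [hg, pj, zt]
        · simp [hg, pj, zt]
    exact RingHom.congr_fun this f
  apply BB_of z hz (P := aeval g F0) (Q := aeval g G0)
  · exact Bi_mono h.hab h.hab (aeval_Bi h.hF g hgB)
  · exact aeval_Bi h.hG g hgB
  · intro i; rw [hev]; exact h.hFv i
  · intro i; rw [hev]; exact h.hGv i
  · -- finiteness
    set B0 : ι → ℂ := fun k => z k 0 * P 2 + z k 1 * P 1 - P 3 * (z k 0 * z k 1) with hB0
    set R : ι → Polynomial ℂ := fun k => Polynomial.X * (Polynomial.C (B0 k - P 0) +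
      Polynomial.C (P 1 * P 2 - P 3 * B0 k) * Polynomial.X) with hR
    have hRne : ∀ k, R k ≠ 0 := by
      intro k
      apply mul_ne_zero Polynomial.X_ne_zero
      intro h1
      have c0 := congrArg (fun f => Polynomial.coeff f 0) h1
      have c1 := congrArg (fun f => Polynomial.coeff f 1) h1
      simp [Polynomial.coeff_C] at c0 c1
      apply hq
      linear_combination (-1 : ℂ) * c1 - P 3 * c0
    have hfin : (⋃ k, (fun c' : ℂ => (![(1 - c' * P 3) * z k 0 + c' * P 1,
        (1 - c' * P 3) * z k 1 + c' * P 2] : Fin 2 → ℂ)) '' {x | (R k).IsRoot x}).Finite := by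
      apply Set.finite_iUnion
      intro k
      exact (Polynomial.finite_setOf_isRoot (hRne k)).image _
    apply hfin.subset
    rintro v ⟨hv1, hv2⟩
    rw [hev] at hv1 hv2
    obtain ⟨k, c, hc⟩ := h.zero hne h0 _ hv1 hv2
    have h3 : pj P (zt v - c • zt (z k)) = 0 := by
      rw [sub_eq_add_neg, pj_add, ← neg_smul, pj_smul, hc]
      simp
    have h4 := pj_ker hP h3
    set c' : ℂ := (zt v - c • zt (z k)) 3 / P 3 with hc'
    have e0 := congrFun h4 0
    have e1 := congrFun h4 1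
    have e2 := congrFun h4 2
    have e3 := congrFun h4 3
    simp only [Pi.sub_apply, Pi.smul_apply, smul_eq_mul] at e0 e1 e2 e3
    change v 0 * v 1 - c * (z k 0 * z k 1) = c' * P 0 at e0
    change v 0 - c * z k 0 = c' * P 1 at e1
    change v 1 - c * z k 1 = c' * P 2 at e2
    change 1 - c * 1 = c' * P 3 at e3
    have hcc : c = 1 - c' * P 3 := by linear_combination -e3
    have hv0 : v 0 = (1 - c' * P 3) * z k 0 + c' * P 1 := by rw [← hcc]; linear_combination e1
    have hv1' : v 1 = (1 - c' * P 3) * z k 1 + c' * P 2 := by rw [← hcc]; linear_combination e2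
    rw [Set.mem_iUnion]
    refine ⟨k, c', ?_, ?_⟩
    · change Polynomial.eval c' (R k) = 0
      rw [hv0, hv1', hcc] at e0
      simp only [hR, hB0, Polynomial.eval_mul, Polynomial.eval_X, Polynomial.eval_add,
        Polynomial.eval_C]
      linear_combination e0
    · funext i
      fin_cases i
      · exact hv0.symm
      · exact hv1'.symm

end

end Pool.Agent.H371R3.GQ
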