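import Pool.Agent.H371R3.GQ.D5
import Pool.Agent.H371R3.GQ.C6
import Pool.Agent.Helper947.Geo.A2

set_option autoImplicit false
set_option linter.unusedSectionVars false
set_option linter.unusedSimpArgs false
open MvPolynomial

namespace Pool.Agent.H371R3.GQ

section
variable {ι : Type} [Fintype ι]

/-- dimension of the space of forms vanishing at the points -/
lemma finrank_ker_rk {K : Type} [Field K] (v : ι → Fin 3 → K) (m : ℕ) :
    rk v m + Module.finrank K (LinearMap.ker (evm v m)) = (m + 2).choose 2 := by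
  have := LinearMap.finrank_range_add_finrank_ker (evm v m)
  rw [finrank_hom] at this
  exact this

/-- multiples of a form -/
noncomputable def mults {K : Type} [Field K] (F : MvPolynomial (Fin 3) K) (e : ℕ) :
    Submodule K (MvPolynomial (Fin 3) K) :=
  (homogeneousSubmodule (Fin 3) K e).map (LinearMap.mulRight K F)

lemma mults_le {K : Type} [Field K] (F : MvPolynomial (Fin 3) K) (e : ℕ) :
    Module.finrank K (mults F e) ≤ (e + 2).choose 2 := by
  rw [← finrank_hom (k := K) e]
  exact Submodule.finrank_map_le _ _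

lemma mults_eq {K : Type} [Field K] {F : MvPolynomial (Fin 3) K} (hF : F ≠ 0) (e : ℕ) :
    Module.finrank K (mults F e) = (e + 2).choose 2 := by
  rw [← finrank_hom (k := K) e]
  have hinj : Function.Injective (LinearMap.mulRight K F) := by
    intro x y hxy
    exact mul_right_cancel₀ hF hxy
  exact (Submodule.equivMapOfInjective _ hinj _).finrank_eq.symm

/-- forms of the ideal in degree `b`, as polynomials -/
noncomputable def kerm {K : Type} [Field K] (v : ι → Fin 3 → K) (m : ℕ) :
    Submodule K (MvPolynomial (Fin 3) K) :=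
  (LinearMap.ker (evm v m)).map (homogeneousSubmodule (Fin 3) K m).subtype

lemma mem_kerm {K : Type} [Field K] {v : ι → Fin 3 → K} {m : ℕ} {f : MvPolynomial (Fin 3) K} :
    f ∈ kerm v m ↔ f.IsHomogeneous m ∧ ∀ k, eval (v k) f = 0 := by
  constructor
  · rintro ⟨⟨f, hf⟩, h1, rfl⟩
    rw [SetLike.mem_coe, mem_ker_evm] at h1
    exact ⟨hf, h1⟩
  · rintro ⟨h1, h2⟩
    refine ⟨⟨f, h1⟩, ?_, rfl⟩
    rw [SetLike.mem_coe, mem_ker_evm]
    exact h2

lemma finrank_kerm {K : Type} [Field K] (v : ι → Fin 3 → K) (m : ℕ) :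
    rk v m + Module.finrank K (kerm v m) = (m + 2).choose 2 := by
  rw [← finrank_ker_rk v m, kerm, Submodule.finrank_map_subtype_eq]

instance {K : Type} [Field K] (v : ι → Fin 3 → K) (m : ℕ) : Module.Finite K (kerm v m) := by
  unfold kerm
  infer_instance

lemma kerm_low {w : ι → Fin 3 → ℂ} {F0 G0 : R3} {a b : ℕ} (h : HG w F0 G0 a b) (ha : 1 ≤ a) :
    (b - a + 2).choose 2 < Module.finrank ℂ (kerm w b) := by
  rw [← mults_eq h.hF0 (b - a)]
  apply Submodule.finrank_lt_finrank_of_lt
  refine lt_of_le_of_ne ?_ ?_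
  · rintro _ ⟨x, hx, rfl⟩
    rw [mem_kerm]
    have hab := h.hab
    refine ⟨?_, fun k => ?_⟩
    · have := IsHomogeneous.mul ((mem_homogeneousSubmodule _ _).mp hx) h.hF
      rwa [show b - a + a = b by omega] at this
    · rw [LinearMap.mulRight_apply, map_mul, h.hFv, mul_zero]
  · intro heq
    have h1 : G0 ∈ mults F0 (b - a) := by
      rw [heq, mem_kerm]
      exact ⟨h.hG, h.hGv⟩
    obtain ⟨x, -, hx⟩ := h1
    rw [LinearMap.mulRight_apply] at hx
    have h2 : IsUnit F0 := h.hrel dvd_rfl ⟨x, by rw [← hx, mul_comm]⟩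
    obtain ⟨c, hc⟩ := h2.exists_right_inv
    have hc0 : c ≠ 0 := by
      rintro rfl
      rw [mul_zero] at hc
      exact zero_ne_one hc
    have h3 := congrArg totalDegree hc
    rw [totalDegree_mul_of_isDomain h.hF0 hc0, h.hF.totalDegree h.hF0, totalDegree_one] at h3
    omega

/-- the forms over the function field -/
theorem exists_FG (z : ι → Fin 2 → ℂ) {w : ι → Fin 3 → ℂ} {F0 G0 : R3} {a b : ℕ}
    (h : HG w F0 G0 a b) (ha : 1 ≤ a)
    (hrk : ∀ m, m ≤ b → rk (fun k => wK (z k)) m ≤ rk w m) :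
    ∃ F G : Ax, F.IsHomogeneous a ∧ G.IsHomogeneous b ∧ F ≠ 0 ∧
      (∀ s : Bx, s ≠ 0 → ¬ F ∣ C s * G) ∧
      (∀ i, eval (wk (z i)) F = 0) ∧ (∀ i, eval (wk (z i)) G = 0) := by
  have hab := h.hab
  -- a form of degree `a`
  have h1 : 0 < Module.finrank ℂ (kerm w a) := by
    have hmem : F0 ∈ kerm w a := mem_kerm.mpr ⟨h.hF, h.hFv⟩
    rw [Module.finrank_pos_iff_exists_ne_zero]
    exact ⟨⟨F0, hmem⟩, fun h0 => h.hF0 (congrArg Subtype.val h0)⟩
  have h2 : 0 < Module.finrank Kx (kerm (fun k => wK (z k)) a) := by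
    have e1 := finrank_kerm w a
    have e2 := finrank_kerm (fun k => wK (z k)) a
    have e3 := hrk a hab
    omega
  rw [Module.finrank_pos_iff_exists_ne_zero] at h2
  obtain ⟨⟨f, hf⟩, hf0⟩ := h2
  have hf0' : f ≠ 0 := fun h0 => hf0 (Subtype.ext h0)
  rw [mem_kerm] at hf
  -- a form of degree `b`
  have h3 : Module.finrank Kx (mults f (b - a)) < Module.finrank Kx (kerm (fun k => wK (z k)) b) := by
    refine lt_of_le_of_lt (mults_le f (b - a)) ?_
    have e0 := kerm_low h ha
    have e1 := finrank_kerm w b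
    have e2 := finrank_kerm (fun k => wK (z k)) b
    have e3 := hrk b le_rfl
    omega
  obtain ⟨g, hg, hgn⟩ : ∃ g ∈ kerm (fun k => wK (z k)) b, g ∉ mults f (b - a) := by
    by_contra hcon
    push Not at hcon
    have hle : kerm (fun k => wK (z k)) b ≤ mults f (b - a) := hcon
    haveI : Module.Finite Kx (mults f (b - a)) := by
      unfold mults; infer_instance
    have := Submodule.finrank_mono hle
    omega
  rw [mem_kerm] at hg
  obtain ⟨s, F, hs, hF⟩ := clear f
  obtain ⟨t, G, ht, hG⟩ := clear g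
  have hs' : algebraMap Bx Kx s ≠ 0 := fun h0 => hs (alg_inj (by rw [h0, map_zero]))
  have ht' : algebraMap Bx Kx t ≠ 0 := fun h0 => ht (alg_inj (by rw [h0, map_zero]))
  refine ⟨F, G, hom_of_ph (by rw [hF]; exact hf.1.C_mul _), hom_of_ph (by rw [hG]; exact hg.1.C_mul _),
    ?_, ?_, ?_, ?_⟩
  · rintro rfl
    rw [map_zero] at hF
    exact mul_ne_zero (C_ne_zero.mpr hs') hf0' hF.symm
  · intro u hu hdvd
    obtain ⟨x, hx⟩ := hdvd
    have hu' : algebraMap Bx Kx u ≠ 0 := fun h0 => hu (alg_inj (by rw [h0, map_zero]))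
    have h4 := congrArg ph hx
    rw [map_mul, map_mul, ph_C, hG, hF] at h4
    apply hgn
    have hfg : f ∣ g := by
      have h5 : f ∣ C (algebraMap Bx Kx u) * (C (algebraMap Bx Kx t) * g) := by
        rw [h4]
        exact ⟨C (algebraMap Bx Kx s) * ph x, by ring⟩
      rw [((isUnit_iff_ne_zero.mpr hu').map C).dvd_mul_left,
        ((isUnit_iff_ne_zero.mpr ht').map C).dvd_mul_left] at h5
      exact h5
    obtain ⟨y, hy⟩ := hfg
    refine ⟨y, ?_, by rw [LinearMap.mulRight_apply, hy, mul_comm]⟩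
    apply (mem_homogeneousSubmodule _ _).mpr
    apply hom_of_mul' hf.1 hf0'
    rw [mul_comm, ← hy, show b - a + a = b by omega]
    exact hg.1
  · intro i
    apply alg_inj
    rw [← eval_ph, hF, map_mul, hf.2 i, mul_zero, map_zero]
  · intro i
    apply alg_inj
    rw [← eval_ph, hG, map_mul, hg.2 i, mul_zero, map_zero]

/-- the theorem in normal form -/
theorem normal (z : ι → Fin 2 → ℂ) (hz : Function.Injective z)
    (hsp : Submodule.span ℂ (Set.range fun k : ι => zt (z k)) = ⊤)
    (hgp : ∃ h : MvPolynomial (Fin 4) ℂ, h ≠ 0 ∧ ∀ P : Fin 4 → ℂ, P ≠ 0 → eval P h ≠ 0 →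
      ∃ F G : MvPolynomial (Fin 4) ℂ, ∀ f : MvPolynomial (Fin 4) ℂ,
        f ∈ Ideal.span {F, G} ↔ ∀ k, ∀ s t : ℂ, eval (s • P + t • zt (z k)) f = 0) :
    IsProd z ∨ (∃ b, IsTwo z b) ∨ Fintype.card ι = 4 := by
  classical
  obtain ⟨h, hh, hgp⟩ := hgp
  have hne : Nonempty ι := by
    by_contra hcon
    rw [not_nonempty_iff] at hcon
    rw [Set.range_eq_empty, Submodule.span_empty] at hsp
    exact bot_ne_top hsp
  have hind : ∀ k l, k ≠ l → LinearIndependent ℂ ![zt (z k), zt (z l)] := by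
    intro k l hkl
    rw [LinearIndependent.pair_iff]
    intro s t hst
    have e1 := congrFun hst 1
    have e2 := congrFun hst 2
    have e3 := congrFun hst 3
    change s * z k 0 + t * z l 0 = 0 at e1
    change s * z k 1 + t * z l 1 = 0 at e2
    change s * 1 + t * 1 = 0 at e3
    have hs : s = 0 := by
      by_contra hs
      apply hkl
      apply hz
      have ht : t = -s := by linear_combination e3
      funext l'
      fin_cases l'
      · apply mul_left_cancel₀ hs
        change s * z k 0 = s * z l 0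
        rw [ht] at e1
        linear_combination e1
      · apply mul_left_cancel₀ hs
        change s * z k 1 = s * z l 1
        rw [ht] at e2
        linear_combination e2
    exact ⟨hs, by rw [hs] at e3; linear_combination e3⟩
  have hz0 : ∀ k, zt (z k) ≠ 0 := by
    intro k h0
    have := congrFun h0 3
    exact one_ne_zero this
  obtain ⟨φ₁, hφ₁, hP₁⟩ := Pool.Agent.Helper947.Geo.projv_indep (N := 3) (fun k => zt (z k)) hind
    hz0 le_rfl hsp
  obtain ⟨φ₂, hφ₂, hP₂⟩ := generic_rk (fun k => zt (z k)) (Fintype.card ι + 1)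
  have hq : (X 0 * X 3 - X 1 * X 2 : MvPolynomial (Fin 4) ℂ) ≠ 0 := by
    intro h0
    have := congrArg (eval ![1, 0, 0, 1]) h0
    simp at this
  obtain ⟨P, hP⟩ := exists_eval_ne _ (mul_ne_zero (mul_ne_zero hh hφ₁) (mul_ne_zero hφ₂ hq))
  rw [map_mul, map_mul, map_mul] at hP
  have p1 := left_ne_zero_of_mul (left_ne_zero_of_mul hP)
  have p2 := right_ne_zero_of_mul (left_ne_zero_of_mul hP)
  have p3 := left_ne_zero_of_mul (right_ne_zero_of_mul hP)
  have p4 := right_ne_zero_of_mul (right_ne_zero_of_mul hP)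
  simp only [map_sub, map_mul, eval_X] at p4
  obtain ⟨hP3, hwi, hw0, hwsp⟩ := hP₁ P p2
  change P 3 ≠ 0 at hP3
  change ∀ k l, k ≠ l → LinearIndependent ℂ ![pj P (zt (z k)), pj P (zt (z l))] at hwi
  change ∀ k, pj P (zt (z k)) ≠ 0 at hw0
  change Submodule.span ℂ (Set.range fun k => pj P (zt (z k))) = ⊤ at hwsp
  have hP0 : P ≠ 0 := by
    rintro rfl
    exact hP3 rfl
  obtain ⟨F, G, hFG⟩ := plane_ideal (fun k => zt (z k)) hP3 (hgp P hP0 p1)
  obtain ⟨F0, G0, a, b, hHG⟩ := exists_hg hne hwi hw0 F G hFG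
  have hcard := hHG.card hwi hw0
  -- `a ≥ 2`
  have ha : 2 ≤ a := by
    by_contra hlt
    obtain ⟨k0⟩ := hne
    rcases (by omega : a = 0 ∨ a = 1) with h0 | h0
    · subst h0
      obtain ⟨c, hc⟩ : ∃ c, F0 = C c :=
        ⟨_, totalDegree_eq_zero_iff_eq_C.mp (hHG.hF.totalDegree hHG.hF0)⟩
      have := hHG.hFv k0
      rw [hc, eval_C] at this
      exact hHG.hF0 (by rw [hc, this, C_0])
    · subst h0
      apply hHG.hF0
      rw [lin_eq hHG.hF]
      apply Finset.sum_eq_zero
      intro i _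
      have hev : ∀ v : Fin 3 → ℂ, eval v F0 = ∑ j, coeff (Finsupp.single j 1) F0 * v j := by
        intro v
        conv_lhs => rw [lin_eq hHG.hF]
        simp
      have hmem : (Pi.single i 1 : Fin 3 → ℂ) ∈ Submodule.span ℂ
          (Set.range fun k => pj P (zt (z k))) := by rw [hwsp]; trivial
      rw [Submodule.mem_span_range_iff_exists_fun] at hmem
      obtain ⟨x, hx⟩ := hmem
      have h1 : eval (Pi.single i 1 : Fin 3 → ℂ) F0 = 0 := by
        rw [← hx, hev]
        simp only [Finset.sum_apply, Pi.smul_apply, smul_eq_mul, Finset.mul_sum]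
        rw [Finset.sum_comm]
        apply Finset.sum_eq_zero
        intro k _
        have h2 := hHG.hFv k
        rw [hev] at h2
        calc ∑ j, coeff (Finsupp.single j 1) F0 * (x k * pj P (zt (z k)) j)
            = x k * ∑ j, coeff (Finsupp.single j 1) F0 * pj P (zt (z k)) j := by
              rw [Finset.mul_sum]
              exact Finset.sum_congr rfl fun j _ => by ring
          _ = 0 := by rw [h2, mul_zero]
      rw [hev, Finset.sum_eq_single i] at h1
      · rw [Pi.single_eq_same, mul_one] at h1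
        rw [h1, C_0, zero_mul]
      · intro j _ hj
        rw [Pi.single_eq_of_ne hj, mul_zero]
      · simp
  have hab := hHG.hab
  have hBB := BB_quadric z hz hne hP3 p4 hHG hw0
  have hrk : ∀ m, m ≤ b → rk (fun k => wK (z k)) m ≤ rk (fun k => pj P (zt (z k))) m := by
    intro m hm
    apply rk_le z
    have hbc : b ≤ Fintype.card ι := by
      rw [hcard]
      calc b = 1 * b := (one_mul b).symm
        _ ≤ a * b := Nat.mul_le_mul (by omega) le_rfl
    exact hP₂ P p3 m (by omega)
  obtain ⟨F', G', hF', hG', hF'0, hFG', hF'v, hG'v⟩ := exists_FG z hHG (by omega) hrk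
  rcases mainK hz hBB hcard ha hab hF' hG' hF'0 hFG' hF'v hG'v hsp with h1 | h1 | h1
  · exact Or.inl h1
  · exact Or.inr (Or.inl ⟨b, h1⟩)
  · exact Or.inr (Or.inr h1)

end

end Pool.Agent.H371R3.GQ
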