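import Pool.Agent.H371R3.GQ.D6
import Pool.Agent.Helper947.Geo.A5

set_option autoImplicit false
set_option linter.unusedSectionVars false
set_option linter.unusedSimpArgs false
open MvPolynomial

namespace Pool.Agent.H371R3.GQ

abbrev V4 := Fin 4 → ℂ

/-- the points `p k` form a grid -/
def Grid {ι : Type} (p : ι → V4) : Prop :=
  ∃ a b : ℕ, ∃ L : Fin a → Submodule ℂ V4, ∃ M : Fin b → Submodule ℂ V4,
    (∀ i, Module.finrank ℂ (L i) = 2) ∧ (∀ j, Module.finrank ℂ (M j) = 2) ∧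
    (∀ i i', i ≠ i' → L i ⊓ L i' = ⊥) ∧ (∀ j j', j ≠ j' → M j ⊓ M j' = ⊥) ∧
    (∀ i j, Module.finrank ℂ (↥(L i ⊓ M j)) = 1) ∧
    (∀ k, ∃ i j, Submodule.span ℂ {p k} = L i ⊓ M j) ∧
    (∀ i j, ∃ k, Submodule.span ℂ {p k} = L i ⊓ M j)

theorem Grid.of_equiv {ι : Type} {p : ι → V4} (T : V4 ≃ₗ[ℂ] V4) (h : Grid (fun k => T (p k))) :
    Grid p := by
  obtain ⟨a, b, L, M, h1, h2, h3, h4, h5, h6, h7⟩ := h
  have hinj : Function.Injective (T.symm : V4 →ₗ[ℂ] V4) := T.symm.injective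
  have hspan : ∀ k, (Submodule.span ℂ {T (p k)}).map (T.symm : V4 →ₗ[ℂ] V4) =
      Submodule.span ℂ {p k} := by
    intro k
    rw [Submodule.map_span, Set.image_singleton]
    simp
  refine ⟨a, b, fun i => (L i).map (T.symm : V4 →ₗ[ℂ] V4), fun j => (M j).map (T.symm : V4 →ₗ[ℂ] V4),
    ?_, ?_, ?_, ?_, ?_, ?_, ?_⟩
  · intro i
    exact (LinearEquiv.finrank_map_eq T.symm (L i)).trans (h1 i)
  · intro j
    exact (LinearEquiv.finrank_map_eq T.symm (M j)).trans (h2 j)
  · intro i i' hi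
    rw [← Submodule.map_inf _ hinj, h3 i i' hi, Submodule.map_bot]
  · intro j j' hj
    rw [← Submodule.map_inf _ hinj, h4 j j' hj, Submodule.map_bot]
  · intro i j
    rw [← Submodule.map_inf _ hinj]
    exact (LinearEquiv.finrank_map_eq T.symm (L i ⊓ M j)).trans (h5 i j)
  · intro k
    obtain ⟨i, j, hij⟩ := h6 k
    exact ⟨i, j, by rw [← Submodule.map_inf _ hinj, ← hij, hspan]⟩
  · intro i j
    obtain ⟨k, hk⟩ := h7 i j
    exact ⟨k, by rw [← Submodule.map_inf _ hinj, ← hk, hspan]⟩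

theorem Grid.of_scale {ι : Type} {p p' : ι → V4} (h : Grid p') (c : ι → ℂ) (hc : ∀ k, c k ≠ 0)
    (hp : ∀ k, p k = c k • p' k) : Grid p := by
  have hs : ∀ k, Submodule.span ℂ {p k} = Submodule.span ℂ {p' k} := by
    intro k
    rw [hp k]
    exact Submodule.span_singleton_smul_eq (isUnit_iff_ne_zero.mpr (hc k)) _
  obtain ⟨a, b, L, M, h1, h2, h3, h4, h5, h6, h7⟩ := h
  refine ⟨a, b, L, M, h1, h2, h3, h4, h5, ?_, ?_⟩
  · intro k; rw [hs]; exact h6 k
  · intro i j
    obtain ⟨k, hk⟩ := h7 i j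
    exact ⟨k, by rw [hs]; exact hk⟩

/-- lines of the rulings -/
def LL (σ : Fin 2) (ξ : ℂ) : Submodule ℂ V4 where
  carrier := {v | v 0 = ξ * v (if σ = 0 then 2 else 1) ∧ v (if σ = 0 then 1 else 2) = ξ * v 3}
  add_mem' := by
    rintro u v ⟨h1, h2⟩ ⟨h3, h4⟩
    refine ⟨?_, ?_⟩
    · rw [Pi.add_apply, Pi.add_apply, h1, h3]; ring
    · rw [Pi.add_apply, Pi.add_apply, h2, h4]; ring
  zero_mem' := by simp
  smul_mem' := by
    rintro c v ⟨h1, h2⟩
    refine ⟨?_, ?_⟩
    · rw [Pi.smul_apply, Pi.smul_apply, smul_eq_mul, smul_eq_mul, h1]; ring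
    · rw [Pi.smul_apply, Pi.smul_apply, smul_eq_mul, smul_eq_mul, h2]; ring

lemma mem_LL0 {ξ : ℂ} {v : V4} : v ∈ LL 0 ξ ↔ v 0 = ξ * v 2 ∧ v 1 = ξ * v 3 := Iff.rfl
lemma mem_LL1 {ξ : ℂ} {v : V4} : v ∈ LL 1 ξ ↔ v 0 = ξ * v 1 ∧ v 2 = ξ * v 3 := Iff.rfl

lemma zt_mem (σ : Fin 2) (ξ : ℂ) (v : Fin 2 → ℂ) : zt v ∈ LL σ ξ ↔ v σ = ξ := by
  fin_cases σ
  · change zt v ∈ LL 0 ξ ↔ v 0 = ξ
    rw [mem_LL0]
    change v 0 * v 1 = ξ * v 1 ∧ v 0 = ξ * 1 ↔ v 0 = ξ
    constructor
    · rintro ⟨-, h⟩; rw [h, mul_one]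
    · rintro rfl; exact ⟨rfl, (mul_one _).symm⟩
  · change zt v ∈ LL 1 ξ ↔ v 1 = ξ
    rw [mem_LL1]
    change v 0 * v 1 = ξ * v 0 ∧ v 1 = ξ * 1 ↔ v 1 = ξ
    constructor
    · rintro ⟨-, h⟩; rw [h, mul_one]
    · rintro rfl; exact ⟨mul_comm _ _, (mul_one _).symm⟩

lemma LL_finrank (σ : Fin 2) (ξ : ℂ) : Module.finrank ℂ (LL σ ξ) = 2 := by
  fin_cases σ
  · let e : LL 0 ξ ≃ₗ[ℂ] (Fin 2 → ℂ) :=
      { toFun := fun v => ![v.1 2, v.1 3]
        map_add' := by intro u v; funext i; fin_cases i <;> rfl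
        map_smul' := by intro c v; funext i; fin_cases i <;> rfl
        invFun := fun x => ⟨![ξ * x 0, ξ * x 1, x 0, x 1], ⟨rfl, rfl⟩⟩
        left_inv := by
          rintro ⟨v, h1, h2⟩
          apply Subtype.ext
          funext i
          fin_cases i
          · exact h1.symm
          · exact h2.symm
          · rfl
          · rfl
        right_inv := by intro x; funext i; fin_cases i <;> rfl }
    have := e.finrank_eq
    rw [Module.finrank_fintype_fun_eq_card, Fintype.card_fin] at this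
    exact this
  · let e : LL 1 ξ ≃ₗ[ℂ] (Fin 2 → ℂ) :=
      { toFun := fun v => ![v.1 1, v.1 3]
        map_add' := by intro u v; funext i; fin_cases i <;> rfl
        map_smul' := by intro c v; funext i; fin_cases i <;> rfl
        invFun := fun x => ⟨![ξ * x 0, x 0, ξ * x 1, x 1], ⟨rfl, rfl⟩⟩
        left_inv := by
          rintro ⟨v, h1, h2⟩
          apply Subtype.ext
          funext i
          fin_cases i
          · exact h1.symm
          · rfl
          · exact h2.symm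
          · rfl
        right_inv := by intro x; funext i; fin_cases i <;> rfl }
    have := e.finrank_eq
    rw [Module.finrank_fintype_fun_eq_card, Fintype.card_fin] at this
    exact this

lemma LL_inf (σ : Fin 2) {ξ ξ' : ℂ} (h : ξ ≠ ξ') : LL σ ξ ⊓ LL σ ξ' = ⊥ := by
  rw [eq_bot_iff]
  rintro v ⟨⟨h1, h2⟩, ⟨h3, h4⟩⟩
  rw [Submodule.mem_bot]
  have hsub : ξ - ξ' ≠ 0 := sub_ne_zero.mpr h
  have e3 : v 3 = 0 := by
    have : (ξ - ξ') * v 3 = 0 := by linear_combination h4 - h2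
    exact (mul_eq_zero.mp this).resolve_left hsub
  have ea : v (if σ = 0 then 2 else 1) = 0 := by
    have : (ξ - ξ') * v (if σ = 0 then 2 else 1) = 0 := by linear_combination h3 - h1
    exact (mul_eq_zero.mp this).resolve_left hsub
  rw [ea, mul_zero] at h1
  rw [e3, mul_zero] at h2
  fin_cases σ
  · funext i
    fin_cases i
    · exact h1
    · exact h2
    · exact ea
    · exact e3
  · funext i
    fin_cases i
    · exact h1
    · exact ea
    · exact h2
    · exact e3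

lemma LL_meet (x y : ℂ) : LL 0 x ⊓ LL 1 y = Submodule.span ℂ {zt ![x, y]} := by
  apply le_antisymm
  · rintro v ⟨⟨h1, h2⟩, ⟨h3, h4⟩⟩
    rw [Submodule.mem_span_singleton]
    refine ⟨v 3, ?_⟩
    change v 0 = x * v 2 at h1
    change v 1 = x * v 3 at h2
    change v 2 = y * v 3 at h4
    funext i
    fin_cases i
    · change v 3 * (x * y) = v 0
      rw [h1, h4]; ring
    · change v 3 * x = v 1
      rw [h2]; ring
    · change v 3 * y = v 2
      rw [h4]; ring
    · change v 3 * 1 = v 3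
      ring
  · rw [Submodule.span_singleton_le_iff_mem]
    exact ⟨(zt_mem 0 x _).mpr rfl, (zt_mem 1 y _).mpr rfl⟩

lemma zt_ne (v : Fin 2 → ℂ) : zt v ≠ 0 := by
  intro h
  have := congrFun h 3
  exact one_ne_zero this

/-- the product case -/
theorem grid_prod {ι : Type} {z : ι → Fin 2 → ℂ} (h : IsProd z) : Grid (fun k => zt (z k)) := by
  classical
  obtain ⟨S, T, hST⟩ := h
  refine ⟨S.card, T.card, fun i => LL 0 (S.equivFin.symm i), fun j => LL 1 (T.equivFin.symm j),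
    fun i => LL_finrank _ _, fun j => LL_finrank _ _, ?_, ?_, ?_, ?_, ?_⟩
  · intro i i' hi
    apply LL_inf
    intro h
    exact hi (S.equivFin.symm.injective (Subtype.ext h))
  · intro j j' hj
    apply LL_inf
    intro h
    exact hj (T.equivFin.symm.injective (Subtype.ext h))
  · intro i j
    rw [LL_meet]
    exact finrank_span_singleton (zt_ne _)
  · intro k
    have hk := (hST (z k)).mp ⟨k, rfl⟩
    refine ⟨S.equivFin ⟨_, hk.1⟩, T.equivFin ⟨_, hk.2⟩, ?_⟩
    beta_reduce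
    rw [Equiv.symm_apply_apply, Equiv.symm_apply_apply, LL_meet]
    congr 3
    funext i
    fin_cases i <;> rfl
  · intro i j
    obtain ⟨k, hk⟩ := (hST ![(S.equivFin.symm i : ℂ), (T.equivFin.symm j : ℂ)]).mpr
      ⟨(S.equivFin.symm i).2, (T.equivFin.symm j).2⟩
    exact ⟨k, by beta_reduce; rw [LL_meet, hk]⟩

/-- two skew lines with the same number of points -/
theorem grid_two {ι : Type} {b : ℕ} (L₁ L₂ : Submodule ℂ V4) (h₁ : Module.finrank ℂ L₁ = 2)
    (h₂ : Module.finrank ℂ L₂ = 2) (h12 : L₁ ⊓ L₂ = ⊥) (P Q : Fin b → V4)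
    (hP : ∀ j, P j ∈ L₁) (hQ : ∀ j, Q j ∈ L₂)
    (hP0 : ∀ j, P j ≠ 0) (hQ0 : ∀ j, Q j ≠ 0)
    (hPi : ∀ j j', j ≠ j' → ∀ s t : ℂ, s • P j = t • P j' → s = 0)
    (hQi : ∀ j j', j ≠ j' → ∀ s t : ℂ, s • Q j = t • Q j' → s = 0)
    (p : ι → V4) (hp1 : ∀ k, (∃ j, p k = P j) ∨ (∃ j, p k = Q j))
    (hp2 : ∀ j, ∃ k, p k = P j) (hp3 : ∀ j, ∃ k, p k = Q j) : Grid p := by
  have hz : ∀ v, v ∈ L₁ → v ∈ L₂ → v = 0 := by
    intro v h3 h4
    have : v ∈ L₁ ⊓ L₂ := ⟨h3, h4⟩
    rwa [h12, Submodule.mem_bot] at this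
  have hm1 : ∀ j, L₁ ⊓ Submodule.span ℂ {P j, Q j} = Submodule.span ℂ {P j} := by
    intro j
    apply le_antisymm
    · rintro v ⟨hv1, hv2⟩
      rw [SetLike.mem_coe, Submodule.mem_span_pair] at hv2
      obtain ⟨s, t, rfl⟩ := hv2
      have h3 : t • Q j ∈ L₁ := by
        have := L₁.sub_mem hv1 (L₁.smul_mem s (hP j))
        rwa [add_sub_cancel_left] at this
      rw [hz _ h3 (L₂.smul_mem t (hQ j)), add_zero]
      exact Submodule.smul_mem _ _ (Submodule.mem_span_singleton_self _)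
    · rw [Submodule.span_singleton_le_iff_mem]
      exact ⟨hP j, Submodule.subset_span (by simp)⟩
  have hm2 : ∀ j, L₂ ⊓ Submodule.span ℂ {P j, Q j} = Submodule.span ℂ {Q j} := by
    intro j
    apply le_antisymm
    · rintro v ⟨hv1, hv2⟩
      rw [SetLike.mem_coe, Submodule.mem_span_pair] at hv2
      obtain ⟨s, t, rfl⟩ := hv2
      have h3 : s • P j ∈ L₂ := by
        have := L₂.sub_mem hv1 (L₂.smul_mem t (hQ j))
        rwa [add_sub_cancel_right] at this
      rw [hz _ (L₁.smul_mem s (hP j)) h3, zero_add]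
      exact Submodule.smul_mem _ _ (Submodule.mem_span_singleton_self _)
    · rw [Submodule.span_singleton_le_iff_mem]
      exact ⟨hQ j, Submodule.subset_span (by simp)⟩
  refine ⟨2, b, ![L₁, L₂], fun j => Submodule.span ℂ {P j, Q j}, ?_, ?_, ?_, ?_, ?_, ?_, ?_⟩
  · intro i
    fin_cases i
    · exact h₁
    · exact h₂
  · intro j
    have hli : LinearIndependent ℂ ![P j, Q j] := by
      rw [LinearIndependent.pair_iff]
      intro s t hst
      have h3 : s • P j = -(t • Q j) := eq_neg_of_add_eq_zero_left hst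
      have h4 : s • P j = 0 := hz _ (L₁.smul_mem s (hP j)) (by
        rw [h3]; exact L₂.neg_mem (L₂.smul_mem t (hQ j)))
      rw [h4] at h3
      have h5 : t • Q j = 0 := by rw [← neg_eq_zero]; exact h3.symm
      exact ⟨(smul_eq_zero.mp h4).resolve_right (hP0 j), (smul_eq_zero.mp h5).resolve_right (hQ0 j)⟩
    have := finrank_span_eq_card hli
    rw [Matrix.range_cons, Matrix.range_cons, Matrix.range_empty, Set.union_empty,
      Fintype.card_fin] at this
    exact this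
  · intro i i' hi
    fin_cases i <;> fin_cases i'
    · exact absurd rfl hi
    · exact h12
    · rw [inf_comm]; exact h12
    · exact absurd rfl hi
  · intro j j' hj
    rw [eq_bot_iff]
    rintro v ⟨hv1, hv2⟩
    rw [SetLike.mem_coe, Submodule.mem_span_pair] at hv1 hv2
    obtain ⟨s, t, hst⟩ := hv1
    obtain ⟨s', t', hst'⟩ := hv2
    have h3 : s • P j - s' • P j' = t' • Q j' - t • Q j := by
      rw [sub_eq_sub_iff_add_eq_add, hst, ← hst', add_comm]
    have h4 : s • P j - s' • P j' = 0 := hz _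
      (L₁.sub_mem (L₁.smul_mem _ (hP j)) (L₁.smul_mem _ (hP j')))
      (by rw [h3]; exact L₂.sub_mem (L₂.smul_mem _ (hQ j')) (L₂.smul_mem _ (hQ j)))
    rw [h4] at h3
    have hs := hPi j j' hj s s' (sub_eq_zero.mp h4)
    have ht := hQi j j' hj t t' (sub_eq_zero.mp h3.symm).symm
    rw [Submodule.mem_bot, ← hst, hs, ht, zero_smul, zero_smul, add_zero]
  · intro i j
    fin_cases i
    · change Module.finrank ℂ (↥(L₁ ⊓ Submodule.span ℂ {P j, Q j})) = 1
      rw [hm1]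
      exact finrank_span_singleton (hP0 j)
    · change Module.finrank ℂ (↥(L₂ ⊓ Submodule.span ℂ {P j, Q j})) = 1
      rw [hm2]
      exact finrank_span_singleton (hQ0 j)
  · intro k
    rcases hp1 k with ⟨j, hj⟩ | ⟨j, hj⟩
    · exact ⟨0, j, by rw [hj]; exact (hm1 j).symm⟩
    · exact ⟨1, j, by rw [hj]; exact (hm2 j).symm⟩
  · intro i j
    fin_cases i
    · obtain ⟨k, hk⟩ := hp2 j
      exact ⟨k, by rw [hk]; exact (hm1 j).symm⟩
    · obtain ⟨k, hk⟩ := hp3 j
      exact ⟨k, by rw [hk]; exact (hm2 j).symm⟩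

lemma zt_indep {v v' : Fin 2 → ℂ} (h : v ≠ v') {s t : ℂ} (hst : s • zt v = t • zt v') : s = 0 := by
  by_contra hs
  apply h
  have e1 := congrFun hst 1
  have e2 := congrFun hst 2
  have e3 := congrFun hst 3
  change s * v 0 = t * v' 0 at e1
  change s * v 1 = t * v' 1 at e2
  change s * 1 = t * 1 at e3
  have ht : t = s := by linear_combination -e3
  rw [ht] at e1 e2
  funext i
  fin_cases i
  · exact mul_left_cancel₀ hs e1
  · exact mul_left_cancel₀ hs e2

theorem grid_isTwo {ι : Type} [Fintype ι] {z : ι → Fin 2 → ℂ} (hz : Function.Injective z) {b : ℕ}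
    (h : IsTwo z b) : Grid (fun k => zt (z k)) := by
  classical
  obtain ⟨σ, h2, hfib⟩ := h
  rw [Finset.card_eq_two] at h2
  obtain ⟨ξ₁, ξ₂, hne, him⟩ := h2
  have f1 := hfib ξ₁ (by rw [him]; simp)
  have f2 := hfib ξ₂ (by rw [him]; simp)
  set A := Finset.univ.filter (fun k => z k σ = ξ₁) with hA
  set B := Finset.univ.filter (fun k => z k σ = ξ₂) with hB
  let eA : Fin b ≃ A := (Finset.equivFinOfCardEq f1).symm
  let eB : Fin b ≃ B := (Finset.equivFinOfCardEq f2).symm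
  have mA : ∀ j, z (eA j) σ = ξ₁ := fun j => (Finset.mem_filter.mp (eA j).2).2
  have mB : ∀ j, z (eB j) σ = ξ₂ := fun j => (Finset.mem_filter.mp (eB j).2).2
  apply grid_two (LL σ ξ₁) (LL σ ξ₂) (LL_finrank _ _) (LL_finrank _ _) (LL_inf σ hne)
    (fun j => zt (z (eA j))) (fun j => zt (z (eB j))) (fun j => (zt_mem _ _ _).mpr (mA j))
    (fun j => (zt_mem _ _ _).mpr (mB j)) (fun j => zt_ne _) (fun j => zt_ne _)
  · intro j j' hj s t hst
    exact zt_indep (fun h => hj (eA.injective (Subtype.ext (hz h)))) hst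
  · intro j j' hj s t hst
    exact zt_indep (fun h => hj (eB.injective (Subtype.ext (hz h)))) hst
  · intro k
    have hk : z k σ ∈ ({ξ₁, ξ₂} : Finset ℂ) := by
      rw [← him]; exact Finset.mem_image_of_mem _ (Finset.mem_univ k)
    rw [Finset.mem_insert, Finset.mem_singleton] at hk
    rcases hk with hk | hk
    · left
      exact ⟨eA.symm ⟨k, Finset.mem_filter.mpr ⟨Finset.mem_univ k, hk⟩⟩, by simp⟩
    · right
      exact ⟨eB.symm ⟨k, Finset.mem_filter.mpr ⟨Finset.mem_univ k, hk⟩⟩, by simp⟩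
  · intro j; exact ⟨_, rfl⟩
  · intro j; exact ⟨_, rfl⟩

end Pool.Agent.H371R3.GQ
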