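import Pool.Agent.H371R3.GQ.E1

set_option autoImplicit false
set_option linter.unusedSectionVars false
set_option linter.unusedSimpArgs false
open MvPolynomial

namespace Pool.Agent.H371R3.GQ

lemma lin_eq_gen {n : ℕ} {L : MvPolynomial (Fin n) ℂ} (hL : L.IsHomogeneous 1) :
    L = ∑ j, C (coeff (Finsupp.single j 1) L) * X j := by
  ext m
  rw [coeff_sum]
  by_cases hm : m.degree = 1
  · obtain ⟨j, hj⟩ : ∃ j, m = Finsupp.single j 1 := by
      have hne : m ≠ 0 := by
        rintro rfl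
        simp at hm
      obtain ⟨j, hj⟩ := Finsupp.ne_iff.mp hne
      rw [Finsupp.coe_zero, Pi.zero_apply] at hj
      refine ⟨j, ?_⟩
      have h1 : m = Finsupp.single j 1 + (m - Finsupp.single j 1) := by
        ext l
        by_cases hl : l = j
        · subst hl; simp; omega
        · simp [Finsupp.single_apply, Ne.symm hl]
      have h2 : (m - Finsupp.single j 1).degree = 0 := by
        have h3 := congrArg Finsupp.degree h1
        rw [map_add, Finsupp.degree_single, hm] at h3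
        omega
      rw [Finsupp.degree_eq_zero_iff] at h2
      rw [h1, h2, add_zero]
    rw [hj]
    rw [Finset.sum_eq_single j]
    · rw [coeff_C_mul, X, coeff_monomial, if_pos rfl, mul_one]
    · intro i _ hij
      rw [coeff_C_mul, X, coeff_monomial, if_neg, mul_zero]
      intro h
      exact hij (Finsupp.single_left_injective one_ne_zero h)
    · simp
  · rw [hL.coeff_eq_zero hm]
    symm
    apply Finset.sum_eq_zero
    intro i _
    rw [coeff_C_mul, X, coeff_monomial, if_neg, mul_zero]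
    intro h
    apply hm
    rw [← h, Finsupp.degree_single]

/-- the bilinear form of a quadratic polynomial -/
noncomputable def qB (q : MvPolynomial (Fin 4) ℂ) : LinearMap.BilinForm ℂ V4 :=
  Matrix.toBilin' (Matrix.of fun i j => coeff (Finsupp.single j 1) (pderiv i q))

lemma qB_apply {q : MvPolynomial (Fin 4) ℂ} (hq : q.IsHomogeneous 2) (x y : V4) :
    qB q x y = ∑ i, x i * eval y (pderiv i q) := by
  rw [qB, Matrix.toBilin'_apply]
  refine Finset.sum_congr rfl fun i _ => ?_
  have h1 : (pderiv i q).IsHomogeneous 1 := hq.pderiv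
  conv_rhs => rw [lin_eq_gen h1]
  simp only [Matrix.of_apply, map_sum, map_mul, eval_C, eval_X, Finset.mul_sum]
  exact Finset.sum_congr rfl fun j _ => by ring

lemma qB_symm (q : MvPolynomial (Fin 4) ℂ) (x y : V4) : qB q x y = qB q y x := by
  rw [qB, Matrix.toBilin'_apply, Matrix.toBilin'_apply, Finset.sum_comm]
  refine Finset.sum_congr rfl fun i _ => Finset.sum_congr rfl fun j _ => ?_
  rw [Matrix.of_apply, Matrix.of_apply, coeff_pderiv, coeff_pderiv]
  by_cases hij : i = j
  · rw [hij]; ring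
  · have e1 : (Finsupp.single i 1 : Fin 4 →₀ ℕ) j = 0 := by simp [Finsupp.single_apply, hij]
    have e2 : (Finsupp.single j 1 : Fin 4 →₀ ℕ) i = 0 := by simp [Finsupp.single_apply, Ne.symm hij]
    rw [e1, e2, add_comm (Finsupp.single i 1)]
    ring

lemma qB_self {q : MvPolynomial (Fin 4) ℂ} (hq : q.IsHomogeneous 2) (x : V4) :
    qB q x x = 2 * eval x q := by
  rw [qB_apply hq]
  have h1 := congrArg (eval x) hq.sum_X_mul_pderiv
  rw [map_sum] at h1
  simp only [map_mul, eval_X, map_nsmul, nsmul_eq_mul] at h1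
  rw [h1]
  norm_num

/-- the quadratic form of a quadratic polynomial -/
noncomputable def Qf (q : MvPolynomial (Fin 4) ℂ) : QuadraticForm ℂ V4 :=
  LinearMap.BilinMap.toQuadraticMap ((2⁻¹ : ℂ) • qB q)

lemma Qf_apply {q : MvPolynomial (Fin 4) ℂ} (hq : q.IsHomogeneous 2) (x : V4) :
    Qf q x = eval x q := by
  rw [Qf, LinearMap.BilinMap.toQuadraticMap_apply, LinearMap.smul_apply, LinearMap.smul_apply,
    qB_self hq, smul_eq_mul]
  ring

lemma Qf_polar {q : MvPolynomial (Fin 4) ℂ} (hq : q.IsHomogeneous 2) (x y : V4) :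
    QuadraticMap.polar (Qf q) x y = ∑ i, y i * eval x (pderiv i q) := by
  rw [← qB_apply hq, QuadraticMap.polar]
  have h1 : ∀ v, Qf q v = 2⁻¹ * qB q v v := fun v => rfl
  rw [h1, h1, h1]
  simp only [map_add, LinearMap.add_apply]
  rw [qB_symm q x y]
  ring

lemma Qf_sep {q : MvPolynomial (Fin 4) ℂ} (hq : q.IsHomogeneous 2)
    (hgrad : ∀ v : V4, (∀ i : Fin 4, eval v (pderiv i q) = 0) → v = 0) :
    (QuadraticMap.associated (R := ℂ) (Qf q)).SeparatingLeft := by
  intro x hx
  apply hgrad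
  intro i
  have h1 := hx (Pi.single i 1)
  have h2 : (2 • QuadraticMap.associatedHom ℂ (Qf q)) x (Pi.single i 1) = 0 := by
    rw [LinearMap.smul_apply, LinearMap.smul_apply]
    have : (QuadraticMap.associatedHom ℂ (Qf q)) x (Pi.single i 1) = 0 := h1
    rw [this, smul_zero]
  rw [QuadraticMap.two_nsmul_associated] at h2
  change QuadraticMap.polar (Qf q) x (Pi.single i 1) = 0 at h2
  rw [Qf_polar hq, Finset.sum_eq_single i] at h2
  · simpa using h2
  · intro j _ hj
    rw [Pi.single_eq_of_ne hj, zero_mul]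
  · simp

/-- the hyperbolic form -/
noncomputable def qh : MvPolynomial (Fin 4) ℂ := X 0 * X 3 - X 1 * X 2

lemma qh_hom : qh.IsHomogeneous 2 :=
  ((isHomogeneous_X ℂ (0 : Fin 4)).mul (isHomogeneous_X ℂ (3 : Fin 4))).sub
    ((isHomogeneous_X ℂ (1 : Fin 4)).mul (isHomogeneous_X ℂ (2 : Fin 4)))

lemma qh_grad (v : V4) (h : ∀ i : Fin 4, eval v (pderiv i qh) = 0) : v = 0 := by
  have h01 : (pderiv (0 : Fin 4)) (X 1 : MvPolynomial (Fin 4) ℂ) = 0 := pderiv_X_of_ne (by decide)
  have h02 : (pderiv (0 : Fin 4)) (X 2 : MvPolynomial (Fin 4) ℂ) = 0 := pderiv_X_of_ne (by decide)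
  have h03 : (pderiv (0 : Fin 4)) (X 3 : MvPolynomial (Fin 4) ℂ) = 0 := pderiv_X_of_ne (by decide)
  have h10 : (pderiv (1 : Fin 4)) (X 0 : MvPolynomial (Fin 4) ℂ) = 0 := pderiv_X_of_ne (by decide)
  have h12 : (pderiv (1 : Fin 4)) (X 2 : MvPolynomial (Fin 4) ℂ) = 0 := pderiv_X_of_ne (by decide)
  have h13 : (pderiv (1 : Fin 4)) (X 3 : MvPolynomial (Fin 4) ℂ) = 0 := pderiv_X_of_ne (by decide)
  have h20 : (pderiv (2 : Fin 4)) (X 0 : MvPolynomial (Fin 4) ℂ) = 0 := pderiv_X_of_ne (by decide)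
  have h21 : (pderiv (2 : Fin 4)) (X 1 : MvPolynomial (Fin 4) ℂ) = 0 := pderiv_X_of_ne (by decide)
  have h23 : (pderiv (2 : Fin 4)) (X 3 : MvPolynomial (Fin 4) ℂ) = 0 := pderiv_X_of_ne (by decide)
  have h30 : (pderiv (3 : Fin 4)) (X 0 : MvPolynomial (Fin 4) ℂ) = 0 := pderiv_X_of_ne (by decide)
  have h31 : (pderiv (3 : Fin 4)) (X 1 : MvPolynomial (Fin 4) ℂ) = 0 := pderiv_X_of_ne (by decide)
  have h32 : (pderiv (3 : Fin 4)) (X 2 : MvPolynomial (Fin 4) ℂ) = 0 := pderiv_X_of_ne (by decide)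
  have e0 := h 0
  have e1 := h 1
  have e2 := h 2
  have e3 := h 3
  simp only [qh, map_sub, Derivation.leibniz, pderiv_X_self, h01, h02, h03, smul_eq_mul, map_add,
    map_mul, eval_X, map_zero, map_one, mul_zero, mul_one, sub_zero, add_zero, zero_add] at e0
  simp only [qh, map_sub, Derivation.leibniz, pderiv_X_self, h10, h12, h13, smul_eq_mul, map_add,
    map_mul, eval_X, map_zero, map_one, mul_zero, mul_one, sub_zero, add_zero, zero_add,
    zero_sub, map_neg, neg_eq_zero] at e1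
  simp only [qh, map_sub, Derivation.leibniz, pderiv_X_self, h20, h21, h23, smul_eq_mul, map_add,
    map_mul, eval_X, map_zero, map_one, mul_zero, mul_one, sub_zero, add_zero, zero_add,
    zero_sub, map_neg, neg_eq_zero] at e2
  simp only [qh, map_sub, Derivation.leibniz, pderiv_X_self, h30, h31, h32, smul_eq_mul, map_add,
    map_mul, eval_X, map_zero, map_one, mul_zero, mul_one, sub_zero, add_zero, zero_add] at e3
  funext i
  fin_cases i
  · exact e3
  · exact e2
  · exact e1
  · exact e0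

/-- diagonalization -/
theorem exists_T1 {q : MvPolynomial (Fin 4) ℂ} (hq : q.IsHomogeneous 2)
    (hgrad : ∀ v : V4, (∀ i : Fin 4, eval v (pderiv i q) = 0) → v = 0) :
    ∃ T : V4 ≃ₗ[ℂ] V4, ∀ v, T v 0 * T v 3 - T v 1 * T v 2 = eval v q := by
  obtain ⟨e⟩ := QuadraticForm.equivalent_of_isAlgClosed (Qf q) (Qf qh) (Qf_sep hq hgrad)
    (Qf_sep qh_hom qh_grad)
  refine ⟨e.toLinearEquiv, fun v => ?_⟩
  have h1 := e.map_app v
  rw [Qf_apply hq, Qf_apply qh_hom] at h1
  have h2 : ∀ w : V4, eval w qh = w 0 * w 3 - w 1 * w 2 := by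
    intro w
    simp only [qh, map_sub, map_mul, eval_X]
  exact (h2 (e v)).symm.trans h1

/-- a change of coordinates preserving the hyperbolic form -/
def Tst (s t : ℂ) : V4 ≃ₗ[ℂ] V4 where
  toFun v := ![v 0, v 1 + t * v 0, v 2 + s * v 0, v 3 + s * v 1 + t * v 2 + s * t * v 0]
  map_add' := by
    intro u v
    funext i
    fin_cases i
    · rfl
    · change (u + v) 1 + t * (u + v) 0 = (u 1 + t * u 0) + (v 1 + t * v 0)
      simp only [Pi.add_apply]; ring
    · change (u + v) 2 + s * (u + v) 0 = (u 2 + s * u 0) + (v 2 + s * v 0)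
      simp only [Pi.add_apply]; ring
    · change (u + v) 3 + s * (u + v) 1 + t * (u + v) 2 + s * t * (u + v) 0 =
        (u 3 + s * u 1 + t * u 2 + s * t * u 0) + (v 3 + s * v 1 + t * v 2 + s * t * v 0)
      simp only [Pi.add_apply]; ring
  map_smul' := by
    intro c v
    funext i
    fin_cases i
    · rfl
    · change (c • v) 1 + t * (c • v) 0 = c * (v 1 + t * v 0)
      simp only [Pi.smul_apply, smul_eq_mul]; ring
    · change (c • v) 2 + s * (c • v) 0 = c * (v 2 + s * v 0)
      simp only [Pi.smul_apply, smul_eq_mul]; ring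
    · change (c • v) 3 + s * (c • v) 1 + t * (c • v) 2 + s * t * (c • v) 0 =
        c * (v 3 + s * v 1 + t * v 2 + s * t * v 0)
      simp only [Pi.smul_apply, smul_eq_mul]; ring
  invFun v := ![v 0, v 1 - t * v 0, v 2 - s * v 0, v 3 - s * v 1 - t * v 2 + s * t * v 0]
  left_inv := by
    intro v
    funext i
    fin_cases i
    · rfl
    · change (v 1 + t * v 0) - t * v 0 = v 1
      ring
    · change (v 2 + s * v 0) - s * v 0 = v 2
      ring
    · change (v 3 + s * v 1 + t * v 2 + s * t * v 0) - s * (v 1 + t * v 0) - t * (v 2 + s * v 0) +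
        s * t * v 0 = v 3
      ring
  right_inv := by
    intro v
    funext i
    fin_cases i
    · rfl
    · change (v 1 - t * v 0) + t * v 0 = v 1
      ring
    · change (v 2 - s * v 0) + s * v 0 = v 2
      ring
    · change (v 3 - s * v 1 - t * v 2 + s * t * v 0) + s * (v 1 - t * v 0) + t * (v 2 - s * v 0) +
        s * t * v 0 = v 3
      ring

/-- normal coordinates -/
theorem exists_T {ι : Type} [Fintype ι] {q : MvPolynomial (Fin 4) ℂ} (hq : q.IsHomogeneous 2)
    (hgrad : ∀ v : V4, (∀ i : Fin 4, eval v (pderiv i q) = 0) → v = 0) (p : ι → V4)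
    (hp : ∀ k, eval (p k) q = 0) (hp0 : ∀ k, p k ≠ 0) :
    ∃ T : V4 ≃ₗ[ℂ] V4, ∀ k, ∃ c : ℂ, c ≠ 0 ∧ ∃ v : Fin 2 → ℂ, T (p k) = c • zt v := by
  classical
  obtain ⟨T1, hT1⟩ := exists_T1 hq hgrad
  set f : ι → Bx := fun k => C (T1 (p k) 3) + X 0 * C (T1 (p k) 1) + X 1 * C (T1 (p k) 2) +
    X 0 * X 1 * C (T1 (p k) 0) with hf
  have hf0 : ∀ k, f k ≠ 0 := by
    intro k h0
    have h1 : ∀ s t : ℂ, T1 (p k) 3 + s * T1 (p k) 1 + t * T1 (p k) 2 + s * t * T1 (p k) 0 = 0 := by
      intro s t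
      have := congrArg (eval ![s, t]) h0
      simpa [hf] using this
    have a0 := h1 0 0
    have a1 := h1 1 0
    have a2 := h1 0 1
    have a3 := h1 1 1
    have b3 : T1 (p k) 3 = 0 := by linear_combination a0
    have b1 : T1 (p k) 1 = 0 := by linear_combination a1 - a0
    have b2 : T1 (p k) 2 = 0 := by linear_combination a2 - a0
    have b0 : T1 (p k) 0 = 0 := by linear_combination a3 - a1 - a2 + a0
    have h2 : T1 (p k) = 0 := by
      funext i
      fin_cases i
      · exact b0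
      · exact b1
      · exact b2
      · exact b3
    exact hp0 k (by rw [← T1.map_eq_zero_iff]; exact h2)
  obtain ⟨P, hP⟩ := exists_eval_ne (∏ k, f k) (Finset.prod_ne_zero_iff.mpr fun k _ => hf0 k)
  rw [map_prod, Finset.prod_ne_zero_iff] at hP
  refine ⟨T1.trans (Tst (P 0) (P 1)), fun k => ?_⟩
  set u := T1 (p k) with hu
  have hu0 : u 0 * u 3 - u 1 * u 2 = 0 := by rw [hT1, hp]
  have hw3 : u 3 + P 0 * u 1 + P 1 * u 2 + P 0 * P 1 * u 0 ≠ 0 := by
    have := hP k (Finset.mem_univ k)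
    simpa [hf] using this
  set c := u 3 + P 0 * u 1 + P 1 * u 2 + P 0 * P 1 * u 0 with hc
  refine ⟨c, hw3, ![(u 1 + P 1 * u 0) / c, (u 2 + P 0 * u 0) / c], ?_⟩
  change Tst (P 0) (P 1) u = _
  funext i
  fin_cases i
  · change u 0 = c * (((u 1 + P 1 * u 0) / c) * ((u 2 + P 0 * u 0) / c))
    field_simp
    rw [hc]
    linear_combination hu0
  · change u 1 + P 1 * u 0 = c * ((u 1 + P 1 * u 0) / c)
    field_simp
  · change u 2 + P 0 * u 0 = c * ((u 2 + P 0 * u 0) / c)
    field_simp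
  · change u 3 + P 0 * u 1 + P 1 * u 2 + P 0 * P 1 * u 0 = c * 1
    rw [hc, mul_one]

end Pool.Agent.H371R3.GQ
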