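import Pool.Agent.H371R3.GQ.E2

set_option autoImplicit false
set_option linter.unusedSectionVars false
set_option linter.unusedSimpArgs false
open MvPolynomial
open scoped LinearAlgebra.Projectivization

namespace Pool.Agent.H371R3.GQ

/-- composition of a polynomial with a linear map -/
noncomputable def cmp (T : V4 →ₗ[ℂ] V4) : MvPolynomial (Fin 4) ℂ →ₐ[ℂ] MvPolynomial (Fin 4) ℂ :=
  aeval fun i => ∑ j, C (T (Pi.single j 1) i) * X j

lemma eval_cmp (T : V4 →ₗ[ℂ] V4) (f : MvPolynomial (Fin 4) ℂ) (v : V4) :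
    eval v (cmp T f) = eval (T v) f := by
  have h : (eval v).comp ((cmp T : MvPolynomial (Fin 4) ℂ →ₐ[ℂ] MvPolynomial (Fin 4) ℂ) :
      MvPolynomial (Fin 4) ℂ →+* MvPolynomial (Fin 4) ℂ) = eval (T v) := by
    apply MvPolynomial.ringHom_ext
    · intro c; simp [cmp, aeval_C]
    · intro i
      have h1 : T v = ∑ j, v j • T (Pi.single j 1) := by
        conv_lhs => rw [pi_eq_sum_univ' v]
        rw [map_sum]
        exact Finset.sum_congr rfl fun j _ => map_smul _ _ _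
      simp only [cmp, RingHom.comp_apply, RingHom.coe_coe, aeval_X, map_sum, map_mul, eval_C,
        eval_X]
      rw [h1, Finset.sum_apply]
      exact Finset.sum_congr rfl fun j _ => by rw [Pi.smul_apply, smul_eq_mul, mul_comm]
  exact RingHom.congr_fun h f

lemma cmp_cmp (T : V4 ≃ₗ[ℂ] V4) (f : MvPolynomial (Fin 4) ℂ) :
    cmp (T : V4 →ₗ[ℂ] V4) (cmp (T.symm : V4 →ₗ[ℂ] V4) f) = f := by
  apply MvPolynomial.funext
  intro v
  rw [eval_cmp, eval_cmp]
  simp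

lemma cmp_cmp' (T : V4 ≃ₗ[ℂ] V4) (f : MvPolynomial (Fin 4) ℂ) :
    cmp (T.symm : V4 →ₗ[ℂ] V4) (cmp (T : V4 →ₗ[ℂ] V4) f) = f := by
  apply MvPolynomial.funext
  intro v
  rw [eval_cmp, eval_cmp]
  simp

/-- the geproci hypothesis for a family of vectors -/
def Gep {ι : Type} (p : ι → V4) : Prop :=
  ∃ h : MvPolynomial (Fin 4) ℂ, h ≠ 0 ∧ ∀ P : V4, P ≠ 0 → eval P h ≠ 0 →
      ∃ F G : MvPolynomial (Fin 4) ℂ, ∀ f : MvPolynomial (Fin 4) ℂ,
        f ∈ Ideal.span {F, G} ↔ ∀ k, ∀ s t : ℂ, eval (s • P + t • p k) f = 0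

theorem Gep.transfer {ι : Type} {p p' : ι → V4} (T : V4 ≃ₗ[ℂ] V4) (c : ι → ℂ) (hc : ∀ k, c k ≠ 0)
    (hT : ∀ k, T (p k) = c k • p' k) (h : Gep p) : Gep p' := by
  obtain ⟨h, hh, hgp⟩ := h
  refine ⟨cmp (T.symm : V4 →ₗ[ℂ] V4) h, ?_, ?_⟩
  · intro h0
    apply hh
    rw [← cmp_cmp T h, h0, map_zero]
  · intro P hP hPh
    rw [eval_cmp] at hPh
    have hP' : T.symm P ≠ 0 := by
      intro h0
      exact hP ((T.symm.map_eq_zero_iff).mp h0)
    obtain ⟨F, G, hFG⟩ := hgp (T.symm P) hP' hPh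
    refine ⟨cmp (T.symm : V4 →ₗ[ℂ] V4) F, cmp (T.symm : V4 →ₗ[ℂ] V4) G, fun f => ?_⟩
    have h1 : f ∈ Ideal.span {cmp (T.symm : V4 →ₗ[ℂ] V4) F, cmp (T.symm : V4 →ₗ[ℂ] V4) G} ↔
        cmp (T : V4 →ₗ[ℂ] V4) f ∈ Ideal.span {F, G} := by
      rw [Ideal.mem_span_pair, Ideal.mem_span_pair]
      constructor
      · rintro ⟨A, B, rfl⟩
        refine ⟨cmp (T : V4 →ₗ[ℂ] V4) A, cmp (T : V4 →ₗ[ℂ] V4) B, ?_⟩
        rw [map_add, map_mul, map_mul, cmp_cmp, cmp_cmp]
      · rintro ⟨A, B, hAB⟩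
        refine ⟨cmp (T.symm : V4 →ₗ[ℂ] V4) A, cmp (T.symm : V4 →ₗ[ℂ] V4) B, ?_⟩
        rw [← map_mul, ← map_mul, ← map_add, hAB, cmp_cmp']
    rw [h1, hFG]
    have hvec : ∀ k (s t : ℂ), T (s • T.symm P + t • p k) = s • P + (t * c k) • p' k := by
      intro k s t
      rw [map_add, map_smul, map_smul, LinearEquiv.apply_symm_apply, hT, smul_smul]
    constructor
    · intro h2 k s t
      have h3 := h2 k s (t * (c k)⁻¹)
      rw [eval_cmp, LinearEquiv.coe_coe, hvec, mul_assoc, inv_mul_cancel₀ (hc k), mul_one] at h3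
      exact h3
    · intro h2 k s t
      rw [eval_cmp, LinearEquiv.coe_coe, hvec]
      exact h2 k s _

/-- the four point case from the library -/
theorem grid_card_four (Z : Finset (ℙ ℂ (Fin 4 → ℂ))) (hZ : Z.card = 4)
    (hsp : ∀ c : Fin 4 → ℂ, (∀ z ∈ Z, ∑ i, c i * z.rep i = 0) → c = 0) :
    ∃ (L : Fin 2 → Submodule ℂ (Fin 4 → ℂ)) (M : Fin 2 → Submodule ℂ (Fin 4 → ℂ)),
        (∀ i, Module.finrank ℂ (L i) = 2) ∧ (∀ j, Module.finrank ℂ (M j) = 2) ∧
        (∀ i i', i ≠ i' → L i ⊓ L i' = ⊥) ∧ (∀ j j', j ≠ j' → M j ⊓ M j' = ⊥) ∧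
        (∀ i j, Module.finrank ℂ ↥(L i ⊓ M j) = 1) ∧
        ∀ z : ℙ ℂ (Fin 4 → ℂ), z ∈ Z ↔ ∃ i j, z.submodule = L i ⊓ M j := by
  obtain ⟨L, M, h1, h2, h3, h4, h5, h6⟩ := Pool.Agent.Helper947.Geo.grid_four_strong Z hZ hsp
  refine ⟨L, M, h1, h2, h3, h4, h5, fun z => ?_⟩
  rw [h6 z]
  constructor
  · rintro ⟨i, j, hi, hj⟩
    refine ⟨i, j, ?_⟩
    apply Submodule.eq_of_le_of_finrank_eq
    · rw [Projectivization.submodule_eq, Submodule.span_singleton_le_iff_mem]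
      exact ⟨hi, hj⟩
    · rw [Projectivization.finrank_submodule, h5]
  · rintro ⟨i, j, hij⟩
    refine ⟨i, j, ?_⟩
    have h7 : z.rep ∈ z.submodule := by
      rw [Projectivization.submodule_eq]
      exact Submodule.mem_span_singleton_self _
    rw [hij] at h7
    exact ⟨h7.1, h7.2⟩

theorem main (Z : Finset (ℙ ℂ (Fin 4 → ℂ)))
    (hspan : (⨆ z ∈ Z, z.submodule) = ⊤)
    (hq : ∃ q : MvPolynomial (Fin 4) ℂ, q.IsHomogeneous 2 ∧
      (∀ v : Fin 4 → ℂ,
        (∀ i : Fin 4, MvPolynomial.eval v (MvPolynomial.pderiv i q) = 0) → v = 0) ∧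
      ∀ z ∈ Z, MvPolynomial.eval z.rep q = 0)
    (hgp : ∃ h : MvPolynomial (Fin 4) ℂ, h ≠ 0 ∧
      ∀ p : Fin 4 → ℂ, p ≠ 0 → MvPolynomial.eval p h ≠ 0 →
        ∃ F G : MvPolynomial (Fin 4) ℂ, ∀ f : MvPolynomial (Fin 4) ℂ,
          f ∈ Ideal.span {F, G} ↔
            ∀ z ∈ Z, ∀ s t : ℂ, MvPolynomial.eval (s • p + t • z.rep) f = 0) :
    ∃ a b : ℕ, ∃ L : Fin a → Submodule ℂ (Fin 4 → ℂ),
      ∃ M : Fin b → Submodule ℂ (Fin 4 → ℂ),
        (∀ i, Module.finrank ℂ (L i) = 2) ∧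
        (∀ j, Module.finrank ℂ (M j) = 2) ∧
        (∀ i i', i ≠ i' → L i ⊓ L i' = ⊥) ∧
        (∀ j j', j ≠ j' → M j ⊓ M j' = ⊥) ∧
        (∀ i j, Module.finrank ℂ (↥(L i ⊓ M j)) = 1) ∧
        ∀ z : ℙ ℂ (Fin 4 → ℂ), z ∈ Z ↔ ∃ i j, z.submodule = L i ⊓ M j := by
  classical
  obtain ⟨q, hqh, hgrad, hqZ⟩ := hq
  let p : {z // z ∈ Z} → V4 := fun z => z.1.rep
  have hspan' : Submodule.span ℂ (Set.range p) = ⊤ := by
    rw [eq_top_iff, ← hspan]
    refine iSup₂_le fun z hz => ?_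
    rw [Projectivization.submodule_eq, Submodule.span_singleton_le_iff_mem]
    exact Submodule.subset_span ⟨⟨z, hz⟩, rfl⟩
  obtain ⟨T, hT⟩ := exists_T hqh hgrad p (fun k => hqZ k.1 k.2) (fun k => k.1.rep_nonzero)
  choose c hc v hv using hT
  have hinj : Function.Injective v := by
    intro k l hkl
    have h1 := hv k
    have h2 := hv l
    rw [hkl] at h1
    have h3 : T (p k) = T ((c k * (c l)⁻¹) • p l) := by
      rw [map_smul, h2, h1, smul_smul, mul_assoc, inv_mul_cancel₀ (hc l), mul_one]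
    have h4 := T.injective h3
    apply Subtype.ext
    apply Projectivization.submodule_injective
    rw [Projectivization.submodule_eq, Projectivization.submodule_eq]
    change Submodule.span ℂ {p k} = Submodule.span ℂ {p l}
    rw [h4]
    exact Submodule.span_singleton_smul_eq
      (isUnit_iff_ne_zero.mpr (mul_ne_zero (hc k) (inv_ne_zero (hc l)))) _
  have hsp : Submodule.span ℂ (Set.range fun k => zt (v k)) = ⊤ := by
    have h1 : (Submodule.span ℂ (Set.range p)).map (T : V4 →ₗ[ℂ] V4) = ⊤ := by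
      rw [hspan', Submodule.map_top, LinearEquiv.range]
    rw [eq_top_iff, ← h1, Submodule.map_span, Submodule.span_le]
    rintro _ ⟨_, ⟨k, rfl⟩, rfl⟩
    rw [LinearEquiv.coe_coe, hv k]
    exact Submodule.smul_mem _ _ (Submodule.subset_span ⟨k, rfl⟩)
  have hgep : Gep p := by
    obtain ⟨h, hh, hgp⟩ := hgp
    refine ⟨h, hh, fun P hP hPh => ?_⟩
    obtain ⟨F, G, hFG⟩ := hgp P hP hPh
    refine ⟨F, G, fun f => ?_⟩
    rw [hFG]
    constructor
    · intro h1 k s t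
      exact h1 k.1 k.2 s t
    · intro h1 z hz s t
      exact h1 ⟨z, hz⟩ s t
  have hgep' : Gep (fun k => zt (v k)) := hgep.transfer T c hc hv
  have hfin : Grid p → ∃ a b : ℕ, ∃ L : Fin a → Submodule ℂ (Fin 4 → ℂ),
      ∃ M : Fin b → Submodule ℂ (Fin 4 → ℂ),
        (∀ i, Module.finrank ℂ (L i) = 2) ∧
        (∀ j, Module.finrank ℂ (M j) = 2) ∧
        (∀ i i', i ≠ i' → L i ⊓ L i' = ⊥) ∧
        (∀ j j', j ≠ j' → M j ⊓ M j' = ⊥) ∧
        (∀ i j, Module.finrank ℂ (↥(L i ⊓ M j)) = 1) ∧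
        ∀ z : ℙ ℂ (Fin 4 → ℂ), z ∈ Z ↔ ∃ i j, z.submodule = L i ⊓ M j := by
    rintro ⟨a, b, L, M, h1, h2, h3, h4, h5, h6, h7⟩
    refine ⟨a, b, L, M, h1, h2, h3, h4, h5, fun z => ?_⟩
    constructor
    · intro hz
      obtain ⟨i, j, hij⟩ := h6 ⟨z, hz⟩
      exact ⟨i, j, by rw [Projectivization.submodule_eq]; exact hij⟩
    · rintro ⟨i, j, hij⟩
      obtain ⟨k, hk⟩ := h7 i j
      have h8 : z = k.1 := by
        apply Projectivization.submodule_injective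
        rw [hij, ← hk, Projectivization.submodule_eq k.1]
      rw [h8]; exact k.2
  have hback : Grid (fun k => zt (v k)) → Grid p := by
    intro hG
    apply Grid.of_equiv T
    exact hG.of_scale c hc hv
  rcases normal v hinj hsp hgep' with h | ⟨b, h⟩ | h
  · exact hfin (hback (grid_prod h))
  · exact hfin (hback (grid_isTwo hinj h))
  · have hZ4 : Z.card = 4 := (Fintype.card_coe Z).symm.trans h
    have hsp4 : ∀ c : Fin 4 → ℂ, (∀ z ∈ Z, ∑ i, c i * z.rep i = 0) → c = 0 := by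
      intro c hc
      funext i
      have hmem : (Pi.single i 1 : V4) ∈ Submodule.span ℂ (Set.range p) := by
        rw [hspan']; trivial
      rw [Submodule.mem_span_range_iff_exists_fun] at hmem
      obtain ⟨x, hx⟩ := hmem
      have h1 : ∑ j, c j * (Pi.single i 1 : V4) j = 0 := by
        rw [← hx]
        simp only [Finset.sum_apply, Pi.smul_apply, smul_eq_mul, Finset.mul_sum]
        rw [Finset.sum_comm]
        apply Finset.sum_eq_zero
        intro k _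
        have h2 := hc k.1 k.2
        calc ∑ j, c j * (x k * p k j) = x k * ∑ j, c j * k.1.rep j := by
              rw [Finset.mul_sum]
              exact Finset.sum_congr rfl fun j _ => by ring
          _ = 0 := by rw [h2, mul_zero]
      rw [Finset.sum_eq_single i] at h1
      · simpa using h1
      · intro j _ hj
        rw [Pi.single_eq_of_ne hj, mul_zero]
      · simp
    obtain ⟨L, M, h1⟩ := grid_card_four Z hZ4 hsp4
    exact ⟨2, 2, L, M, h1⟩

end Pool.Agent.H371R3.GQ
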